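import Pool.Agent.H132F.Glue

set_option autoImplicit false

namespace Pool.Agent.H132R3.BP

open SimpleGraph

/-- `r`-neighbour percolation is slow on all boxes `[M] × [n]^m` -/
def Pr (r m : ℕ) : Prop := ∃ C : ℕ, 0 < C ∧ ∀ M n : ℕ, 30 ≤ M → 30 ≤ n →
  ∃ T, M * n ^ m ≤ C * T ∧ Slow ((pathGraph M).boxProd (Grid m n)) r T

theorem fold_step (hF : TFold) (hD : TDense) (hI : TIso) (hI2 : TIso2) (hI3 : TIso3) {r m : ℕ}
    (h : Pr r m) : Pr (r + 2) (m + 1) := by
  obtain ⟨C, hC, h⟩ := h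
  refine ⟨8 * C, by omega, fun M n hM hn => ?_⟩
  obtain ⟨L, p, hL, hp⟩ := hD M n (by omega) (by omega)
  have hL30 : 30 ≤ L := by nlinarith
  obtain ⟨T, hT, hs⟩ := h L n hL30 hn
  refine ⟨T, ?_, ?_⟩
  · calc M * n ^ (m + 1) = (M * n) * n ^ m := by ring
      _ ≤ (8 * L) * n ^ m := Nat.mul_le_mul_right _ hL
      _ = 8 * (L * n ^ m) := by ring
      _ ≤ 8 * (C * T) := Nat.mul_le_mul_left _ hT
      _ = 8 * C * T := by ring
  · have h1 := hF (Fin M × Fin n) (Fin m → Fin n) ((pathGraph M).boxProd (pathGraph n)) (Grid m n)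
      L p r T hp hs
    obtain ⟨e⟩ := hI m n
    have e1 : Nonempty ((((pathGraph M).boxProd (pathGraph n)).boxProd (Grid m n)) ≃g
        ((pathGraph M).boxProd ((pathGraph n).boxProd (Grid m n)))) := ⟨boxProdAssoc _ _ _⟩
    have e2 := hI2 _ _ _ _ (pathGraph M) (pathGraph M) ((pathGraph n).boxProd (Grid m n))
      (Grid (m + 1) n) ⟨Iso.refl⟩ ⟨e.symm⟩
    exact hI3 _ _ _ _ _ _ e2 (hI3 _ _ _ _ _ _ e1 h1)

theorem fold_steps (hF : TFold) (hD : TDense) (hI : TIso) (hI2 : TIso2) (hI3 : TIso3) {r m : ℕ}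
    (h : Pr r m) (j : ℕ) : Pr (r + 2 * j) (m + j) := by
  induction j with
  | zero => exact h
  | succ j ih =>
    have := fold_step hF hD hI hI2 hI3 ih
    exact this

/-- base case: one-neighbour percolation on a path -/
theorem base_one : Pr 1 0 := by
  refine ⟨2, by omega, fun M n hM hn => ⟨M - 1, by simp; omega, ?_⟩⟩
  have h0 : 0 < M := by omega
  refine ⟨{v | (v.1 : ℕ) = 0}, ?_, ?_⟩
  · apply perc_of_closed
    intro C hC hA
    have key : ∀ k : ℕ, ∀ v : Fin M × (Fin 0 → Fin n), (v.1 : ℕ) = k → v ∈ C := by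
      intro k
      induction k with
      | zero => intro v hv; exact hA hv
      | succ k ih =>
        rintro ⟨x, w⟩ hv
        simp only at hv
        apply hC
        have hk : k < M := by have := x.2; omega
        have hin : ((⟨k, hk⟩ : Fin M), w) ∈
            ((pathGraph M).boxProd (Grid 0 n)).neighborSet (x, w) ∩ C := by
          refine ⟨?_, ih _ rfl⟩
          rw [mem_neighborSet, boxProd_adj]
          left
          refine ⟨?_, rfl⟩
          rw [pathGraph_adj]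
          right
          simp [hv]
        have := Set.Nonempty.ncard_pos (s := ((pathGraph M).boxProd (Grid 0 n)).neighborSet (x, w) ∩ C)
          (Set.toFinite _) ⟨_, hin⟩
        omega
    ext v
    simp [key v.1 v rfl]
  · intro t ht huniv
    have h1 := inf_subset_tau ((pathGraph M).boxProd (Grid 0 n)) 1 {v | (v.1 : ℕ) = 0}
      (fun v => (v.1 : ℕ)) (fun v hv => hv) ?_ t
    · have h2 : ((⟨M - 1, by omega⟩ : Fin M), (fun i => i.elim0 : Fin 0 → Fin n)) ∈
          inf ((pathGraph M).boxProd (Grid 0 n)) 1 {v | (v.1 : ℕ) = 0} t := by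
        rw [huniv]; trivial
      have h3 : M - 1 ≤ t := h1 h2
      omega
    · intro v
      have : ((pathGraph M).boxProd (Grid 0 n)).neighborSet v ∩
          {u | ((u.1 : Fin M) : ℕ) + 2 ≤ (v.1 : ℕ)} = ∅ := by
        ext u
        simp only [Set.mem_inter_iff, Set.mem_empty_iff_false, iff_false, not_and]
        intro hu hu2
        have hu2' : ((u.1 : Fin M) : ℕ) + 2 ≤ (v.1 : ℕ) := hu2
        rw [mem_neighborSet, boxProd_adj] at hu
        rcases hu with ⟨h, -⟩ | ⟨⟨i, -⟩, -⟩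
        · rw [pathGraph_adj] at h
          omega
        · exact i.elim0
      rw [this]
      simp

/-- base case: two-neighbour percolation on a strip -/
theorem base_two (hS : TStrip) (hI2 : TIso2) (hI3 : TIso3) : Pr 2 1 := by
  refine ⟨8, by omega, fun M n hM hn => ?_⟩
  obtain ⟨T, hT, hs⟩ := hS M n hM hn
  refine ⟨T, by simpa using hT, ?_⟩
  have e : (pathGraph n) ≃g (Grid 1 n) :=
    { toEquiv := (Equiv.funUnique (Fin 1) (Fin n)).symm
      map_rel_iff' := by
        intro a b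
        rw [pathGraph_adj]
        constructor
        · rintro ⟨i, h, -⟩
          exact h
        · intro h
          exact ⟨0, h, fun j hj => absurd (Subsingleton.elim j 0) hj⟩ }
  exact hI3 _ _ _ _ _ _ (hI2 _ _ _ _ (pathGraph M) (pathGraph M) (pathGraph n) (Grid 1 n)
    ⟨Iso.refl⟩ ⟨e⟩) hs

theorem base_three (hLead : TLead) (hG : TGraded) (c1 : TCount1) (c2 : TCount2) (c3 : TCount3)
    (pc : TPathC) (bt : TBottom) (gr : TGrow) (hI : TIso) (hI2 : TIso2) (hI3 : TIso3) (m : ℕ) :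
    Pr 3 (m + 2) := by
  obtain ⟨C, hC, hLm⟩ := hLead m
  refine ⟨8 * C, by omega, fun M n hM hn => ?_⟩
  obtain ⟨L, φ, hL, hLen, hthin, hlead, hfar, hhigh⟩ := hLm M n hM hn
  obtain ⟨q, hg⟩ := hG m M n (by omega) (by omega)
  set lam : (Fin M × Fin n) × (Fin m → Fin n) → ℕ := fun y => (y.1.1 : ℕ) + ∑ j, (y.2 j : ℕ)
    with hlam
  set kap : (Fin M × Fin n) × (Fin m → Fin n) → ℕ := fun y => (y.1.2 : ℕ) with hkap
  have hlead' : ∀ i : Fin L, (i : ℕ) ≤ 3 → lam (φ i) = i ∧ kap (φ i) = 5 := by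
    intro i hi
    obtain ⟨h1, h2, h3⟩ := hlead i (by omega)
    refine ⟨?_, h2⟩
    simp only [hlam]
    rw [h1, Finset.sum_eq_zero (fun j _ => h3 j)]
    omega
  have hfar' : ∀ i : Fin L, 3 ≤ (i : ℕ) → 3 ≤ lam (φ i) := by
    intro i hi
    by_cases h3 : (i : ℕ) ≤ 3
    · rw [(hlead' i h3).1]; exact hi
    · have := hfar i (by omega)
      simp only [hlam]
      omega
  set J := (n - 6) / 2 with hJ
  obtain ⟨τ, hτ⟩ := exists_tau (n := n) (J := J) hg hthin hlead' hfar' hhigh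
  have S : Setup ((pathGraph M □ pathGraph n) □ Grid m n) n L J lam kap q φ τ :=
    ⟨hn, hL, by omega, by omega, hg, hthin, hlead', hfar', hhigh, hτ⟩
  have hs := slow_of_setup c1 c2 c3 pc bt gr S
  refine ⟨big L J, ?_, ?_⟩
  · have h1 : n * L ≤ 8 * big L J := by
      have hb : J * (L - 4) ≤ big L J := by unfold big; omega
      have h2 : n * L ≤ 8 * (J * (L - 4)) := by
        obtain ⟨b, rfl⟩ : ∃ b, L = b + 30 := ⟨L - 30, by omega⟩
        have hL4 : b + 30 - 4 = b + 26 := by omega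
        rw [hL4]
        have hJ2 : n ≤ 2 * J + 7 := by omega
        have hJ3 : 12 ≤ J := by omega
        nlinarith
      omega
    calc M * n ^ (m + 2) = (M * n ^ (m + 1)) * n := by ring
      _ ≤ (C * L) * n := Nat.mul_le_mul_right _ hLen
      _ = C * (n * L) := by ring
      _ ≤ C * (8 * big L J) := Nat.mul_le_mul_left _ h1
      _ = 8 * C * big L J := by ring
  · obtain ⟨e⟩ := hI m n
    obtain ⟨e'⟩ := hI (m + 1) n
    have s1 := hI3 _ _ _ _ _ _ ⟨boxProdAssoc ((pathGraph M).boxProd (pathGraph n)) (Grid m n)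
      (pathGraph n)⟩ hs
    have s2 := hI3 _ _ _ _ _ _ (hI2 _ _ _ _ ((pathGraph M).boxProd (pathGraph n)) _
      ((Grid m n).boxProd (pathGraph n)) ((pathGraph n).boxProd (Grid m n)) ⟨Iso.refl⟩
      ⟨boxProdComm _ _⟩) s1
    have s3 := hI3 _ _ _ _ _ _ (hI2 _ _ _ _ ((pathGraph M).boxProd (pathGraph n)) _
      ((pathGraph n).boxProd (Grid m n)) (Grid (m + 1) n) ⟨Iso.refl⟩ ⟨e.symm⟩) s2
    have s4 := hI3 _ _ _ _ _ _ ⟨boxProdAssoc (pathGraph M) (pathGraph n) (Grid (m + 1) n)⟩ s3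
    exact hI3 _ _ _ _ _ _ (hI2 _ _ _ _ (pathGraph M) _ ((pathGraph n).boxProd (Grid (m + 1) n))
      (Grid (m + 2) n) ⟨Iso.refl⟩ ⟨e'.symm⟩) s4

/-- all odd `r`, and `r = 2 d - 2` -/
theorem main_pr (hF : TFold) (hD : TDense) (hLead : TLead) (hG : TGraded) (c1 : TCount1)
    (c2 : TCount2) (c3 : TCount3) (pc : TPathC) (bt : TBottom) (gr : TGrow) (hS : TStrip)
    (hI : TIso) (hI2 : TIso2) (hI3 : TIso3) (d r : ℕ) (hr : 3 ≤ r) (hrd : r ≤ 2 * d + 1)
    (hor : Odd r ∨ r = 2 * d) : Pr r d := by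
  rcases hor with ⟨s, hs⟩ | h2
  · by_cases htop : r = 2 * d + 1
    · have h1 := fold_steps hF hD hI hI2 hI3 base_one d
      have e1 : 1 + 2 * d = r := by omega
      have e2 : 0 + d = d := by omega
      rw [e1, e2] at h1
      exact h1
    · obtain ⟨k, hk⟩ : ∃ k, d = k + 2 + (s - 1) := ⟨d - 2 - (s - 1), by omega⟩
      have h1 := fold_steps hF hD hI hI2 hI3
        (base_three hLead hG c1 c2 c3 pc bt gr hI hI2 hI3 k) (s - 1)
      have e1 : 3 + 2 * (s - 1) = r := by omega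
      rw [e1, ← hk] at h1
      exact h1
  · have h1 := fold_steps hF hD hI hI2 hI3 (base_two hS hI2 hI3) (d - 1)
    have e1 : 2 + 2 * (d - 1) = r := by omega
    have e2 : 1 + (d - 1) = d := by omega
    rw [e1, e2] at h1
    exact h1

end Pool.Agent.H132R3.BP
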