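import Pool.Agent.H132F.Stmts

/-!
# ARITH1 (project H132-BP)

Among the four neighbours of a point at most two are much earlier.
-/

set_option autoImplicit false

namespace Pool.Agent.H132R3.BP

theorem a1_line (L J i : ℕ) (hi : 1 ≤ i) (h : i + 2 ≤ L) :
    t2 L J i 4 = J * (L - 4) + L - 1 - i := by
  unfold t2
  rw [if_neg (by omega), if_neg (by omega), if_pos ⟨rfl, h⟩]

theorem a1_even (L J i z : ℕ) (hi : 4 ≤ i) (h : i + 2 ≤ L) (hz : 4 ≤ z) (he : z % 2 = 0)
    (hz2 : z ≤ 2 * J + 5) :
    t2 L J i z =
      (J - (z - 4) / 2) * (L - 4) + 1 + (if z % 4 = 0 then L - 2 - i else i - 4) := by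
  rcases eq_or_ne z 4 with rfl | h4
  · rw [a1_line L J i (by omega) h]
    have : (4 - 4) / 2 = 0 := rfl
    rw [this, Nat.sub_zero, if_pos rfl]
    omega
  · unfold t2
    rw [if_neg (by omega), if_neg (by omega), if_neg (by omega), if_neg (by omega),
      if_pos (by omega), if_pos (by omega)]

theorem a1_c1 (L J i z : ℕ) (hL : 30 ≤ L) (h : i + 2 = L) (hz : 5 ≤ z) (he : z % 4 = 1)
    (hz2 : z ≤ 2 * J + 3) : t2 L J i z = (J - (z - 5) / 2) * (L - 4) := by
  unfold t2
  rw [if_neg (by omega), if_neg (by omega), if_neg (by omega), if_neg (by omega),
    if_pos (by omega), if_neg (by omega), if_pos (by omega)]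

theorem a1_c3 (L J z : ℕ) (hL : 30 ≤ L) (hz : 7 ≤ z) (he : z % 4 = 3)
    (hz2 : z ≤ 2 * J + 3) : t2 L J 4 z = (J - (z - 5) / 2) * (L - 4) := by
  unfold t2
  rw [if_neg (by omega), if_neg (by omega), if_neg (by omega), if_neg (by omega),
    if_pos (by omega), if_neg (by omega), if_neg (by omega), if_pos (by omega)]

theorem a1_big (L J i z : ℕ) (h0 : z ≠ 0) (h1 : i ≠ 0) (h2 : ¬ (z = 4 ∧ i + 2 ≤ L))
    (h3 : ¬ (i < 4 ∧ (z = 3 ∨ z = 5))) (h4 : ¬ (3 ≤ i ∧ i < L ∧ 3 ≤ z ∧ z ≤ 2 * J + 5)) :
    t2 L J i z = big L J := by
  unfold t2
  rw [if_neg h0, if_neg h1, if_neg h2, if_neg h3, if_neg h4]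

theorem a1_two {v a b c d : ℕ}
    (h : (v < a + 2 ∧ v < b + 2) ∨ (v < a + 2 ∧ v < c + 2) ∨ (v < a + 2 ∧ v < d + 2) ∨
      (v < b + 2 ∧ v < c + 2) ∨ (v < b + 2 ∧ v < d + 2) ∨ (v < c + 2 ∧ v < d + 2)) :
    (if a + 2 ≤ v then 1 else 0) + (if b + 2 ≤ v then 1 else 0) +
      (if c + 2 ≤ v then 1 else 0) + (if d + 2 ≤ v then 1 else 0) ≤ 2 := by
  split_ifs <;> omega

theorem a1_step (J M j k : ℕ) (hk : k = j + 1) (hj : j < J) :
    (J - k) * M + M = (J - j) * M := by
  subst hk
  obtain ⟨c, rfl⟩ : ∃ c, J = j + 1 + c := ⟨J - (j + 1), by omega⟩
  have h1 : j + 1 + c - (j + 1) = c := by omega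
  have h2 : j + 1 + c - j = c + 1 := by omega
  rw [h1, h2]
  ring

theorem tTArith1 : TArith1 := by
  intro L J i z hL hJ hi hz
  apply a1_two
  by_cases hline : z = 4 ∧ i + 2 ≤ L
  · -- the bottom line
    obtain ⟨rfl, h⟩ := hline
    have hv := a1_line L J i hi h
    have hl : J * (L - 4) + L - 1 - i + 1 ≤ t2 L J (i - 1) 4 := by
      rcases Nat.lt_or_ge i 2 with h2 | h2
      · have : i = 1 := by omega
        subst this
        unfold t2
        rw [if_neg (by omega), if_pos (by omega), if_pos (by omega)]
        unfold big
        omega
      · rw [a1_line L J (i - 1) (by omega) (by omega)]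
        omega
    by_cases h' : i + 3 ≤ L
    · have hr := a1_line L J (i + 1) (by omega) (by omega)
      omega
    · have hu : t2 L J i 5 = (J - (5 - 5) / 2) * (L - 4) :=
        a1_c1 L J i 5 hL (by omega) le_rfl rfl (by omega)
      have h0 : (5 - 5) / 2 = 0 := rfl
      rw [h0, Nat.sub_zero] at hu
      have h5 : 4 + 1 = 5 := rfl
      rw [h5]
      omega
  · by_cases hzero : i < 4 ∧ (z = 3 ∨ z = 5)
    · have hv : t2 L J i z = 0 := by
        unfold t2
        rw [if_neg (by omega), if_neg (by omega), if_neg hline, if_pos hzero]
      omega
    · by_cases hbox : 3 ≤ i ∧ i < L ∧ 3 ≤ z ∧ z ≤ 2 * J + 5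
      · obtain ⟨b1, b2, b3, b4⟩ := hbox
        by_cases he : z % 2 = 0 ∧ 4 ≤ i ∧ i + 2 ≤ L
        · obtain ⟨e1, e2, e3⟩ := he
          have hz6 : 6 ≤ z := by omega
          have hv := a1_even L J i z e2 e3 (by omega) e1 b4
          by_cases hi4 : i = 4
          · -- left end
            subst hi4
            have hr := a1_even L J (4 + 1) z (by omega) (by omega) (by omega) e1 b4
            rcases (by omega : z % 4 = 0 ∨ z % 4 = 2) with hm | hm
            · rw [if_pos hm] at hv hr
              have hd := a1_c3 L J (z - 1) hL (by omega) (by omega) (by omega)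
              have hst := a1_step J (L - 4) ((z - 1 - 5) / 2) ((z - 4) / 2) (by omega) (by omega)
              omega
            · rw [if_neg (by omega)] at hv hr
              rcases Nat.lt_or_ge (2 * J + 3) (z + 1) with hb | hb
              · have h0 : J - (z - 4) / 2 = 0 := by omega
                rw [h0, Nat.zero_mul] at hv
                omega
              · have hu := a1_c3 L J (z + 1) hL (by omega) (by omega) hb
                have h0 : (z + 1 - 5) / 2 = (z - 4) / 2 := by omega
                rw [h0] at hu
                omega
          · by_cases hiL : i + 2 = L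
            · have hl := a1_even L J (i - 1) z (by omega) (by omega) (by omega) e1 b4
              rcases (by omega : z % 4 = 0 ∨ z % 4 = 2) with hm | hm
              · rw [if_pos hm] at hv hl
                rcases Nat.lt_or_ge (2 * J + 3) (z + 1) with hb | hb
                · have h0 : J - (z - 4) / 2 = 0 := by omega
                  rw [h0, Nat.zero_mul] at hv
                  omega
                · have hu := a1_c1 L J i (z + 1) hL hiL (by omega) (by omega) hb
                  have h0 : (z + 1 - 5) / 2 = (z - 4) / 2 := by omega
                  rw [h0] at hu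
                  omega
              · rw [if_neg (by omega)] at hv hl
                have hd := a1_c1 L J i (z - 1) hL hiL (by omega) (by omega) (by omega)
                have hst := a1_step J (L - 4) ((z - 1 - 5) / 2) ((z - 4) / 2) (by omega)
                  (by omega)
                omega
            · have hl := a1_even L J (i - 1) z (by omega) (by omega) (by omega) e1 b4
              have hr := a1_even L J (i + 1) z (by omega) (by omega) (by omega) e1 b4
              rcases (by omega : z % 4 = 0 ∨ z % 4 = 2) with hm | hm
              · rw [if_pos hm] at hv hl hr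
                omega
              · rw [if_neg (by omega)] at hv hl hr
                omega
        · by_cases hc1 : z % 4 = 1 ∧ 5 ≤ z ∧ z ≤ 2 * J + 3 ∧ i + 2 = L
          · obtain ⟨c1, c2, c3, c4⟩ := hc1
            have hv := a1_c1 L J i z hL c4 c2 c1 c3
            have hd := a1_even L J i (z - 1) (by omega) (by omega) (by omega) (by omega) (by omega)
            have hu := a1_even L J i (z + 1) (by omega) (by omega) (by omega) (by omega) (by omega)
            rw [if_pos (by omega)] at hd
            rw [if_neg (by omega)] at hu
            have h0 : (z - 1 - 4) / 2 = (z - 5) / 2 := by omega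
            rw [h0] at hd
            have hst := a1_step J (L - 4) ((z - 5) / 2) ((z + 1 - 4) / 2) (by omega) (by omega)
            omega
          · by_cases hc3 : z % 4 = 3 ∧ 7 ≤ z ∧ z ≤ 2 * J + 3 ∧ i = 4
            · obtain ⟨c1, c2, c3, c4⟩ := hc3
              subst c4
              have hv := a1_c3 L J z hL c2 c1 c3
              have hd := a1_even L J 4 (z - 1) (by omega) (by omega) (by omega) (by omega)
                (by omega)
              have hu := a1_even L J 4 (z + 1) (by omega) (by omega) (by omega) (by omega)
                (by omega)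
              rw [if_neg (by omega)] at hd
              rw [if_pos (by omega)] at hu
              have h0 : (z - 1 - 4) / 2 = (z - 5) / 2 := by omega
              rw [h0] at hd
              have hst := a1_step J (L - 4) ((z - 5) / 2) ((z + 1 - 4) / 2) (by omega) (by omega)
              omega
            · have hv : t2 L J i z = 0 := by
                unfold t2
                rw [if_neg (by omega), if_neg (by omega), if_neg hline, if_neg hzero,
                  if_pos ⟨b1, b2, b3, b4⟩, if_neg he, if_neg hc1, if_neg hc3]
              omega
      · -- the outside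
        have hv := a1_big L J i z (by omega) (by omega) hline hzero hbox
        rcases (by omega : z = 1 ∨ z = 2 ∨ 3 ≤ z) with h1 | h2 | h3
        · subst h1
          have hr := a1_big L J (i + 1) 1 (by omega) (by omega) (by omega) (by omega) (by omega)
          have hu := a1_big L J i (1 + 1) (by omega) (by omega) (by omega) (by omega) (by omega)
          omega
        · subst h2
          have hr := a1_big L J (i + 1) 2 (by omega) (by omega) (by omega) (by omega) (by omega)
          have hd := a1_big L J i (2 - 1) (by omega) (by omega) (by omega) (by omega) (by omega)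
          omega
        · rcases (by omega : i = 1 ∨ i = 2 ∨ 3 ≤ i) with g1 | g2 | g3
          · subst g1
            have hr := a1_big L J (1 + 1) z (by omega) (by omega) (by omega) (by omega) (by omega)
            have hu := a1_big L J 1 (z + 1) (by omega) (by omega) (by omega) (by omega) (by omega)
            omega
          · subst g2
            have hl := a1_big L J (2 - 1) z (by omega) (by omega) (by omega) (by omega) (by omega)
            have hu := a1_big L J 2 (z + 1) (by omega) (by omega) (by omega) (by omega) (by omega)
            omega
          · rcases Nat.lt_or_ge (2 * J + 5) z with k1 | k1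
            · have hl := a1_big L J (i - 1) z (by omega) (by omega) (by omega) (by omega)
                (by omega)
              have hr := a1_big L J (i + 1) z (by omega) (by omega) (by omega) (by omega)
                (by omega)
              omega
            · have hr := a1_big L J (i + 1) z (by omega) (by omega) (by omega) (by omega)
                (by omega)
              have hu := a1_big L J i (z + 1) (by omega) (by omega) (by omega) (by omega)
                (by omega)
              omega

end Pool.Agent.H132R3.BP
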