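import Pool.Agent.H132F.Stmts

/-!
# BOTTOM: once `(φ 1, 4)` is infected, the bottom plane `lam = 0` gets infected
-/

set_option autoImplicit false

namespace Pool.Agent.H132R3.BP

open SimpleGraph

theorem closed3_step {W : Type} [Finite W] (G : SimpleGraph W) (C : Set W) (hC : Closed3 G C)
    (v a b c : W) (hab : a ≠ b) (hac : a ≠ c) (hbc : b ≠ c)
    (h1 : G.Adj v a) (h2 : G.Adj v b) (h3 : G.Adj v c)
    (ha : a ∈ C) (hb : b ∈ C) (hc : c ∈ C) : v ∈ C := by
  apply hC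
  have hsub : ({a, b, c} : Set W) ⊆ G.neighborSet v ∩ C := by
    intro x hx
    simp only [Set.mem_insert_iff, Set.mem_singleton_iff] at hx
    rcases hx with rfl | rfl | rfl
    · exact ⟨h1, ha⟩
    · exact ⟨h2, hb⟩
    · exact ⟨h3, hc⟩
  have hcard : ({a, b, c} : Set W).ncard = 3 := by
    rw [Set.ncard_eq_three]
    exact ⟨a, b, c, hab, hac, hbc, rfl⟩
  calc 3 = ({a, b, c} : Set W).ncard := hcard.symm
    _ ≤ _ := Set.ncard_le_ncard hsub (Set.toFinite _)

theorem tTBottom : TBottom := by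
  intro V _ Y n L J lam kap q φ τ S C hC h0 h14
  have hn := S.hn
  have hL := S.hL
  have G := S.graded
  -- the free points
  have hfree : ∀ (k z : ℕ) (hk : k < n) (hz : z < n), (z = 0 ∨ k = 0 ∨ ¬ U0 k z) →
      (q k, (⟨z, hz⟩ : Fin n)) ∈ C := by
    intro k z hk hz h
    apply h0
    have hkap := G.q_kap k hk
    have hlam := G.q_lam k hk
    by_cases hz0 : z = 0
    · exact S.tau.zero _ _ (Or.inl hz0)
    · by_cases hk0 : k = 0
      · exact S.tau.zero _ _ (Or.inr (by rw [hkap]; exact hk0))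
      · have hU : ¬ U0 k z := by
          rcases h with h | h | h
          · exact absurd h hz0
          · exact absurd h hk0
          · exact h
        have := S.tau.bottom (q k) ⟨z, hz⟩ hz0 (by rw [hkap]; exact hk0) hlam
        rw [this, if_neg]
        rw [hkap]
        exact hU
  -- adjacency
  have adjv : ∀ (y : V) (z z' : ℕ) (hz : z < n) (hz' : z' < n), (z + 1 = z' ∨ z' + 1 = z) →
      (Y □ pathGraph n).Adj (y, (⟨z, hz⟩ : Fin n)) (y, (⟨z', hz'⟩ : Fin n)) := by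
    intro y z z' hz hz' h
    rw [boxProd_adj]
    right
    refine ⟨?_, rfl⟩
    rw [pathGraph_adj]
    exact h
  have adjh : ∀ (y y' : V) (z : Fin n), Y.Adj y y' →
      (Y □ pathGraph n).Adj (y, z) (y', z) := by
    intro y y' z h
    rw [boxProd_adj]
    exact Or.inl ⟨h, rfl⟩
  have qadj : ∀ (k : ℕ) (z : Fin n), k + 1 < n →
      (Y □ pathGraph n).Adj (q k, z) (q (k + 1), z) := fun k z hk => adjh _ _ _ (G.q_adj k hk)
  have nez : ∀ (y y' : V) (z z' : ℕ) (hz : z < n) (hz' : z' < n), z ≠ z' →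
      ((y, (⟨z, hz⟩ : Fin n)) : V × Fin n) ≠ (y', (⟨z', hz'⟩ : Fin n)) := by
    intro y y' z z' hz hz' h he
    have := congrArg (fun p : V × Fin n => (p.2 : ℕ)) he
    exact h this
  have nek : ∀ (k k' : ℕ) (z z' : Fin n), k < n → k' < n → k ≠ k' →
      ((q k, z) : V × Fin n) ≠ (q k', z') := by
    intro k k' z z' hk hk' h he
    have h1 := congrArg (fun p : V × Fin n => kap p.1) he
    simp only [G.q_kap k hk, G.q_kap k' hk'] at h1
    exact h h1
  have z4 : 4 < n := by omega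
  have z3 : 3 < n := by omega
  have z5 : 5 < n := by omega
  have z2 : 2 < n := by omega
  have z1 : 1 < n := by omega
  have z0 : 0 < n := by omega
  -- the point `(φ 0, 4) = (q 5, 4)`
  have l0 : 0 < L := by omega
  have l1 : 1 < L := by omega
  have hφ0 : φ ⟨0, l0⟩ = q 5 := by
    have h := S.lead ⟨0, l0⟩ (by simp)
    have h2 := G.q_uniq (φ ⟨0, l0⟩) h.1
    rw [h2, h.2]
  have h5 : (q 5, (⟨4, z4⟩ : Fin n)) ∈ C := by
    have had : Y.Adj (φ ⟨0, l0⟩) (φ ⟨1, l1⟩) := by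
      rw [S.thin.adj, pathGraph_adj]
      left
      rfl
    rw [hφ0] at had
    refine closed3_step _ C hC _ (q 5, (⟨3, z3⟩ : Fin n)) (q 5, (⟨5, z5⟩ : Fin n))
      (φ ⟨1, l1⟩, (⟨4, z4⟩ : Fin n)) (nez _ _ _ _ _ _ (by omega)) (nez _ _ _ _ _ _ (by omega))
      (nez _ _ _ _ _ _ (by omega)) (adjv _ _ _ _ _ (by omega)) (adjv _ _ _ _ _ (by omega))
      (adjh _ _ _ had) (hfree _ _ z5 _ ?_) (hfree _ _ z5 _ ?_) (h14 _ _ rfl rfl)
    · right; right; unfold U0; omega
    · right; right; unfold U0; omega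
  -- up
  have hup : ∀ j : ℕ, 5 + j < n → (q (5 + j), (⟨4, z4⟩ : Fin n)) ∈ C := by
    intro j
    induction j with
    | zero => intro _; exact h5
    | succ j ih =>
      intro hj
      have ih' := ih (by omega)
      refine closed3_step _ C hC _ (q (5 + (j + 1)), (⟨3, z3⟩ : Fin n))
        (q (5 + (j + 1)), (⟨5, z5⟩ : Fin n))
        (q (5 + j), (⟨4, z4⟩ : Fin n)) (nez _ _ _ _ _ _ (by omega)) (nez _ _ _ _ _ _ (by omega))
        (nez _ _ _ _ _ _ (by omega)) (adjv _ _ _ _ _ (by omega)) (adjv _ _ _ _ _ (by omega))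
        (qadj (5 + j) _ (by omega)).symm (hfree _ _ hj _ ?_) (hfree _ _ hj _ ?_) ih'
      · right; right; unfold U0; omega
      · right; right; unfold U0; omega
  -- down
  have hdown : ∀ j : ℕ, j ≤ 3 → (q (5 - j), (⟨4, z4⟩ : Fin n)) ∈ C := by
    intro j
    induction j with
    | zero => intro _; exact h5
    | succ j ih =>
      intro hj
      have ih' := ih (by omega)
      have he : 5 - j = (5 - (j + 1)) + 1 := by omega
      rw [he] at ih'
      refine closed3_step _ C hC _ (q (5 - (j + 1)), (⟨3, z3⟩ : Fin n))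
        (q (5 - (j + 1)), (⟨5, z5⟩ : Fin n))
        (q ((5 - (j + 1)) + 1), (⟨4, z4⟩ : Fin n)) (nez _ _ _ _ _ _ (by omega))
        (nez _ _ _ _ _ _ (by omega))
        (nez _ _ _ _ _ _ (by omega)) (adjv _ _ _ _ _ (by omega)) (adjv _ _ _ _ _ (by omega))
        (qadj (5 - (j + 1)) _ (by omega)) (hfree _ _ (by omega) _ ?_)
        (hfree _ _ (by omega) _ ?_) ih'
      · right; right; unfold U0; omega
      · right; right; unfold U0; omega
  have h24 : (q 2, (⟨4, z4⟩ : Fin n)) ∈ C := hdown 3 le_rfl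
  have h1q4 : (q 1, (⟨4, z4⟩ : Fin n)) ∈ C := by
    refine closed3_step _ C hC _ (q 0, (⟨4, z4⟩ : Fin n)) (q 2, (⟨4, z4⟩ : Fin n))
      (q 1, (⟨5, z5⟩ : Fin n)) (nek _ _ _ _ z0 z2 (by omega)) (nek _ _ _ _ z0 z1 (by omega))
      (nek _ _ _ _ z2 z1 (by omega)) (qadj 0 _ z1).symm (qadj 1 _ z2) (adjv _ _ _ _ _ (by omega))
      (hfree _ _ z0 _ (by omega)) h24 (hfree _ _ z1 _ ?_)
    right; right; unfold U0; omega
  have hcol : ∀ (z : ℕ) (hz : z < n) (hz' : z + 1 < n), (z = 3 ∨ z = 2) →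
      (q 1, (⟨z + 1, hz'⟩ : Fin n)) ∈ C → (q 1, (⟨z, hz⟩ : Fin n)) ∈ C := by
    intro z hz hz' h hprev
    refine closed3_step _ C hC _ (q 0, (⟨z, hz⟩ : Fin n)) (q 2, (⟨z, hz⟩ : Fin n))
      (q 1, (⟨z + 1, hz'⟩ : Fin n)) (nek _ _ _ _ z0 z2 (by omega))
      (nek _ _ _ _ z0 z1 (by omega))
      (nek _ _ _ _ z2 z1 (by omega)) (qadj 0 _ z1).symm (qadj 1 _ z2) (adjv _ _ _ _ _ (by omega))
      (hfree _ _ z0 _ (by omega)) (hfree _ _ z2 _ ?_) hprev
    right; right; unfold U0; omega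
  have h13 : (q 1, (⟨3, z3⟩ : Fin n)) ∈ C := hcol 3 z3 z4 (Or.inl rfl) h1q4
  have h12 : (q 1, (⟨2, z2⟩ : Fin n)) ∈ C := hcol 2 z2 z3 (Or.inr rfl) h13
  have h11 : (q 1, (⟨1, z1⟩ : Fin n)) ∈ C := by
    refine closed3_step _ C hC _ (q 0, (⟨1, z1⟩ : Fin n)) (q 1, (⟨0, z0⟩ : Fin n))
      (q 1, (⟨2, z2⟩ : Fin n)) (nek _ _ _ _ z0 z1 (by omega)) (nek _ _ _ _ z0 z1 (by omega))
      (nez _ _ _ _ _ _ (by omega)) (qadj 0 _ z1).symm (adjv _ _ _ _ _ (by omega))
      (adjv _ _ _ _ _ (by omega))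
      (hfree _ _ z0 _ (by omega)) (hfree _ _ z1 _ (by omega)) h12
  have hrow : ∀ j : ℕ, 1 + j < n → (q (1 + j), (⟨1, z1⟩ : Fin n)) ∈ C := by
    intro j
    induction j with
    | zero => intro _; exact h11
    | succ j ih =>
      intro hj
      have ih' := ih (by omega)
      refine closed3_step _ C hC _ (q (1 + (j + 1)), (⟨0, z0⟩ : Fin n))
        (q (1 + (j + 1)), (⟨2, z2⟩ : Fin n))
        (q (1 + j), (⟨1, z1⟩ : Fin n)) (nez _ _ _ _ _ _ (by omega)) (nez _ _ _ _ _ _ (by omega))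
        (nez _ _ _ _ _ _ (by omega)) (adjv _ _ _ _ _ (by omega)) (adjv _ _ _ _ _ (by omega))
        (qadj (1 + j) _ (by omega)).symm (hfree _ _ hj _ (by omega)) (hfree _ _ hj _ ?_) ih'
      right; right; unfold U0; omega
  -- conclusion
  intro y z hy
  have hyq := G.q_uniq y hy
  have hk := G.kap_lt y
  obtain ⟨z, hz⟩ := z
  rw [hyq]
  generalize kap y = k at hk
  by_cases hU : U0 k z
  · unfold U0 at hU
    rcases hU with ⟨hz4, hk1⟩ | ⟨hk1, hz1, hz4⟩ | ⟨hz1, hk1⟩
    · subst hz4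
      by_cases hk5 : 5 ≤ k
      · have h := hup (k - 5) (by omega)
        have he : 5 + (k - 5) = k := by omega
        rw [he] at h
        exact h
      · by_cases hk2 : 2 ≤ k
        · have h := hdown (5 - k) (by omega)
          have he : 5 - (5 - k) = k := by omega
          rw [he] at h
          exact h
        · have he : k = 1 := by omega
          subst he
          exact h1q4
    · subst hk1
      have : z = 1 ∨ z = 2 ∨ z = 3 ∨ z = 4 := by omega
      rcases this with rfl | rfl | rfl | rfl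
      · exact h11
      · exact h12
      · exact h13
      · exact h1q4
    · subst hz1
      have h := hrow (k - 1) (by omega)
      have he : 1 + (k - 1) = k := by omega
      rw [he] at h
      exact h
  · exact hfree k z hk hz (Or.inr (Or.inr hU))

end Pool.Agent.H132R3.BP
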