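import Mathlib

/-!
# Slow bootstrap percolation on grids (project H132-BP, problem MP_fc3ed9_co)

Definitions and the statements of the tasks.
-/

set_option autoImplicit false

namespace Pool.Agent.H132R3.BP

open SimpleGraph

/-- the set infected at time `t` in `r`-neighbour bootstrap percolation on `G` started from `A` -/
def inf {V : Type} (G : SimpleGraph V) (r : ℕ) (A : Set V) : ℕ → Set V
  | 0 => A
  | t + 1 => inf G r A t ∪ {v | r ≤ (G.neighborSet v ∩ inf G r A t).ncard}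

/-- some percolating set needs at least `T` steps -/
def Slow {V : Type} (G : SimpleGraph V) (r T : ℕ) : Prop :=
  ∃ A : Set V, (∃ t, inf G r A t = Set.univ) ∧ ∀ t, t < T → inf G r A t ≠ Set.univ

/-- the grid `[n]^d` -/
def Grid (d n : ℕ) : SimpleGraph (Fin d → Fin n) where
  Adj x y := ∃ i, (((x i : ℕ) + 1 = y i ∨ (y i : ℕ) + 1 = x i) ∧ ∀ j, j ≠ i → x j = y j)
  symm := ⟨by
    rintro x y ⟨i, h, hj⟩
    exact ⟨i, h.symm, fun j hne => (hj j hne).symm⟩⟩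
  loopless := ⟨by
    rintro x ⟨i, h, -⟩
    omega⟩

/-- `p` traces an induced path of `Q`, every vertex of which has exactly two neighbours off it -/
structure DensePath {W : Type} (Q : SimpleGraph W) (L : ℕ) (p : Fin L → W) : Prop where
  inj : Function.Injective p
  adj : ∀ i j, Q.Adj (p i) (p j) ↔ (pathGraph L).Adj i j
  walls : ∀ i, (Q.neighborSet (p i) \ Set.range p).ncard = 2

/-- induced embedding such that outside vertices have at most two neighbours in the image -/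
structure Thin {V W : Type} (G : SimpleGraph V) (H : SimpleGraph W) (φ : V → W) : Prop where
  inj : Function.Injective φ
  adj : ∀ u v, H.Adj (φ u) (φ v) ↔ G.Adj u v
  out : ∀ w, w ∉ Set.range φ → (H.neighborSet w ∩ Set.range φ).ncard ≤ 2

/-- a graph with a grading `lam` (zero exactly on the vertical path `q 0, ..., q (n-1)`) and a
height `kap < n` -/
structure Graded {V : Type} (Y : SimpleGraph V) (n : ℕ) (lam kap : V → ℕ) (q : ℕ → V) : Prop where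
  kap_lt : ∀ y, kap y < n
  step : ∀ y y', Y.Adj y y' →
    (kap y = kap y' ∧ (lam y + 1 = lam y' ∨ lam y' + 1 = lam y)) ∨
      (lam y = lam y' ∧ (kap y + 1 = kap y' ∨ kap y' + 1 = kap y))
  q_lam : ∀ k, k < n → lam (q k) = 0
  q_kap : ∀ k, k < n → kap (q k) = k
  q_uniq : ∀ y, lam y = 0 → y = q (kap y)
  q_adj : ∀ k, k + 1 < n → Y.Adj (q k) (q (k + 1))
  down : ∀ y, 0 < lam y → ∃ y', Y.Adj y y' ∧ kap y' = kap y ∧ lam y' + 1 = lam y
  kdown : ∀ y, 0 < kap y → ∃ y', Y.Adj y y' ∧ lam y' = lam y ∧ kap y' + 1 = kap y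
  kdown_uniq : ∀ y y' y'', Y.Adj y y' → Y.Adj y y'' → kap y' + 1 = kap y → kap y'' + 1 = kap y →
    y' = y''

/-- the value used for vertices infected after the delay line -/
def big (L J : ℕ) : ℕ := J * (L - 4) + L - 1

/-- infection times along the snake in the `(i, z)`-plane: `0` on the walls, increasing along the
snake, `big L J` outside -/
def t2 (L J i z : ℕ) : ℕ :=
  if z = 0 then 0
  else if i = 0 then (if z = 1 ∨ z = 4 then big L J else 0)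
  else if z = 4 ∧ i + 2 ≤ L then J * (L - 4) + L - 1 - i
  else if i < 4 ∧ (z = 3 ∨ z = 5) then 0
  else if 3 ≤ i ∧ i < L ∧ 3 ≤ z ∧ z ≤ 2 * J + 5 then
    (if z % 2 = 0 ∧ 4 ≤ i ∧ i + 2 ≤ L then
      (J - (z - 4) / 2) * (L - 4) + 1 + (if z % 4 = 0 then L - 2 - i else i - 4)
    else if z % 4 = 1 ∧ 5 ≤ z ∧ z ≤ 2 * J + 3 ∧ i + 2 = L then (J - (z - 5) / 2) * (L - 4)
    else if z % 4 = 3 ∧ 7 ≤ z ∧ z ≤ 2 * J + 3 ∧ i = 4 then (J - (z - 5) / 2) * (L - 4)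
    else 0)
  else big L J

/-- the uninfected path in the bottom plane -/
def U0 (k z : ℕ) : Prop := (z = 4 ∧ 1 ≤ k) ∨ (k = 1 ∧ 1 ≤ z ∧ z ≤ 4) ∨ (z = 1 ∧ 1 ≤ k)

open Classical in
/-- the time function on `Y □ pathGraph n` -/
structure TauSpec {V : Type} {n : ℕ} (L J : ℕ) (lam kap : V → ℕ) (φ : Fin L → V)
    (τ : V × Fin n → ℕ) : Prop where
  zero : ∀ (y : V) (z : Fin n), ((z : ℕ) = 0 ∨ kap y = 0) → τ (y, z) = 0
  bottom : ∀ (y : V) (z : Fin n), (z : ℕ) ≠ 0 → kap y ≠ 0 → lam y = 0 →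
    τ (y, z) = if U0 (kap y) z then big L J else 0
  line : ∀ (i : Fin L) (z : Fin n), (z : ℕ) ≠ 0 → 1 ≤ (i : ℕ) → τ (φ i, z) = t2 L J i z
  outer : ∀ (y : V) (z : Fin n), (z : ℕ) ≠ 0 → kap y ≠ 0 → lam y ≠ 0 → y ∉ Set.range φ → τ (y, z) = big L J

/-- the standing assumptions of the construction for `r = 3` -/
structure Setup {V : Type} (Y : SimpleGraph V) (n L J : ℕ) (lam kap : V → ℕ) (q : ℕ → V)
    (φ : Fin L → V) (τ : V × Fin n → ℕ) : Prop where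
  hn : 30 ≤ n
  hL : 30 ≤ L
  hJ : 2 * J + 6 ≤ n
  hJ1 : 1 ≤ J
  graded : Graded Y n lam kap q
  thin : Thin (pathGraph L) Y φ
  lead : ∀ i : Fin L, (i : ℕ) ≤ 3 → lam (φ i) = i ∧ kap (φ i) = 5
  far : ∀ i : Fin L, 3 ≤ (i : ℕ) → 3 ≤ lam (φ i)
  high : ∀ i : Fin L, 5 ≤ kap (φ i)
  tau : TauSpec L J lam kap φ τ

/-! ## Tasks -/

/-- FOLD -/
def TFold : Prop := ∀ (W V : Type) [Finite W] [Finite V] (Q : SimpleGraph W) (K : SimpleGraph V)
  (L : ℕ) (p : Fin L → W) (r T : ℕ), DensePath Q L p → Slow (pathGraph L □ K) r T →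
    Slow (Q □ K) (r + 2) T

/-- DENSE -/
def TDense : Prop := ∀ a b : ℕ, 20 ≤ a → 20 ≤ b → ∃ (L : ℕ) (p : Fin L → Fin a × Fin b),
  a * b ≤ 8 * L ∧ DensePath (pathGraph a □ pathGraph b) L p

/-- THIN2 -/
def TThin2 : Prop := ∀ a b : ℕ, 20 ≤ a → 20 ≤ b → ∃ (L : ℕ) (p : Fin L → Fin a × Fin b),
  a * b ≤ 16 * L ∧ Thin (pathGraph L) (pathGraph a □ pathGraph b) p ∧
  (∀ i : Fin L, (i : ℕ) ≤ 4 → ((p i).1 : ℕ) = i ∧ ((p i).2 : ℕ) = 0) ∧
  (∀ i : Fin L, 4 ≤ (i : ℕ) → 4 ≤ ((p i).1 : ℕ))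

/-- LEAD (to be proved from THIN2) -/
def TLead : Prop := ∀ m : ℕ, ∃ C : ℕ, 0 < C ∧ ∀ M n : ℕ, 30 ≤ M → 30 ≤ n →
  ∃ (L : ℕ) (φ : Fin L → (Fin M × Fin n) × (Fin m → Fin n)), 30 ≤ L ∧ M * n ^ (m + 1) ≤ C * L ∧
    Thin (pathGraph L) ((pathGraph M □ pathGraph n) □ Grid m n) φ ∧
    (∀ i : Fin L, (i : ℕ) ≤ 4 → ((φ i).1.1 : ℕ) = i ∧ ((φ i).1.2 : ℕ) = 5 ∧
      ∀ j, ((φ i).2 j : ℕ) = 0) ∧
    (∀ i : Fin L, 4 ≤ (i : ℕ) → 4 ≤ ((φ i).1.1 : ℕ)) ∧ (∀ i : Fin L, 5 ≤ ((φ i).1.2 : ℕ))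

/-- GRADED -/
def TGraded : Prop := ∀ m M n : ℕ, 1 ≤ M → 1 ≤ n → ∃ q : ℕ → (Fin M × Fin n) × (Fin m → Fin n),
  Graded ((pathGraph M □ pathGraph n) □ Grid m n) n
    (fun y => (y.1.1 : ℕ) + ∑ j, (y.2 j : ℕ)) (fun y => (y.1.2 : ℕ)) q

/-- ARITH1: among the four neighbours at most two are much earlier -/
def TArith1 : Prop := ∀ L J i z : ℕ, 30 ≤ L → 1 ≤ J → 1 ≤ i → 1 ≤ z →
  (if t2 L J (i - 1) z + 2 ≤ t2 L J i z then 1 else 0) +
  (if t2 L J (i + 1) z + 2 ≤ t2 L J i z then 1 else 0) +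
  (if t2 L J i (z - 1) + 2 ≤ t2 L J i z then 1 else 0) +
  (if t2 L J i (z + 1) + 2 ≤ t2 L J i z then 1 else 0) ≤ 2

/-- ARITH2: a vertex of the snake has at least three earlier neighbours; nothing is small outside
the box -/
def TArith2 : Prop := ∀ L J i z : ℕ, 30 ≤ L → 1 ≤ J → 1 ≤ i → 1 ≤ z → t2 L J i z < big L J →
  i < L ∧ z ≤ 2 * J + 5 ∧ (1 ≤ t2 L J i z → 3 ≤
  (if t2 L J (i - 1) z < t2 L J i z then 1 else 0) +
  (if t2 L J (i + 1) z < t2 L J i z then 1 else 0) +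
  (if t2 L J i (z - 1) < t2 L J i z then 1 else 0) +
  (if t2 L J i (z + 1) < t2 L J i z then 1 else 0))

/-- COUNT1 (to be proved from ARITH1): the count condition at the vertices `(φ i, z)`, `1 ≤ i` -/
def TCount1 : Prop := ∀ (V : Type) [Finite V] (Y : SimpleGraph V) (n L J : ℕ) (lam kap : V → ℕ)
  (q : ℕ → V) (φ : Fin L → V) (τ : V × Fin n → ℕ), Setup Y n L J lam kap q φ τ →
  ∀ (i : Fin L) (z : Fin n), 1 ≤ (i : ℕ) →
    ((Y □ pathGraph n).neighborSet (φ i, z) ∩ {u | τ u + 2 ≤ τ (φ i, z)}).ncard ≤ 2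

/-- COUNT2: the count condition at the vertices `(y, z)` with `lam y = 0` -/
def TCount2 : Prop := ∀ (V : Type) [Finite V] (Y : SimpleGraph V) (n L J : ℕ) (lam kap : V → ℕ)
  (q : ℕ → V) (φ : Fin L → V) (τ : V × Fin n → ℕ), Setup Y n L J lam kap q φ τ →
  ∀ (y : V) (z : Fin n), lam y = 0 →
    ((Y □ pathGraph n).neighborSet (y, z) ∩ {u | τ u + 2 ≤ τ (y, z)}).ncard ≤ 2

/-- COUNT3: the count condition at the vertices `(y, z)`, `y` not on the line, `lam y ≠ 0` -/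
def TCount3 : Prop := ∀ (V : Type) [Finite V] (Y : SimpleGraph V) (n L J : ℕ) (lam kap : V → ℕ)
  (q : ℕ → V) (φ : Fin L → V) (τ : V × Fin n → ℕ), Setup Y n L J lam kap q φ τ →
  ∀ (y : V) (z : Fin n), lam y ≠ 0 → y ∉ Set.range φ →
    ((Y □ pathGraph n).neighborSet (y, z) ∩ {u | τ u + 2 ≤ τ (y, z)}).ncard ≤ 2

/-- a set closed under the 3-neighbour rule -/
def Closed3 {W : Type} (G : SimpleGraph W) (C : Set W) : Prop :=
  ∀ v, 3 ≤ (G.neighborSet v ∩ C).ncard → v ∈ C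

/-- PATHC (to be proved from ARITH2): the snake gets infected -/
def TPathC : Prop := ∀ (V : Type) [Finite V] (Y : SimpleGraph V) (n L J : ℕ) (lam kap : V → ℕ)
  (q : ℕ → V) (φ : Fin L → V) (τ : V × Fin n → ℕ), Setup Y n L J lam kap q φ τ →
  ∀ C : Set (V × Fin n), Closed3 (Y □ pathGraph n) C → (∀ v, τ v = 0 → v ∈ C) →
    ∀ (i : Fin L) (z : Fin n), 1 ≤ (i : ℕ) → t2 L J i z < big L J → (φ i, z) ∈ C

/-- BOTTOM: once `(φ 1, 4)` is infected, the bottom plane `lam = 0` gets infected -/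
def TBottom : Prop := ∀ (V : Type) [Finite V] (Y : SimpleGraph V) (n L J : ℕ) (lam kap : V → ℕ)
  (q : ℕ → V) (φ : Fin L → V) (τ : V × Fin n → ℕ), Setup Y n L J lam kap q φ τ →
  ∀ C : Set (V × Fin n), Closed3 (Y □ pathGraph n) C → (∀ v, τ v = 0 → v ∈ C) →
    (∀ (i : Fin L) (z : Fin n), (i : ℕ) = 1 → (z : ℕ) = 4 → (φ i, z) ∈ C) →
    ∀ (y : V) (z : Fin n), lam y = 0 → (y, z) ∈ C

/-- GROW: once the bottom plane is infected, everything gets infected -/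
def TGrow : Prop := ∀ (V : Type) [Finite V] (Y : SimpleGraph V) (n L J : ℕ) (lam kap : V → ℕ)
  (q : ℕ → V) (φ : Fin L → V) (τ : V × Fin n → ℕ), Setup Y n L J lam kap q φ τ →
  ∀ C : Set (V × Fin n), Closed3 (Y □ pathGraph n) C → (∀ v, τ v = 0 → v ∈ C) →
    (∀ (y : V) (z : Fin n), lam y = 0 → (y, z) ∈ C) → C = Set.univ

/-- STRIP: two-neighbour percolation on a strip -/
def TStrip : Prop := ∀ L n : ℕ, 30 ≤ L → 30 ≤ n →
  ∃ T : ℕ, L * n ≤ 8 * T ∧ Slow (pathGraph L □ pathGraph n) 2 T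

/-- ISO -/
def TIso : Prop := ∀ m n : ℕ, Nonempty (Grid (m + 1) n ≃g (pathGraph n).boxProd (Grid m n))

/-- ISO2 -/
def TIso2 : Prop := ∀ (V V' W W' : Type) (G : SimpleGraph V) (G' : SimpleGraph V')
  (H : SimpleGraph W) (H' : SimpleGraph W'), Nonempty (G ≃g G') → Nonempty (H ≃g H') →
    Nonempty ((G.boxProd H) ≃g (G'.boxProd H'))

/-- ISO3 -/
def TIso3 : Prop := ∀ (V W : Type) (G : SimpleGraph V) (H : SimpleGraph W) (r T : ℕ),
  Nonempty (G ≃g H) → Slow G r T → Slow H r T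

end Pool.Agent.H132R3.BP
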