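import Pool.Agent.H132F.Stmts

set_option autoImplicit false

namespace Pool.Agent.H132R3.BP

open SimpleGraph

namespace C2

/-- first possible early neighbour -/
def P1 (k z : ℕ) : ℕ × ℕ := if k = 1 then (0, z) else if z = 4 then (k, 3) else (k, 0)

/-- second possible early neighbour -/
def P2 (k z : ℕ) : ℕ × ℕ :=
  if z = 4 then (k, 5) else if k = 1 then (if z = 1 then (1, 0) else (2, z)) else (k, 2)

theorem codes (k z k' z' : ℕ) (hU : U0 k z) (hk : 1 ≤ k) (hz : 1 ≤ z)
    (hadj : (z' = z ∧ (k' = k + 1 ∨ k' + 1 = k)) ∨ (k' = k ∧ (z' = z + 1 ∨ z' + 1 = z)))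
    (hn : z' = 0 ∨ k' = 0 ∨ ¬ U0 k' z') : (k', z') = P1 k z ∨ (k', z') = P2 k z := by
  unfold P1 P2
  unfold U0 at hU hn
  by_cases h1 : k = 1
  · subst h1
    by_cases h4 : z = 4
    · subst h4
      simp only [if_true, Prod.mk.injEq]
      omega
    · by_cases hz1 : z = 1
      · subst hz1
        simp only [if_true, Prod.mk.injEq, if_neg h4]
        omega
      · simp only [if_true, Prod.mk.injEq, if_neg h4, if_neg hz1]
        omega
  · by_cases h4 : z = 4
    · subst h4
      simp only [if_true, Prod.mk.injEq, if_neg h1]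
      omega
    · simp only [Prod.mk.injEq, if_neg h4, if_neg h1]
      omega

end C2

theorem tTCount2 : TCount2 := by
  classical
  intro V _ Y n L J lam kap q φ τ hS y z hy
  have hG := hS.graded
  have hT := hS.tau
  have hL := hS.hL
  -- values of τ above the bottom path
  by_cases h0 : (z : ℕ) = 0 ∨ kap y = 0
  · have : (Y □ pathGraph n).neighborSet (y, z) ∩ {u | τ u + 2 ≤ τ (y, z)} = ∅ := by
      ext u
      simp only [Set.mem_inter_iff, Set.mem_setOf_eq, Set.mem_empty_iff_false, iff_false, not_and]
      intro _ h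
      rw [hT.zero y z h0] at h
      omega
    rw [this]
    simp
  rw [not_or] at h0
  obtain ⟨hz0, hk0⟩ := h0
  have hval := hT.bottom y z hz0 hk0 hy
  by_cases hU : U0 (kap y) z
  swap
  · rw [if_neg hU] at hval
    have : (Y □ pathGraph n).neighborSet (y, z) ∩ {u | τ u + 2 ≤ τ (y, z)} = ∅ := by
      ext u
      simp only [Set.mem_inter_iff, Set.mem_setOf_eq, Set.mem_empty_iff_false, iff_false, not_and]
      intro _ h
      rw [hval] at h
      omega
    rw [this]
    simp
  rw [if_pos hU] at hval
  -- every counted neighbour lies in the bottom plane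
  have main : ∀ u ∈ (Y □ pathGraph n).neighborSet (y, z) ∩ {u | τ u + 2 ≤ τ (y, z)},
      lam u.1 = 0 ∧ ((kap u.1, (u.2 : ℕ)) = C2.P1 (kap y) z ∨
        (kap u.1, (u.2 : ℕ)) = C2.P2 (kap y) z) := by
    rintro ⟨y', z'⟩ ⟨hadj, hle⟩
    rw [mem_neighborSet, boxProd_adj] at hadj
    simp only [Set.mem_setOf_eq] at hle
    rw [hval] at hle
    -- the value in the bottom plane
    have hbot : lam y' = 0 → ((z' : ℕ) = 0 ∨ kap y' = 0 ∨ ¬ U0 (kap y') z') := by
      intro hl
      by_contra hc
      push Not at hc
      obtain ⟨c1, c2, c3⟩ := hc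
      have := hT.bottom y' z' c1 c2 hl
      rw [if_pos c3] at this
      rw [this] at hle
      omega
    rcases hadj with ⟨hYa, hzz⟩ | ⟨hPa, hyy⟩
    · simp only at hYa hzz
      subst hzz
      rcases hG.step y y' hYa with ⟨hk, hl⟩ | ⟨hl, hk⟩
      · exfalso
        have hl1 : lam y' = 1 := by omega
        by_cases hr : y' ∈ Set.range φ
        · obtain ⟨i, rfl⟩ := hr
          have hi3 : (i : ℕ) < 3 := by
            by_contra hc
            have := hS.far i (by omega)
            omega
          obtain ⟨e1, e2⟩ := hS.lead i (by omega)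
          have hi1 : (i : ℕ) = 1 := by omega
          have hv := hT.line i z hz0 (by omega)
          rw [hi1] at hv
          have hk5 : kap y = 5 := by omega
          rw [hk5] at hU
          have hzc : (z : ℕ) = 4 ∨ (z : ℕ) = 1 := by
            unfold U0 at hU
            omega
          rw [hv] at hle
          rcases hzc with hzc | hzc
          · rw [hzc] at hle
            have ht : t2 L J 1 4 = J * (L - 4) + L - 1 - 1 := by
              unfold t2
              rw [if_neg (by omega), if_neg (by omega), if_pos (by omega)]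
            rw [ht] at hle
            unfold big at hle
            omega
          · rw [hzc] at hle
            have ht : t2 L J 1 1 = big L J := by
              unfold t2
              rw [if_neg (by omega), if_neg (by omega), if_neg (by omega), if_neg (by omega),
                if_neg (by omega)]
            rw [ht] at hle
            omega
        · have hv := hT.outer y' z hz0 (by omega) (by omega) hr
          rw [hv] at hle
          omega
      · have hl0 : lam y' = 0 := by omega
        refine ⟨hl0, ?_⟩
        exact C2.codes (kap y) z (kap y') z hU (by omega) (by omega)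
          (Or.inl ⟨rfl, by omega⟩) (hbot hl0)
    · simp only at hPa hyy
      subst hyy
      refine ⟨hy, ?_⟩
      rw [pathGraph_adj] at hPa
      exact C2.codes (kap y) z (kap y) z' hU (by omega) (by omega)
        (Or.inr ⟨rfl, by omega⟩) (hbot hy)
  -- injectivity of the code
  have hinj : Set.InjOn (fun u : V × Fin n => (kap u.1, (u.2 : ℕ)))
      ((Y □ pathGraph n).neighborSet (y, z) ∩ {u | τ u + 2 ≤ τ (y, z)}) := by
    rintro ⟨a, b⟩ hu ⟨a', b'⟩ hu' he
    have h1 := (main _ hu).1
    have h2 := (main _ hu').1
    simp only [Prod.mk.injEq] at he h1 h2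
    rw [Prod.mk.injEq]
    refine ⟨?_, Fin.ext he.2⟩
    rw [hG.q_uniq a h1, hG.q_uniq a' h2, he.1]
  have hsub : (fun u : V × Fin n => (kap u.1, (u.2 : ℕ))) ''
      ((Y □ pathGraph n).neighborSet (y, z) ∩ {u | τ u + 2 ≤ τ (y, z)}) ⊆
      {C2.P1 (kap y) z, C2.P2 (kap y) z} := by
    rintro _ ⟨u, hu, rfl⟩
    rcases (main u hu).2 with h | h
    · left; exact h
    · right; exact h
  rw [← Set.ncard_image_of_injOn hinj]
  exact (Set.ncard_le_ncard hsub (Set.toFinite _)).trans
    ((Set.ncard_insert_le _ _).trans (by rw [Set.ncard_singleton]))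

end Pool.Agent.H132R3.BP
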