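import Mathlib

set_option autoImplicit false

namespace Pool.Agent.H132R3.BP

/-! Arithmetic of the snake. -/

namespace Dense591

/-- first coordinate -/
def xc (K m k s : ℕ) : ℕ :=
  if s = 0 then (if k = 0 ∨ k = K then 0 else if k % 2 = 0 then 1 else m - 1)
  else if k % 2 = 0 then s else m - s

/-- second coordinate -/
def yc (K k s : ℕ) : ℕ :=
  if s = 0 then (if k = 0 then 1 else if k = K then 2 * K - 1 else 2 * k) else 2 * k + 1

/-- adjacency in the plane grid -/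
def Adj2 (x y x' y' : ℕ) : Prop :=
  ((x + 1 = x' ∨ x' + 1 = x) ∧ y = y') ∨ ((y + 1 = y' ∨ y' + 1 = y) ∧ x = x')

/-- consecutive in the path -/
def Cons2 (m k s k' s' : ℕ) : Prop :=
  (k' = k ∧ s' = s + 1) ∨ (k' = k + 1 ∧ s + 1 = m ∧ s' = 0)

theorem adj_iff (K m k s k' s' : ℕ) (hm : 19 ≤ m) (hK : K % 2 = 0) (hK2 : 2 ≤ K)
    (hs : s < m) (hs' : s' < m) (hk : k < K ∨ (k = K ∧ s = 0)) (hk' : k' < K ∨ (k' = K ∧ s' = 0)) :
    Adj2 (xc K m k s) (yc K k s) (xc K m k' s') (yc K k' s') ↔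
      (Cons2 m k s k' s' ∨ Cons2 m k' s' k s) := by
  obtain ⟨X, hX⟩ : ∃ X, X = xc K m k s := ⟨_, rfl⟩
  obtain ⟨X', hX'⟩ : ∃ X', X' = xc K m k' s' := ⟨_, rfl⟩
  obtain ⟨Y, hY⟩ : ∃ Y, Y = yc K k s := ⟨_, rfl⟩
  obtain ⟨Y', hY'⟩ : ∃ Y', Y' = yc K k' s' := ⟨_, rfl⟩
  rw [← hX, ← hX', ← hY, ← hY']
  unfold Adj2 Cons2
  unfold xc at hX hX'
  unfold yc at hY hY'
  split_ifs at hX hX' hY hY' <;> omega

theorem inj2 (K m k s k' s' : ℕ) (hm : 19 ≤ m) (hK : K % 2 = 0) (hK2 : 2 ≤ K)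
    (hs : s < m) (hs' : s' < m) (hk : k < K ∨ (k = K ∧ s = 0)) (hk' : k' < K ∨ (k' = K ∧ s' = 0))
    (hx : xc K m k s = xc K m k' s') (hy : yc K k s = yc K k' s') : k = k' ∧ s = s' := by
  unfold xc at hx
  unfold yc at hy
  split_ifs at hx hy <;> omega

theorem bounds (K m k s : ℕ) (hm : 19 ≤ m) (hK2 : 2 ≤ K)
    (hs : s < m) (hk : k < K ∨ (k = K ∧ s = 0)) :
    xc K m k s + 1 ≤ m ∧ 1 ≤ yc K k s ∧ yc K k s + 1 ≤ 2 * K ∧
    ((k = 0 ∧ s = 0) ∨ k = K → xc K m k s = 0) ∧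
    (¬ ((k = 0 ∧ s = 0) ∨ k = K) → 1 ≤ xc K m k s) := by
  unfold xc yc
  split_ifs <;> omega

theorem cons_iff (m i i' : ℕ) (hm : 0 < m) :
    i + 1 = i' ↔ Cons2 m (i / m) (i % m) (i' / m) (i' % m) := by
  have h1 := Nat.div_add_mod i m
  have h2 := Nat.div_add_mod i' m
  have h3 := Nat.mod_lt i hm
  have h4 := Nat.mod_lt i' hm
  generalize i / m = k at *
  generalize i % m = s at *
  generalize i' / m = k' at *
  generalize i' % m = s' at *
  unfold Cons2
  constructor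
  · intro h
    rcases lt_trichotomy k' k with hk | hk | hk
    · exfalso
      have := Nat.mul_le_mul_left m (show k' + 1 ≤ k from hk)
      rw [mul_add, mul_one] at this
      omega
    · subst hk
      left
      omega
    · right
      rcases Nat.lt_or_ge (k + 1) k' with h5 | h5
      · exfalso
        have := Nat.mul_le_mul_left m (show k + 2 ≤ k' from h5)
        rw [mul_add] at this
        omega
      · have h6 : k' = k + 1 := by omega
        subst h6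
        rw [mul_add, mul_one] at h2
        omega
  · rintro (⟨rfl, rfl⟩ | ⟨rfl, h5, rfl⟩)
    · omega
    · rw [mul_add, mul_one] at h2
      omega

end Dense591

end Pool.Agent.H132R3.BP
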