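import Pool.Agent.H132F.Stmts
import Pool.Agent.H132F.TDenseArith591

set_option autoImplicit false

namespace Pool.Agent.H132R3.BP

open SimpleGraph

namespace Dense591

theorem nbr4 (a b : ℕ) (x : Fin a) (y : Fin b) (hx : 1 ≤ (x : ℕ)) (hx2 : (x : ℕ) + 1 < a)
    (hy : 1 ≤ (y : ℕ)) (hy2 : (y : ℕ) + 1 < b) :
    ((pathGraph a □ pathGraph b).neighborSet (x, y)).ncard = 4 := by
  have h : (pathGraph a □ pathGraph b).neighborSet (x, y) =
      {((⟨x - 1, by omega⟩ : Fin a), y), ((⟨x + 1, hx2⟩ : Fin a), y),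
        (x, (⟨y - 1, by omega⟩ : Fin b)), (x, (⟨y + 1, hy2⟩ : Fin b))} := by
    ext ⟨u, v⟩
    simp only [mem_neighborSet, boxProd_adj, pathGraph_adj, Set.mem_insert_iff,
      Set.mem_singleton_iff, Prod.ext_iff, Fin.ext_iff]
    omega
  rw [h, Set.ncard_insert_of_notMem, Set.ncard_insert_of_notMem, Set.ncard_insert_of_notMem,
    Set.ncard_singleton]
  · simp only [Set.mem_singleton_iff, Prod.ext_iff, Fin.ext_iff]
    omega
  · simp only [Set.mem_insert_iff, Set.mem_singleton_iff, Prod.ext_iff, Fin.ext_iff]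
    omega
  · simp only [Set.mem_insert_iff, Set.mem_singleton_iff, Prod.ext_iff, Fin.ext_iff]
    omega

theorem nbr3 (a b : ℕ) (x : Fin a) (y : Fin b) (hx : (x : ℕ) = 0) (hx2 : 1 < a)
    (hy : 1 ≤ (y : ℕ)) (hy2 : (y : ℕ) + 1 < b) :
    ((pathGraph a □ pathGraph b).neighborSet (x, y)).ncard = 3 := by
  have h : (pathGraph a □ pathGraph b).neighborSet (x, y) =
      {((⟨1, hx2⟩ : Fin a), y),
        (x, (⟨y - 1, by omega⟩ : Fin b)), (x, (⟨y + 1, hy2⟩ : Fin b))} := by
    ext ⟨u, v⟩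
    simp only [mem_neighborSet, boxProd_adj, pathGraph_adj, Set.mem_insert_iff,
      Set.mem_singleton_iff, Prod.ext_iff, Fin.ext_iff]
    omega
  rw [h, Set.ncard_insert_of_notMem, Set.ncard_insert_of_notMem, Set.ncard_singleton]
  · simp only [Set.mem_singleton_iff, Prod.ext_iff, Fin.ext_iff]
    omega
  · simp only [Set.mem_insert_iff, Set.mem_singleton_iff, Prod.ext_iff, Fin.ext_iff]
    omega

theorem path2 (L : ℕ) (i : Fin L) (hi : 1 ≤ (i : ℕ)) (hi2 : (i : ℕ) + 1 < L) :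
    ((pathGraph L).neighborSet i).ncard = 2 := by
  have h : (pathGraph L).neighborSet i =
      {(⟨i - 1, by omega⟩ : Fin L), (⟨i + 1, hi2⟩ : Fin L)} := by
    ext u
    simp only [mem_neighborSet, pathGraph_adj, Set.mem_insert_iff,
      Set.mem_singleton_iff, Fin.ext_iff]
    omega
  rw [h, Set.ncard_pair]
  simp only [ne_eq, Fin.ext_iff]
  omega

theorem path1 (L : ℕ) (hL : 3 ≤ L) (i : Fin L) (hi : (i : ℕ) = 0 ∨ (i : ℕ) + 1 = L) :
    ((pathGraph L).neighborSet i).ncard = 1 := by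
  rcases hi with hi | hi
  · have h : (pathGraph L).neighborSet i = {(⟨1, by omega⟩ : Fin L)} := by
      ext u
      simp only [mem_neighborSet, pathGraph_adj, Set.mem_singleton_iff, Fin.ext_iff]
      omega
    rw [h, Set.ncard_singleton]
  · have h : (pathGraph L).neighborSet i = {(⟨i - 1, by omega⟩ : Fin L)} := by
      ext u
      simp only [mem_neighborSet, pathGraph_adj, Set.mem_singleton_iff, Fin.ext_iff]
      omega
    rw [h, Set.ncard_singleton]

end Dense591

open Dense591 in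
theorem tTDense : TDense := by
  intro a b ha hb
  obtain ⟨m, hm⟩ : ∃ m, m = a - 1 := ⟨_, rfl⟩
  obtain ⟨K, hK⟩ : ∃ K, K = 2 * ((b - 1) / 4) := ⟨_, rfl⟩
  have hm19 : 19 ≤ m := by omega
  have hm0 : 0 < m := by omega
  have hK0 : K % 2 = 0 := by omega
  have hK2 : 2 ≤ K := by omega
  have hKb : 2 * K + 1 ≤ b := by omega
  have hKb2 : b ≤ 2 * K + 4 := by omega
  obtain ⟨L, hL⟩ : ∃ L, L = K * m + 1 := ⟨_, rfl⟩
  have hcond : ∀ i : ℕ, i < L → i % m < m ∧ (i / m < K ∨ (i / m = K ∧ i % m = 0)) := by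
    intro i hi
    refine ⟨Nat.mod_lt _ hm0, ?_⟩
    have h1 := Nat.div_add_mod i m
    have h2 : i / m ≤ K := by
      apply Nat.div_le_of_le_mul
      rw [mul_comm]; omega
    rcases Nat.lt_or_ge (i / m) K with h3 | h3
    · exact Or.inl h3
    · have h4 : i / m = K := le_antisymm h2 h3
      refine Or.inr ⟨h4, ?_⟩
      rw [h4, mul_comm] at h1
      omega
  have hb' : ∀ i : ℕ, i < L → xc K m (i / m) (i % m) + 1 < a ∧ 1 ≤ yc K (i / m) (i % m) ∧
      yc K (i / m) (i % m) + 1 < b := by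
    intro i hi
    obtain ⟨h1, h2⟩ := hcond i hi
    obtain ⟨h3, h4, h5, -, -⟩ := bounds K m _ _ hm19 hK2 h1 h2
    omega
  have hends : ∀ i : ℕ, i < L → ((i / m = 0 ∧ i % m = 0) ∨ i / m = K ↔ i = 0 ∨ i + 1 = L) := by
    intro i hi
    have h1 := Nat.div_add_mod i m
    obtain ⟨h2, h3⟩ := hcond i hi
    constructor
    · rintro (⟨h4, h5⟩ | h4)
      · left
        rw [h4, h5] at h1
        simpa using h1.symm
      · right
        rcases h3 with h3 | ⟨_, h5⟩
        · omega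
        · rw [h4, h5, mul_comm] at h1
          omega
    · rintro (h4 | h4)
      · left
        subst h4
        simp
      · right
        have h6 : i = K * m := by omega
        rw [h6, Nat.mul_div_cancel _ hm0]
  let p : Fin L → Fin a × Fin b := fun i =>
    (⟨xc K m (i / m) (i % m), by have := hb' i i.2; omega⟩,
      ⟨yc K (i / m) (i % m), by have := hb' i i.2; omega⟩)
  have hp1 : ∀ i, ((p i).1 : ℕ) = xc K m (i / m) (i % m) := fun i => rfl
  have hp2 : ∀ i, ((p i).2 : ℕ) = yc K (i / m) (i % m) := fun i => rfl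
  have hinj : Function.Injective p := by
    intro i j hij
    have h1 : xc K m ((i : ℕ) / m) ((i : ℕ) % m) = xc K m ((j : ℕ) / m) ((j : ℕ) % m) := by
      rw [← hp1, ← hp1, hij]
    have h2 : yc K ((i : ℕ) / m) ((i : ℕ) % m) = yc K ((j : ℕ) / m) ((j : ℕ) % m) := by
      rw [← hp2, ← hp2, hij]
    obtain ⟨h3, h4⟩ := hcond i i.2
    obtain ⟨h5, h6⟩ := hcond j j.2
    obtain ⟨h7, h8⟩ := inj2 K m _ _ _ _ hm19 hK0 hK2 h3 h5 h4 h6 h1 h2
    apply Fin.ext
    rw [← Nat.div_add_mod (i : ℕ) m, ← Nat.div_add_mod (j : ℕ) m, h7, h8]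
  have hadj : ∀ i j, (pathGraph a □ pathGraph b).Adj (p i) (p j) ↔ (pathGraph L).Adj i j := by
    intro i j
    obtain ⟨h3, h4⟩ := hcond i i.2
    obtain ⟨h5, h6⟩ := hcond j j.2
    have h := adj_iff K m _ _ _ _ hm19 hK0 hK2 h3 h5 h4 h6
    rw [← cons_iff m i j hm0, ← cons_iff m j i hm0] at h
    rw [pathGraph_adj, ← h, boxProd_adj, pathGraph_adj, pathGraph_adj, Fin.ext_iff, Fin.ext_iff,
      hp1, hp1, hp2, hp2]
    unfold Adj2
    rfl
  refine ⟨L, p, ?_, ⟨hinj, hadj, ?_⟩⟩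
  · rw [hL]
    have h1 : a = m + 1 := by omega
    rw [h1]
    nlinarith
  · intro i
    have hfin : ((pathGraph a □ pathGraph b).neighborSet (p i)).Finite := Set.toFinite _
    have h1 := Set.ncard_inter_add_ncard_diff_eq_ncard
      ((pathGraph a □ pathGraph b).neighborSet (p i)) (Set.range p) hfin
    have h2 : (pathGraph a □ pathGraph b).neighborSet (p i) ∩ Set.range p =
        p '' ((pathGraph L).neighborSet i) := by
      ext w
      constructor
      · rintro ⟨hw, j, rfl⟩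
        exact ⟨j, (hadj i j).1 hw, rfl⟩
      · rintro ⟨j, hj, rfl⟩
        exact ⟨(hadj i j).2 hj, j, rfl⟩
    rw [h2, Set.ncard_image_of_injective _ hinj] at h1
    obtain ⟨h3, h4⟩ := hcond i i.2
    obtain ⟨_, _, _, h5, h6⟩ := bounds K m _ _ hm19 hK2 h3 h4
    obtain ⟨h7, h8, h9⟩ := hb' i i.2
    have hL3 : 3 ≤ L := by
      rw [hL]; nlinarith
    by_cases he : (i : ℕ) = 0 ∨ (i : ℕ) + 1 = L
    · rw [path1 L hL3 i he] at h1
      have h10 := h5 ((hends i i.2).2 he)
      have h11 := nbr3 a b (p i).1 (p i).2 h10 (by omega) h8 h9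
      rw [show ((p i).1, (p i).2) = p i from rfl] at h11
      omega
    · rw [path2 L i (by omega) (by have := i.2; omega)] at h1
      have h10 := h6 (fun h => he ((hends i i.2).1 h))
      have h11 := nbr4 a b (p i).1 (p i).2 h10 h7 h8 h9
      rw [show ((p i).1, (p i).2) = p i from rfl] at h11
      omega

end Pool.Agent.H132R3.BP
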