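import Pool.Agent.H132F.Stmts

/-!
# Task FOLD
-/

set_option autoImplicit false

namespace Pool.Agent.H132R3.BP

open SimpleGraph

namespace FoldAux

/-- the embedding of the strip -/
def m {W V : Type} {L : ℕ} (p : Fin L → W) (x : Fin L × V) : W × V := (p x.1, x.2)

/-- the walls -/
def walls {W V : Type} {L : ℕ} (p : Fin L → W) : Set (W × V) := {x | x.1 ∉ Set.range p}

lemma m_inj {W V : Type} {L : ℕ} {p : Fin L → W} (hp : Function.Injective p) :
    Function.Injective (m (V := V) p) := by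
  rintro ⟨i, k⟩ ⟨j, l⟩ h
  simp only [m, Prod.mk.injEq] at h
  rw [hp h.1, h.2]

lemma count {W V : Type} [Finite W] [Finite V] {Q : SimpleGraph W} {K : SimpleGraph V}
    {L : ℕ} {p : Fin L → W} (hd : DensePath Q L p) (I : Set (Fin L × V)) (i : Fin L) (k : V) :
    ((Q □ K).neighborSet (p i, k) ∩ (walls p ∪ m p '' I)).ncard =
      ((pathGraph L □ K).neighborSet (i, k) ∩ I).ncard + 2 := by
  have e1 : (Q □ K).neighborSet (p i, k) ∩ walls p =
      (fun w => (w, k)) '' (Q.neighborSet (p i) \ Set.range p) := by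
    ext ⟨w, k'⟩
    simp only [Set.mem_inter_iff, mem_neighborSet, boxProd_adj, walls, Set.mem_ofPred_eq,
      Set.mem_image, Set.mem_sdiff, Prod.mk.injEq]
    constructor
    · rintro ⟨⟨h, rfl⟩ | ⟨_, h⟩, hw⟩
      · exact ⟨w, ⟨h, hw⟩, rfl, rfl⟩
      · exact absurd ⟨i, h⟩ hw
    · rintro ⟨w', ⟨h, hw⟩, rfl, rfl⟩
      exact ⟨Or.inl ⟨h, rfl⟩, hw⟩
  have e2 : (Q □ K).neighborSet (p i, k) ∩ m p '' I =
      m p '' ((pathGraph L □ K).neighborSet (i, k) ∩ I) := by
    ext ⟨w, k'⟩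
    constructor
    · rintro ⟨h, ⟨⟨j, l⟩, hj, hjl⟩⟩
      simp only [m, Prod.mk.injEq] at hjl
      obtain ⟨rfl, rfl⟩ := hjl
      refine ⟨(j, l), ⟨?_, hj⟩, rfl⟩
      simp only [mem_neighborSet, boxProd_adj] at h ⊢
      rcases h with ⟨h, h'⟩ | ⟨h, h'⟩
      · exact Or.inl ⟨(hd.adj i j).1 h, h'⟩
      · exact Or.inr ⟨h, hd.inj h'⟩
    · rintro ⟨⟨j, l⟩, ⟨h, hj⟩, hjl⟩
      refine ⟨?_, ⟨(j, l), hj, hjl⟩⟩
      simp only [m, Prod.mk.injEq] at hjl
      obtain ⟨rfl, rfl⟩ := hjl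
      simp only [mem_neighborSet, boxProd_adj] at h ⊢
      rcases h with ⟨h, h'⟩ | ⟨h, h'⟩
      · exact Or.inl ⟨(hd.adj i j).2 h, h'⟩
      · exact Or.inr ⟨h, by rw [h']⟩
  rw [Set.inter_union_distrib_left, Set.ncard_union_eq ?_ (Set.toFinite _) (Set.toFinite _),
    e1, e2, Set.ncard_image_of_injective _ (m_inj hd.inj), Set.ncard_image_of_injective,
    hd.walls i, add_comm]
  · intro a b h
    exact (Prod.mk.inj h).1
  · rw [Set.disjoint_left]
    rintro ⟨w, k'⟩ ⟨_, h1⟩ ⟨_, ⟨⟨j, l⟩, _, h2⟩⟩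
    simp only [m, Prod.mk.injEq] at h2
    exact h1 ⟨j, h2.1⟩

lemma inf_eq {W V : Type} [Finite W] [Finite V] {Q : SimpleGraph W} {K : SimpleGraph V}
    {L : ℕ} {p : Fin L → W} (hd : DensePath Q L p) (r : ℕ) (A : Set (Fin L × V)) (t : ℕ) :
    inf (Q □ K) (r + 2) (walls p ∪ m p '' A) t = walls p ∪ m p '' (inf (pathGraph L □ K) r A t) := by
  induction t with
  | zero => rfl
  | succ t ih =>
    simp only [inf]
    rw [ih]
    ext ⟨w, k⟩
    by_cases hw : w ∈ Set.range p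
    · obtain ⟨i, rfl⟩ := hw
      have hc := count (K := K) hd (inf (pathGraph L □ K) r A t) i k
      have h1 : ((p i, k) : W × V) ∉ walls (V := V) p := fun h => h ⟨i, rfl⟩
      have h2 : ∀ I : Set (Fin L × V), ((p i, k) : W × V) ∈ m p '' I ↔ (i, k) ∈ I := by
        intro I
        constructor
        · rintro ⟨x, hx, hxm⟩
          have : x = (i, k) := m_inj hd.inj hxm
          rwa [← this]
        · intro h
          exact ⟨(i, k), h, rfl⟩
      simp only [Set.mem_union, h1, false_or, h2, Set.mem_ofPred_eq, hc]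
      rw [Nat.add_le_add_iff_right]
    · have h1 : ((w, k) : W × V) ∈ walls (V := V) p := hw
      simp only [Set.mem_union, h1, true_or]

lemma univ_iff {W V : Type} {L : ℕ} {p : Fin L → W} (hp : Function.Injective p)
    (I : Set (Fin L × V)) : walls p ∪ m p '' I = Set.univ ↔ I = Set.univ := by
  constructor
  · intro h
    rw [Set.eq_univ_iff_forall] at h ⊢
    rintro ⟨i, k⟩
    rcases h (p i, k) with h | ⟨x, hx, hxm⟩
    · exact absurd ⟨i, rfl⟩ h
    · have : x = (i, k) := m_inj hp hxm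
      rwa [← this]
  · rintro rfl
    rw [Set.eq_univ_iff_forall]
    rintro ⟨w, k⟩
    by_cases hw : w ∈ Set.range p
    · obtain ⟨i, rfl⟩ := hw
      exact Or.inr ⟨(i, k), trivial, rfl⟩
    · exact Or.inl hw

end FoldAux

theorem tTFold : TFold := by
  intro W V _ _ Q K L p r T hd ⟨A, ⟨t, ht⟩, hT⟩
  refine ⟨FoldAux.walls p ∪ FoldAux.m p '' A, ⟨t, ?_⟩, fun s hs => ?_⟩
  · rw [FoldAux.inf_eq hd, FoldAux.univ_iff hd.inj]
    exact ht
  · rw [FoldAux.inf_eq hd, Ne, FoldAux.univ_iff hd.inj]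
    exact hT s hs

end Pool.Agent.H132R3.BP
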