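import Pool.Agent.H132F.Stmts

set_option autoImplicit false

namespace Pool.Agent.H132R3.BP

open SimpleGraph

theorem tTIso2 : TIso2 := by
  rintro V V' W W' G G' H H' ⟨e⟩ ⟨f⟩
  refine ⟨⟨Equiv.prodCongr e.toEquiv f.toEquiv, ?_⟩⟩
  rintro ⟨a, b⟩ ⟨c, d⟩
  simp only [boxProd_adj, Equiv.prodCongr_apply, Prod.map]
  have h1 : G'.Adj (e.toEquiv a) (e.toEquiv c) ↔ G.Adj a c := e.map_rel_iff
  have h2 : H'.Adj (f.toEquiv b) (f.toEquiv d) ↔ H.Adj b d := f.map_rel_iff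
  rw [h1, h2, e.toEquiv.apply_eq_iff_eq, f.toEquiv.apply_eq_iff_eq]

end Pool.Agent.H132R3.BP
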