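import Mathlib
import Pool.Agent.H132F.Stmts

/-!
# Project H132-BP, task TIso3
-/

set_option autoImplicit false

namespace Pool.Agent.H132R3.BP

open SimpleGraph

theorem iso3_nbr {V W : Type} {G : SimpleGraph V} {H : SimpleGraph W} (e : G ≃g H) (v : V) :
    H.neighborSet (e v) = e '' G.neighborSet v := by
  ext w
  constructor
  · intro h
    refine ⟨e.symm w, ?_, e.apply_symm_apply w⟩
    have h1 : H.Adj (e v) (e (e.symm w)) := by
      rw [e.apply_symm_apply]; exact h
    exact (e.map_rel_iff).1 h1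
  · rintro ⟨u, hu, rfl⟩
    exact (e.map_rel_iff).2 hu

theorem iso3_inf {V W : Type} {G : SimpleGraph V} {H : SimpleGraph W} (e : G ≃g H) (r : ℕ)
    (A : Set V) (t : ℕ) : inf H r (e '' A) t = e '' inf G r A t := by
  induction t with
  | zero => rfl
  | succ t ih =>
    ext w
    obtain ⟨v, rfl⟩ := e.surjective w
    have h1 : (e v ∈ e '' inf G r A (t + 1)) ↔ v ∈ inf G r A (t + 1) :=
      e.injective.mem_set_image
    rw [h1]
    have h2 : (H.neighborSet (e v) ∩ inf H r (e '' A) t).ncard =
        (G.neighborSet v ∩ inf G r A t).ncard := by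
      rw [ih, iso3_nbr, ← Set.image_inter e.injective, Set.ncard_image_of_injective _ e.injective]
    have h3 : e v ∈ inf H r (e '' A) t ↔ v ∈ inf G r A t := by
      rw [ih]
      exact e.injective.mem_set_image
    show (e v ∈ inf H r (e '' A) t ∨ r ≤ (H.neighborSet (e v) ∩ inf H r (e '' A) t).ncard) ↔
      (v ∈ inf G r A t ∨ r ≤ (G.neighborSet v ∩ inf G r A t).ncard)
    rw [h2, h3]

theorem tTIso3 : TIso3 := by
  rintro V W G H r T ⟨e⟩ ⟨A, ⟨t, ht⟩, hA⟩
  have huniv : ∀ s, inf H r (e '' A) s = Set.univ ↔ inf G r A s = Set.univ := by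
    intro s
    rw [iso3_inf]
    constructor
    · intro h
      rw [Set.eq_univ_iff_forall] at h ⊢
      intro v
      exact (e.injective.mem_set_image).1 (h (e v))
    · intro h
      rw [h, Set.image_univ]
      exact e.surjective.range_eq
  exact ⟨e '' A, ⟨t, (huniv t).2 ht⟩, fun s hs h => hA s hs ((huniv s).1 h)⟩

end Pool.Agent.H132R3.BP
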