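import Pool.Agent.H132F.Stmts

/-!
# LEAD (project H132-BP)

`tTLead : TThin2 → TLead`: a thin path in the product of the plane with a grid, built by applying
THIN2 once for every further coordinate.
-/

set_option autoImplicit false

namespace Pool.Agent.H132R3.BP

open SimpleGraph

namespace TLeadAux

/-- thin embeddings compose (finite host) -/
theorem thin_comp {U V W : Type} [Finite W] {F : SimpleGraph U} {G : SimpleGraph V}
    {H : SimpleGraph W} {φ : U → V} {ψ : V → W} (h1 : Thin F G φ) (h2 : Thin G H ψ) :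
    Thin F H (fun u => ψ (φ u)) where
  inj := h2.inj.comp h1.inj
  adj u v := (h2.adj _ _).trans (h1.adj _ _)
  out w hw := by
    by_cases h : w ∈ Set.range ψ
    · obtain ⟨v, rfl⟩ := h
      have hv : v ∉ Set.range φ := by
        rintro ⟨u, rfl⟩
        exact hw ⟨u, rfl⟩
      have hsub : H.neighborSet (ψ v) ∩ Set.range (fun u => ψ (φ u)) =
          ψ '' (G.neighborSet v ∩ Set.range φ) := by
        ext x
        constructor
        · rintro ⟨hx, u, rfl⟩
          exact ⟨φ u, ⟨(h2.adj _ _).1 hx, u, rfl⟩, rfl⟩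
        · rintro ⟨y, ⟨hy, u, rfl⟩, rfl⟩
          exact ⟨(h2.adj _ _).2 hy, u, rfl⟩
      rw [hsub, Set.ncard_image_of_injective _ h2.inj]
      exact h1.out v hv
    · refine le_trans (Set.ncard_le_ncard ?_ (Set.toFinite _)) (h2.out w h)
      rintro x ⟨hx, u, rfl⟩
      exact ⟨hx, φ u, rfl⟩

/-- a thin embedding times a path -/
theorem thin_prod {U V K : Type} {F : SimpleGraph U} {G : SimpleGraph V} (P : SimpleGraph K)
    {φ : U → V} (h : Thin F G φ) :
    Thin (F □ P) (G □ P) (fun x => (φ x.1, x.2)) where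
  inj := by
    rintro ⟨u, k⟩ ⟨v, l⟩ e
    simp only [Prod.mk.injEq] at e
    exact Prod.ext (h.inj e.1) e.2
  adj := by
    rintro ⟨u, k⟩ ⟨v, l⟩
    simp only [boxProd_adj, h.adj, h.inj.eq_iff]
  out := by
    rintro ⟨w, k⟩ hw
    have hw' : w ∉ Set.range φ := by
      rintro ⟨u, rfl⟩
      exact hw ⟨(u, k), rfl⟩
    have hsub : (G □ P).neighborSet (w, k) ∩ Set.range (fun x : U × K => (φ x.1, x.2)) =
        (fun v => (v, k)) '' (G.neighborSet w ∩ Set.range φ) := by
      ext x
      constructor
      · rintro ⟨hx, ⟨u, l⟩, rfl⟩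
        simp only [mem_neighborSet, boxProd_adj] at hx
        rcases hx with ⟨h1, h2⟩ | ⟨h1, h2⟩
        · subst h2
          exact ⟨φ u, ⟨h1, u, rfl⟩, rfl⟩
        · exact absurd ⟨u, h2.symm⟩ hw'
      · rintro ⟨y, ⟨hy, u, rfl⟩, rfl⟩
        refine ⟨?_, (u, k), rfl⟩
        simp only [mem_neighborSet, boxProd_adj]
        exact Or.inl ⟨hy, trivial⟩
    rw [hsub, Set.ncard_image_of_injective _ (fun a b e => (Prod.mk.inj e).1)]
    exact h.out w hw'

/-- adding one coordinate in front -/
theorem thin_cons {Q : Type} (G : SimpleGraph Q) (m n : ℕ) :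
    Thin ((G □ Grid m n) □ pathGraph n) (G □ Grid (m + 1) n)
      (fun x : (Q × (Fin m → Fin n)) × Fin n =>
        (x.1.1, (Fin.cons x.2 x.1.2 : Fin (m + 1) → Fin n))) where
  inj := by
    rintro ⟨⟨q, g⟩, k⟩ ⟨⟨q', g'⟩, k'⟩ e
    simp only [Prod.mk.injEq, Fin.cons_inj] at e
    simp only [Prod.mk.injEq]
    tauto
  adj := by
    rintro ⟨⟨q, g⟩, k⟩ ⟨⟨q', g'⟩, k'⟩
    simp only [boxProd_adj, Fin.cons_inj, Prod.mk.injEq, pathGraph_adj]
    have hg : (Grid (m + 1) n).Adj (Fin.cons k g : Fin (m + 1) → Fin n)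
        (Fin.cons k' g' : Fin (m + 1) → Fin n) ↔
        (((k : ℕ) + 1 = k' ∨ (k' : ℕ) + 1 = k) ∧ g = g') ∨ (k = k' ∧ (Grid m n).Adj g g') := by
      constructor
      · rintro ⟨i, h, hj⟩
        induction i using Fin.cases with
        | zero =>
          left
          refine ⟨by simpa using h, ?_⟩
          funext j
          simpa using hj j.succ (Fin.succ_ne_zero j)
        | succ i =>
          right
          refine ⟨by simpa using hj 0 (Fin.succ_ne_zero i).symm, i, by simpa using h, ?_⟩
          intro j hne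
          simpa using hj j.succ (by simpa using hne)
      · rintro (⟨h, rfl⟩ | ⟨rfl, i, h, hj⟩)
        · refine ⟨0, by simpa using h, ?_⟩
          intro j hne
          induction j using Fin.cases with
          | zero => exact absurd rfl hne
          | succ j => simp
        · refine ⟨i.succ, by simpa using h, ?_⟩
          intro j hne
          induction j using Fin.cases with
          | zero => simp
          | succ j => simpa using hj j (by simpa using hne)
    rw [hg]
    tauto
  out := by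
    rintro ⟨q, g⟩ hw
    exact absurd ⟨((q, Fin.tail g), g 0), by simp⟩ hw

/-- the plane, shifted by five -/
theorem thin_shift (M n : ℕ) (hn : 30 ≤ n) :
    Thin (pathGraph M □ pathGraph (n - 5)) ((pathGraph M □ pathGraph n) □ Grid 0 n)
      (fun x : Fin M × Fin (n - 5) =>
        ((x.1, (⟨x.2 + 5, by have := x.2.2; omega⟩ : Fin n)), (fun j => j.elim0 : Fin 0 → Fin n)))
    where
  inj := by
    rintro ⟨x, k⟩ ⟨y, l⟩ e
    simp only [Prod.mk.injEq, Fin.mk.injEq, and_true] at e
    obtain ⟨e1, e2⟩ := e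
    exact Prod.ext e1 (Fin.ext (by simp only at e2 ⊢; omega))
  adj := by
    rintro ⟨x, k⟩ ⟨y, l⟩
    have h0 : ¬ (Grid 0 n).Adj (fun j => j.elim0) (fun j => j.elim0) := by
      rintro ⟨i, -⟩
      exact i.elim0
    simp only [boxProd_adj, pathGraph_adj, h0, Fin.ext_iff]
    constructor
    · rintro (⟨h | h, -⟩ | h)
      · exact Or.inl ⟨h.1, by omega⟩
      · exact Or.inr ⟨by omega, h.2⟩
      · exact absurd h.1 (by simp)
    · rintro (h | h)
      · exact Or.inl ⟨Or.inl ⟨h.1, by omega⟩, trivial⟩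
      · exact Or.inl ⟨Or.inr ⟨by omega, h.2⟩, trivial⟩
  out := by
    rintro ⟨⟨x, k⟩, g⟩ hw
    have hk : (k : ℕ) < 5 := by
      by_contra hk
      apply hw
      refine ⟨(x, ⟨k - 5, by have := k.2; omega⟩), ?_⟩
      simp only [Prod.mk.injEq, true_and]
      refine ⟨Fin.ext ?_, funext fun j => j.elim0⟩
      simp only
      omega
    have hsub : ((pathGraph M □ pathGraph n) □ Grid 0 n).neighborSet ((x, k), g) ∩
        Set.range (fun x : Fin M × Fin (n - 5) =>
        ((x.1, (⟨x.2 + 5, by have := x.2.2; omega⟩ : Fin n)),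
          (fun j => j.elim0 : Fin 0 → Fin n))) ⊆
        {((x, (⟨5, by omega⟩ : Fin n)), (fun j => j.elim0 : Fin 0 → Fin n))} := by
      rintro z ⟨hz, ⟨y, l⟩, rfl⟩
      simp only [mem_neighborSet, boxProd_adj, pathGraph_adj, Fin.ext_iff] at hz
      rcases hz with ⟨h | h, -⟩ | h
      · omega
      · simp only [Set.mem_singleton_iff, Prod.mk.injEq, and_true, Fin.ext_iff]
        omega
      · obtain ⟨⟨i, -⟩, -⟩ := h
        exact i.elim0
    refine le_trans (Set.ncard_le_ncard hsub (Set.toFinite _)) ?_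
    simp

end TLeadAux

open TLeadAux in
theorem tTLead : TThin2 → TLead := by
  intro hT m
  induction m with
  | zero =>
    refine ⟨20, by norm_num, ?_⟩
    intro M n hM hn
    obtain ⟨L, p, hL, hp, hlead, hfar⟩ := hT M (n - 5) (by omega) (by omega)
    have hMn : 30 * 25 ≤ M * (n - 5) := Nat.mul_le_mul hM (by omega)
    refine ⟨L, _, by omega, ?_, thin_comp hp (thin_shift M n hn), ?_, ?_, ?_⟩
    · obtain ⟨b, rfl⟩ : ∃ b, n = b + 5 := ⟨n - 5, by omega⟩
      simp only [Nat.add_sub_cancel] at hL
      rw [zero_add, pow_one]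
      have : M * 25 ≤ M * b := Nat.mul_le_mul_left _ (by omega)
      rw [Nat.mul_add]
      omega
    · intro i hi
      obtain ⟨h1, h2⟩ := hlead i hi
      refine ⟨h1, by simp only; omega, fun j => j.elim0⟩
    · intro i hi
      exact hfar i hi
    · intro i
      simp only
      omega
  | succ m ih =>
    obtain ⟨C, hC, ih⟩ := ih
    refine ⟨16 * C, by omega, ?_⟩
    intro M n hM hn
    obtain ⟨L, φ, hL, hsize, hφ, hlead, hfar, hhigh⟩ := ih M n hM hn
    obtain ⟨L', p, hL', hp, hlead', hfar'⟩ := hT L n (by omega) (by omega)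
    have hLn : 30 * 30 ≤ L * n := Nat.mul_le_mul hL hn
    refine ⟨L', _, by omega, ?_,
      thin_comp (thin_comp hp (thin_prod (pathGraph n) hφ)) (thin_cons _ m n), ?_, ?_, ?_⟩
    · calc M * n ^ (m + 1 + 1) = (M * n ^ (m + 1)) * n := by ring
        _ ≤ (C * L) * n := Nat.mul_le_mul_right _ hsize
        _ = C * (L * n) := by ring
        _ ≤ C * (16 * L') := Nat.mul_le_mul_left _ hL'
        _ = 16 * C * L' := by ring
    · intro i hi
      obtain ⟨h1, h2⟩ := hlead' i hi
      obtain ⟨g1, g2, g3⟩ := hlead (p i).1 (by omega)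
      refine ⟨by simp only; omega, g2, ?_⟩
      intro j
      induction j using Fin.cases with
      | zero => simpa using h2
      | succ j => simpa using g3 j
    · intro i hi
      exact hfar _ (hfar' i hi)
    · intro i
      exact hhigh _

end Pool.Agent.H132R3.BP
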