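import Pool.Agent.H132F.Stmts

/-!
# Task TStrip of project H132-BP: slow two-neighbour percolation on a strip
-/

set_option autoImplicit false

namespace Pool.Agent.H132R3.BP

open SimpleGraph

namespace Strip

/-- distance from the seed of the `j`-th pair of columns -/
def D (n j z : ℕ) : ℕ := if j % 2 = 0 then z else n - 1 - z

/-- infection times -/
def tau (s n x z : ℕ) : ℕ :=
  if x ≤ s then 0
  else if (x - s - 1) % 2 = 0 then ((x - s - 1) / 2) * (n + 1) + 1 + D n ((x - s - 1) / 2) z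
  else if D n ((x - s - 1) / 2) z = 0 then 0
  else ((x - s - 1) / 2) * (n + 1) + 2 + D n ((x - s - 1) / 2) z

theorem tau_low (s n x z : ℕ) (h : x ≤ s) : tau s n x z = 0 := by
  unfold tau; rw [if_pos h]

theorem tau_odd (s n j z : ℕ) : tau s n (s + 1 + 2 * j) z = j * (n + 1) + 1 + D n j z := by
  have h1 : s + 1 + 2 * j - s - 1 = 2 * j := by omega
  have h2 : (2 * j) / 2 = j := by omega
  unfold tau
  rw [if_neg (by omega), h1, if_pos (by omega), h2]

theorem tau_even (s n j z : ℕ) : tau s n (s + 2 + 2 * j) z =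
    if D n j z = 0 then 0 else j * (n + 1) + 2 + D n j z := by
  have h1 : s + 2 + 2 * j - s - 1 = 2 * j + 1 := by omega
  have h2 : (2 * j + 1) / 2 = j := by omega
  unfold tau
  rw [if_neg (by omega), h1, if_neg (by omega), h2]

theorem cases_x (s x : ℕ) : x ≤ s ∨ (∃ j, x = s + 1 + 2 * j) ∨ ∃ j, x = s + 2 + 2 * j := by
  rcases Nat.lt_or_ge s x with h | h
  · right
    rcases Nat.even_or_odd' (x - s - 1) with ⟨j, hj | hj⟩
    · exact Or.inl ⟨j, by omega⟩
    · exact Or.inr ⟨j, by omega⟩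
  · exact Or.inl h

theorem D_le (n j z : ℕ) (hz : z < n) : D n j z ≤ n - 1 := by
  unfold D; split_ifs <;> omega

theorem D_flip (n j z : ℕ) (hz : z < n) : D n j z = n - 1 - D n (j + 1) z := by
  unfold D; split_ifs <;> omega

theorem right_early (s n x z : ℕ) (hz : z < n) (h : tau s n (x + 1) z + 2 ≤ tau s n x z) :
    ∃ j, x = s + 1 + 2 * j ∧ D n j z = 0 := by
  rcases cases_x s x with h1 | ⟨j, rfl⟩ | ⟨j, rfl⟩
  · rw [tau_low s n x z h1] at h; omega
  · have e : s + 1 + 2 * j + 1 = s + 2 + 2 * j := by omega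
    rw [e, tau_even, tau_odd] at h
    split_ifs at h with hD
    · exact ⟨j, rfl, hD⟩
    · omega
  · exfalso
    have e : s + 2 + 2 * j + 1 = s + 1 + 2 * (j + 1) := by omega
    have e2 : (j + 1) * (n + 1) = j * (n + 1) + n + 1 := by ring
    rw [e, tau_even, tau_odd, e2] at h
    have h3 := D_le n j z hz
    split_ifs at h <;> omega

theorem left_early (s n x z : ℕ) (hn : 2 ≤ n) (hz : z < n)
    (h : tau s n x z + 2 ≤ tau s n (x + 1) z) :
    ∃ j, x + 1 = s + 1 + 2 * j ∧ D n j z ≠ 0 := by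
  rcases cases_x s (x + 1) with h1 | ⟨j, hj⟩ | ⟨j, hj⟩
  · rw [tau_low s n (x + 1) z h1] at h; omega
  · refine ⟨j, hj, fun hD => ?_⟩
    rw [hj, tau_odd, hD] at h
    rcases j with _ | j
    · omega
    · have e : x = s + 2 + 2 * j := by omega
      have e2 : (j + 1) * (n + 1) = j * (n + 1) + n + 1 := by ring
      have h3 := D_flip n j z hz
      rw [hD] at h3
      rw [e, tau_even, e2, if_neg (by omega)] at h
      omega
  · exfalso
    have e : x = s + 1 + 2 * j := by omega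
    rw [hj, e, tau_even, tau_odd] at h
    split_ifs at h <;> omega

theorem up_early (s n x z : ℕ) (hz : z + 1 < n) (h : tau s n x (z + 1) + 2 ≤ tau s n x z) :
    ∃ j, x = s + 2 + 2 * j ∧ j % 2 = 1 := by
  rcases cases_x s x with h1 | ⟨j, rfl⟩ | ⟨j, rfl⟩
  · rw [tau_low s n x z h1] at h; omega
  · exfalso
    rw [tau_odd, tau_odd] at h
    unfold D at h
    split_ifs at h <;> omega
  · refine ⟨j, rfl, ?_⟩
    rw [tau_even, tau_even] at h
    by_contra h0
    have h1 : j % 2 = 0 := by omega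
    have d1 : D n j z = z := by unfold D; rw [if_pos h1]
    have d2 : D n j (z + 1) = z + 1 := by unfold D; rw [if_pos h1]
    rw [d1, d2] at h
    split_ifs at h <;> omega

theorem down_early (s n x z : ℕ) (hz : z + 1 < n) (h : tau s n x z + 2 ≤ tau s n x (z + 1)) :
    ∃ j, x = s + 2 + 2 * j ∧ j % 2 = 0 := by
  rcases cases_x s x with h1 | ⟨j, rfl⟩ | ⟨j, rfl⟩
  · rw [tau_low s n x _ h1] at h; rw [tau_low s n x _ h1] at h; omega
  · exfalso
    rw [tau_odd, tau_odd] at h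
    unfold D at h
    split_ifs at h <;> omega
  · refine ⟨j, rfl, ?_⟩
    rw [tau_even, tau_even] at h
    by_contra h0
    have d1 : D n j z = n - 1 - z := by unfold D; rw [if_neg h0]
    have d2 : D n j (z + 1) = n - 1 - (z + 1) := by unfold D; rw [if_neg h0]
    rw [d1, d2] at h
    split_ifs at h <;> omega

theorem adj_iff {L n : ℕ} (v u : Fin L × Fin n) : (pathGraph L □ pathGraph n).Adj v u ↔
    (((v.1 : ℕ) + 1 = u.1 ∨ (u.1 : ℕ) + 1 = v.1) ∧ (v.2 : ℕ) = u.2) ∨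
    (((v.2 : ℕ) + 1 = u.2 ∨ (u.2 : ℕ) + 1 = v.2) ∧ (v.1 : ℕ) = u.1) := by
  rw [boxProd_adj, pathGraph_adj, pathGraph_adj, Fin.ext_iff, Fin.ext_iff]

theorem early_cases {L n : ℕ} (s : ℕ) (hn : 2 ≤ n) (v u : Fin L × Fin n)
    (ha : (pathGraph L □ pathGraph n).Adj v u)
    (h : tau s n u.1 u.2 + 2 ≤ tau s n v.1 v.2) :
    (∃ j, (v.1 : ℕ) = s + 1 + 2 * j ∧ D n j v.2 = 0 ∧ (u.1 : ℕ) = v.1 + 1 ∧ (u.2 : ℕ) = v.2) ∨
    (∃ j, (v.1 : ℕ) = s + 1 + 2 * j ∧ D n j v.2 ≠ 0 ∧ (u.1 : ℕ) + 1 = v.1 ∧ (u.2 : ℕ) = v.2) ∨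
    (∃ j, (v.1 : ℕ) = s + 2 + 2 * j ∧ j % 2 = 1 ∧ (u.1 : ℕ) = v.1 ∧ (u.2 : ℕ) = v.2 + 1) ∨
    (∃ j, (v.1 : ℕ) = s + 2 + 2 * j ∧ j % 2 = 0 ∧ (u.1 : ℕ) = v.1 ∧ (u.2 : ℕ) + 1 = v.2) := by
  rcases (adj_iff v u).1 ha with ⟨h1 | h1, h2⟩ | ⟨h1 | h1, h2⟩
  · left
    rw [← h1, ← h2] at h
    obtain ⟨j, h3, h4⟩ := right_early s n v.1 v.2 v.2.2 h
    exact ⟨j, h3, h4, h1.symm, h2.symm⟩
  · right; left
    rw [← h1, h2] at h
    obtain ⟨j, h3, h4⟩ := left_early s n u.1 u.2 hn u.2.2 h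
    exact ⟨j, by omega, by rw [h2]; exact h4, h1, h2.symm⟩
  · right; right; left
    have h5 := u.2.2
    rw [← h1, ← h2] at h
    obtain ⟨j, h3, h4⟩ := up_early s n v.1 v.2 (by omega) h
    exact ⟨j, h3, h4, h2.symm, h1.symm⟩
  · right; right; right
    have h5 := v.2.2
    rw [← h1, ← h2] at h
    obtain ⟨j, h3, h4⟩ := down_early s n v.1 u.2 (by omega) h
    exact ⟨j, h3, h4, h2.symm, h1⟩

theorem count {L n : ℕ} (s : ℕ) (hn : 2 ≤ n) (v : Fin L × Fin n) :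
    ((pathGraph L □ pathGraph n).neighborSet v ∩
      {u | tau s n u.1 u.2 + 2 ≤ tau s n v.1 v.2}).ncard ≤ 1 := by
  rw [Set.ncard_le_one (Set.toFinite _)]
  rintro a ⟨ha, ha'⟩ b ⟨hb, hb'⟩
  have key : (a.1 : ℕ) = b.1 ∧ (a.2 : ℕ) = b.2 := by
    rcases early_cases s hn v a ha ha' with ⟨j, h1, h2, h3, h4⟩ | ⟨j, h1, h2, h3, h4⟩ |
      ⟨j, h1, h2, h3, h4⟩ | ⟨j, h1, h2, h3, h4⟩ <;>
    rcases early_cases s hn v b hb hb' with ⟨i, g1, g2, g3, g4⟩ | ⟨i, g1, g2, g3, g4⟩ |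
      ⟨i, g1, g2, g3, g4⟩ | ⟨i, g1, g2, g3, g4⟩ <;>
    first
      | (exfalso; omega)
      | (constructor <;> omega)
      | (exfalso
         have e : i = j := by omega
         subst e
         omega)
  exact Prod.ext (Fin.ext key.1) (Fin.ext key.2)

theorem low {V : Type} [Finite V] (G : SimpleGraph V) (A : Set V) (τ : V → ℕ)
    (h0 : ∀ v ∈ A, τ v = 0)
    (h : ∀ v, (G.neighborSet v ∩ {u | τ u + 2 ≤ τ v}).ncard ≤ 1) :
    ∀ t, ∀ v ∈ inf G 2 A t, τ v ≤ t := by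
  intro t
  induction t with
  | zero => intro v hv; exact (h0 v hv).le
  | succ t ih =>
    intro v hv
    rcases hv with hv | hv
    · exact (ih v hv).trans (Nat.le_succ t)
    · by_contra hc
      push Not at hc
      have h1 : (G.neighborSet v ∩ inf G 2 A t) ⊆ G.neighborSet v ∩ {u | τ u + 2 ≤ τ v} := by
        rintro u ⟨hu1, hu2⟩
        refine ⟨hu1, ?_⟩
        have := ih u hu2
        show τ u + 2 ≤ τ v
        omega
      have h2 := Set.ncard_le_ncard h1 (Set.toFinite _)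
      have h3 := h v
      have h4 : 2 ≤ (G.neighborSet v ∩ inf G 2 A t).ncard := hv
      omega

theorem inf_mono {V : Type} (G : SimpleGraph V) (r : ℕ) (A : Set V) : Monotone (inf G r A) := by
  refine monotone_nat_of_le_succ fun t => ?_
  intro v hv
  exact Or.inl hv

theorem step {V : Type} [Finite V] (G : SimpleGraph V) (A : Set V) (v a b : V) (hab : a ≠ b)
    (ha : G.Adj v a) (hb : G.Adj v b) (ra : ∃ t, a ∈ inf G 2 A t) (rb : ∃ t, b ∈ inf G 2 A t) :
    ∃ t, v ∈ inf G 2 A t := by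
  obtain ⟨t1, h1⟩ := ra
  obtain ⟨t2, h2⟩ := rb
  refine ⟨max t1 t2 + 1, Or.inr ?_⟩
  have h3 : ({a, b} : Set V) ⊆ G.neighborSet v ∩ inf G 2 A (max t1 t2) := by
    rintro x (rfl | rfl)
    · exact ⟨ha, inf_mono G 2 A (le_max_left _ _) h1⟩
    · exact ⟨hb, inf_mono G 2 A (le_max_right _ _) h2⟩
  have h4 := Set.ncard_le_ncard h3 (Set.toFinite _)
  rw [Set.ncard_pair hab] at h4
  exact h4

theorem all {V : Type} [Finite V] (G : SimpleGraph V) (A : Set V)
    (h : ∀ v, ∃ t, v ∈ inf G 2 A t) : ∃ t, inf G 2 A t = Set.univ := by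
  choose f hf using h
  obtain ⟨M, hM⟩ := (Set.finite_range f).bddAbove
  refine ⟨M, Set.eq_univ_of_forall fun v => ?_⟩
  exact inf_mono G 2 A (hM ⟨v, rfl⟩) (hf v)

/-- the initial set -/
def A (L n s : ℕ) : Set (Fin L × Fin n) :=
  {v | (v.1 : ℕ) ≤ s ∨ ∃ j, (v.1 : ℕ) = s + 2 + 2 * j ∧ D n j v.2 = 0}

theorem A_zero {L n s : ℕ} (v : Fin L × Fin n) (hv : v ∈ A L n s) : tau s n v.1 v.2 = 0 := by
  rcases hv with h | ⟨j, h1, h2⟩
  · exact tau_low _ _ _ _ h
  · rw [h1, tau_even, if_pos h2]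

/-- the vertex with coordinates `x`, `z` gets infected -/
def Rn (L n s x z : ℕ) : Prop := ∀ (hx : x < L) (hz : z < n),
  ∃ t, ((⟨x, hx⟩, ⟨z, hz⟩) : Fin L × Fin n) ∈ inf (pathGraph L □ pathGraph n) 2 (A L n s) t

theorem stepN {L n s : ℕ} (x z a1 a2 b1 b2 : ℕ) (ha1 : a1 < L) (ha2 : a2 < n) (hb1 : b1 < L)
    (hb2 : b2 < n) (hne : a1 ≠ b1 ∨ a2 ≠ b2)
    (ha : ((x + 1 = a1 ∨ a1 + 1 = x) ∧ z = a2) ∨ ((z + 1 = a2 ∨ a2 + 1 = z) ∧ x = a1))
    (hb : ((x + 1 = b1 ∨ b1 + 1 = x) ∧ z = b2) ∨ ((z + 1 = b2 ∨ b2 + 1 = z) ∧ x = b1))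
    (ra : Rn L n s a1 a2) (rb : Rn L n s b1 b2) : Rn L n s x z := by
  intro hx hz
  refine step _ _ _ (⟨a1, ha1⟩, ⟨a2, ha2⟩) (⟨b1, hb1⟩, ⟨b2, hb2⟩) ?_ ?_ ?_ (ra ha1 ha2)
    (rb hb1 hb2)
  · intro h
    rw [Prod.ext_iff, Fin.ext_iff, Fin.ext_iff] at h
    obtain ⟨h1, h2⟩ := h
    simp only at h1 h2
    omega
  · rw [adj_iff]; exact ha
  · rw [adj_iff]; exact hb

theorem fill {L n s : ℕ} (x z0 : ℕ) (hx : x + 1 < L) (hz0 : z0 < n) (hl : ∀ z, Rn L n s x z)
    (h0 : Rn L n s (x + 1) z0) : ∀ z, Rn L n s (x + 1) z := by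
  have up : ∀ k, z0 + k < n → Rn L n s (x + 1) (z0 + k) := by
    intro k
    induction k with
    | zero => intro _; exact h0
    | succ k ih =>
      intro hk
      exact stepN (x + 1) (z0 + (k + 1)) x (z0 + (k + 1)) (x + 1) (z0 + k) (by omega) hk hx
        (by omega) (by omega) (by omega) (by omega) (hl _) (ih (by omega))
  have dn : ∀ k, k ≤ z0 → Rn L n s (x + 1) (z0 - k) := by
    intro k
    induction k with
    | zero => intro _; exact h0
    | succ k ih =>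
      intro hk
      exact stepN (x + 1) (z0 - (k + 1)) x (z0 - (k + 1)) (x + 1) (z0 - k) (by omega) (by omega) hx
        (by omega) (by omega) (by omega) (by omega) (hl _) (ih (by omega))
  intro z hx' hz
  rcases Nat.lt_or_ge z z0 with h | h
  · have := dn (z0 - z) (by omega)
    rw [show z0 - (z0 - z) = z by omega] at this
    exact this hx' hz
  · have := up (z - z0) (by omega)
    rw [show z0 + (z - z0) = z by omega] at this
    exact this hx' hz

theorem mem_A {L n s x z : ℕ} (h : x ≤ s ∨ ∃ j, x = s + 2 + 2 * j ∧ D n j z = 0) :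
    Rn L n s x z := by
  intro hx hz
  exact ⟨0, h⟩

theorem perc {L n s J : ℕ} (hL : L = 2 * J + 1 + s) (hn : 2 ≤ n) :
    ∀ j, j ≤ J → ∀ x, x ≤ s + 2 * j → ∀ z, Rn L n s x z := by
  intro j
  induction j with
  | zero => intro _ x hx z; exact mem_A (Or.inl (by omega))
  | succ j ih =>
    intro hj x hx z
    have ih' := ih (by omega)
    set z0 : ℕ := if j % 2 = 0 then 0 else n - 1 with hz0
    have hz0n : z0 < n := by rw [hz0]; split_ifs <;> omega
    have hD : D n j z0 = 0 := by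
      unfold D
      rw [hz0]
      split_ifs <;> omega
    have hseed : Rn L n s (s + 2 * j + 1 + 1) z0 := mem_A (Or.inr ⟨j, by omega, hD⟩)
    have h1 : ∀ z, Rn L n s (s + 2 * j + 1) z := by
      refine fill (s + 2 * j) z0 (by omega) hz0n (fun z => ih' _ le_rfl z) ?_
      exact stepN (s + 2 * j + 1) z0 (s + 2 * j) z0 (s + 2 * j + 1 + 1) z0 (by omega) hz0n
        (by omega) hz0n (by omega) (by omega) (by omega) (ih' _ le_rfl _) hseed
    have h2 : ∀ z, Rn L n s (s + 2 * j + 1 + 1) z :=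
      fill (s + 2 * j + 1) z0 (by omega) hz0n h1 hseed
    rcases Nat.lt_or_ge x (s + 2 * j + 1) with h | h
    · exact ih' x (by omega) z
    · rcases Nat.lt_or_ge x (s + 2 * j + 1 + 1) with h' | h'
      · rw [show x = s + 2 * j + 1 by omega]; exact h1 z
      · rw [show x = s + 2 * j + 1 + 1 by omega]; exact h2 z

theorem main (L n s J : ℕ) (hL : L = 2 * J + 1 + s) (hJ : 1 ≤ J) (hn : 2 ≤ n) :
    Slow (pathGraph L □ pathGraph n) 2 (J * (n + 1)) := by
  refine ⟨A L n s, ?_, ?_⟩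
  · refine all _ _ fun v => ?_
    have := perc hL hn J le_rfl v.1 (by have := v.1.2; omega) v.2 v.1.2 v.2.2
    simpa using this
  · intro t ht hu
    obtain ⟨j, rfl⟩ : ∃ j, J = j + 1 := ⟨J - 1, by omega⟩
    set z1 : ℕ := if j % 2 = 0 then n - 1 else 0 with hz1
    have hz1n : z1 < n := by rw [hz1]; split_ifs <;> omega
    have hD : D n j z1 = n - 1 := by
      unfold D
      rw [hz1]
      split_ifs <;> omega
    have hx : s + 2 + 2 * j < L := by omega
    have h1 : ((⟨s + 2 + 2 * j, hx⟩, ⟨z1, hz1n⟩) : Fin L × Fin n) ∈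
        inf (pathGraph L □ pathGraph n) 2 (A L n s) t := by rw [hu]; trivial
    have h2 := low (pathGraph L □ pathGraph n) (A L n s) (fun v => tau s n v.1 v.2)
      (fun v hv => A_zero v hv) (fun v => count s hn v) t _ h1
    simp only at h2
    rw [tau_even, hD, if_neg (by omega)] at h2
    have e2 : (j + 1) * (n + 1) = j * (n + 1) + n + 1 := by ring
    rw [e2] at ht
    omega

end Strip

theorem tTStrip : TStrip := by
  intro L n hL hn
  obtain ⟨J, s, hs, e⟩ : ∃ J s, s ≤ 1 ∧ L = 2 * J + 1 + s :=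
    ⟨(L - 1) / 2, (L - 1) % 2, by omega, by omega⟩
  refine ⟨J * (n + 1), ?_, Strip.main L n s J e (by omega) (by omega)⟩
  have h1 : L ≤ 4 * J := by omega
  calc L * n ≤ (4 * J) * (n + 1) := Nat.mul_le_mul h1 (Nat.le_succ n)
    _ ≤ 8 * (J * (n + 1)) := by nlinarith [Nat.zero_le (J * (n + 1))]

end Pool.Agent.H132R3.BP
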