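import Pool.Agent.H132F.Stmts

set_option autoImplicit false

/-! # Task TThin2 of project H132-BP: a snake in a two-dimensional grid -/

namespace Pool.Agent.H132R3.BP

open SimpleGraph

namespace T2

/-- the points of the snake -/
def SS (a b x y : ℕ) : Prop :=
  x < a ∧ y ≤ 3 * ((b - 1) / 3) ∧ (y = 0 ∨ (y % 3 = 0 ∧ 4 ≤ x) ∨
    (y % 3 ≠ 0 ∧ ((((y + 2) / 3) % 2 = 1 ∧ x = a - 1) ∨ (((y + 2) / 3) % 2 = 0 ∧ x = 4))))

/-- the position inside the block -/
def gg (a x y : ℕ) : ℕ :=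
  if y % 3 = 1 then 2 else if y % 3 = 2 then 3 else if ((y + 2) / 3) % 2 = 1 then a + 3 - x else x

/-- the index along the snake -/
def ix (a x y : ℕ) : ℕ := ((y + 2) / 3) * (a - 2) + gg a x y

lemma gg_lt {a b x y : ℕ} (ha : 20 ≤ a) (h : SS a b x y) : gg a x y < a := by
  have := ha
  obtain ⟨h1, h2, h3⟩ := h
  unfold gg
  split_ifs <;> omega

lemma gg_ge {a b x y : ℕ} (ha : 20 ≤ a) (h : SS a b x y) (hy : y ≠ 0) : 2 ≤ gg a x y := by
  obtain ⟨h1, h2, h3⟩ := h
  unfold gg
  split_ifs <;> omega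

lemma block_lt {m m' N : ℕ} (h : m < m') : m * N + N ≤ m' * N := by
  have := Nat.mul_le_mul_right N (Nat.succ_le_of_lt h)
  rw [Nat.succ_mul] at this
  exact this

lemma ix_lt_of {a b x y x' y' : ℕ} (ha : 20 ≤ a) (h : SS a b x y) (h' : SS a b x' y')
    (hm : (y + 2) / 3 < (y' + 2) / 3) : ix a x y < ix a x' y' := by
  have h1 := gg_lt ha h
  have h2 := gg_ge ha h' (by omega)
  have h3 := block_lt (N := a - 2) hm
  unfold ix
  omega

lemma ix_inj {a b x y x' y' : ℕ} (ha : 20 ≤ a) (h : SS a b x y) (h' : SS a b x' y')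
    (he : ix a x y = ix a x' y') : x = x' ∧ y = y' := by
  rcases lt_trichotomy ((y + 2) / 3) ((y' + 2) / 3) with hm | hm | hm
  · exact absurd he (ix_lt_of ha h h' hm).ne
  · unfold ix at he
    rw [hm] at he
    have hg : gg a x y = gg a x' y' := by omega
    obtain ⟨h1, h2, h3⟩ := h
    obtain ⟨h1', h2', h3'⟩ := h'
    unfold gg at hg
    split_ifs at hg <;> omega
  · exact absurd he (ix_lt_of ha h' h hm).ne'

/-- the length of the snake -/
def len (a b : ℕ) : ℕ := ((b - 1) / 3 + 1) * (a - 2) + 2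

lemma ix_lt_len {a b x y : ℕ} (ha : 20 ≤ a) (h : SS a b x y) : ix a x y < len a b := by
  have h1 := gg_lt ha h
  have h2 : (y + 2) / 3 < (b - 1) / 3 + 1 := by
    have := h.2.1
    omega
  have h3 := block_lt (N := a - 2) h2
  unfold ix len
  omega

lemma ix_surj {a b i : ℕ} (ha : 20 ≤ a) (hi : i < len a b) : ∃ x y, SS a b x y ∧ ix a x y = i := by
  rcases Nat.lt_or_ge i 2 with h2 | h2
  · refine ⟨i, 0, ⟨by omega, by omega, Or.inl rfl⟩, ?_⟩
    simp [ix, gg]
  · obtain ⟨m, r, hr, hmr⟩ : ∃ m r, r < a - 2 ∧ i = m * (a - 2) + r + 2 := by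
      refine ⟨(i - 2) / (a - 2), (i - 2) % (a - 2), Nat.mod_lt _ (by omega), ?_⟩
      have := Nat.div_add_mod (i - 2) (a - 2)
      rw [Nat.mul_comm] at this
      omega
    have hmK : m < (b - 1) / 3 + 1 := by
      by_contra hcon
      push Not at hcon
      have := Nat.mul_le_mul_right (a - 2) hcon
      unfold len at hi
      omega
    rcases Nat.eq_zero_or_pos m with hm | hm
    · subst hm
      refine ⟨i, 0, ⟨by omega, by omega, Or.inl rfl⟩, ?_⟩
      simp [ix, gg]
    rcases Nat.mod_two_eq_zero_or_one m with hp | hp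
    · -- `m` even
      rcases Nat.lt_or_ge r 2 with hr2 | hr2
      · refine ⟨4, 3 * m - 2 + r, ⟨by omega, by omega, Or.inr (Or.inr ⟨by omega, Or.inr ⟨by omega, rfl⟩⟩)⟩, ?_⟩
        have e : (3 * m - 2 + r + 2) / 3 = m := by omega
        unfold ix gg
        rw [e]
        split_ifs <;> omega
      · refine ⟨r + 2, 3 * m, ⟨by omega, by omega, Or.inr (Or.inl ⟨by omega, by omega⟩)⟩, ?_⟩
        have e : (3 * m + 2) / 3 = m := by omega
        unfold ix gg
        rw [e]
        split_ifs <;> omega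
    · rcases Nat.lt_or_ge r 2 with hr2 | hr2
      · refine ⟨a - 1, 3 * m - 2 + r, ⟨by omega, by omega, Or.inr (Or.inr ⟨by omega, Or.inl ⟨by omega, rfl⟩⟩)⟩, ?_⟩
        have e : (3 * m - 2 + r + 2) / 3 = m := by omega
        unfold ix gg
        rw [e]
        split_ifs <;> omega
      · refine ⟨a + 1 - r, 3 * m, ⟨by omega, by omega, Or.inr (Or.inl ⟨by omega, by omega⟩)⟩, ?_⟩
        have e : (3 * m + 2) / 3 = m := by omega
        unfold ix gg
        rw [e]
        split_ifs <;> omega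

lemma hor {a b x y : ℕ} (ha : 20 ≤ a) (h : SS a b x y) (h' : SS a b (x + 1) y) :
    ix a x y + 1 = ix a (x + 1) y ∨ ix a (x + 1) y + 1 = ix a x y := by
  obtain ⟨h1, h2, h3⟩ := h
  obtain ⟨h1', h2', h3'⟩ := h'
  unfold ix gg
  split_ifs <;> omega

lemma ver {a b x y : ℕ} (ha : 20 ≤ a) (h : SS a b x y) (h' : SS a b x (y + 1)) :
    ix a x y + 1 = ix a x (y + 1) ∨ ix a x (y + 1) + 1 = ix a x y := by
  obtain ⟨h1, h2, h3⟩ := h
  obtain ⟨h1', h2', h3'⟩ := h'
  unfold ix gg
  rcases (show (y + 1 + 2) / 3 = (y + 2) / 3 ∨ (y + 1 + 2) / 3 = (y + 2) / 3 + 1 by omega) with e | e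
  · rw [e]
    split_ifs <;> omega
  · rw [e, Nat.add_mul, Nat.one_mul]
    split_ifs <;> omega

/-- adjacency of two points -/
def Nb (x y x' y' : ℕ) : Prop :=
  (y = y' ∧ (x + 1 = x' ∨ x' + 1 = x)) ∨ (x = x' ∧ (y + 1 = y' ∨ y' + 1 = y))

lemma nb_ix {a b x y x' y' : ℕ} (ha : 20 ≤ a) (h : SS a b x y) (h' : SS a b x' y')
    (hn : Nb x y x' y') : ix a x y + 1 = ix a x' y' ∨ ix a x' y' + 1 = ix a x y := by
  rcases hn with ⟨rfl, rfl | rfl⟩ | ⟨rfl, rfl | rfl⟩
  · exact hor ha h h'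
  · exact (hor ha h' h).symm
  · exact ver ha h h'
  · exact (ver ha h' h).symm

lemma next {a b x y : ℕ} (ha : 20 ≤ a) (h : SS a b x y) (hl : ix a x y + 1 < len a b) :
    ∃ x' y', SS a b x' y' ∧ ix a x' y' = ix a x y + 1 ∧ Nb x y x' y' := by
  obtain ⟨h1, h2, h3⟩ := h
  -- last row: the block index is smaller than the number of rows
  have key : ∀ (m : ℕ), m * (a - 2) + a < ((b - 1) / 3 + 1) * (a - 2) + 2 → m < (b - 1) / 3 := by
    intro m hm
    by_contra hcon
    push Not at hcon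
    have := Nat.mul_le_mul_right (a - 2) (Nat.succ_le_succ hcon)
    rw [Nat.succ_mul, Nat.succ_mul] at this
    rw [Nat.add_mul, Nat.one_mul] at hm
    omega
  rcases (show y % 3 = 1 ∨ y % 3 = 2 ∨ y % 3 = 0 by omega) with hy | hy | hy
  · refine ⟨x, y + 1, ⟨h1, by omega, by omega⟩, ?_, Or.inr ⟨rfl, Or.inl rfl⟩⟩
    unfold ix gg
    rw [show (y + 1 + 2) / 3 = (y + 2) / 3 by omega]
    split_ifs <;> omega
  · refine ⟨x, y + 1, ⟨h1, by omega, by omega⟩, ?_, Or.inr ⟨rfl, Or.inl rfl⟩⟩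
    unfold ix gg
    rw [show (y + 1 + 2) / 3 = (y + 2) / 3 by omega]
    split_ifs <;> omega
  · rcases Nat.mod_two_eq_zero_or_one ((y + 2) / 3) with hp | hp
    · -- row traversed from left to right
      by_cases hx : x + 1 < a
      · refine ⟨x + 1, y, ⟨hx, h2, by omega⟩, ?_, Or.inl ⟨rfl, Or.inl rfl⟩⟩
        unfold ix gg
        split_ifs <;> omega
      · have hm : (y + 2) / 3 < (b - 1) / 3 := by
          apply key
          unfold ix gg len at hl
          split_ifs at hl <;> omega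
        refine ⟨x, y + 1, ⟨h1, by omega, by omega⟩, ?_, Or.inr ⟨rfl, Or.inl rfl⟩⟩
        unfold ix gg
        rw [show (y + 1 + 2) / 3 = (y + 2) / 3 + 1 by omega, Nat.add_mul, Nat.one_mul]
        split_ifs <;> omega
    · by_cases hx : 5 ≤ x
      · refine ⟨x - 1, y, ⟨by omega, h2, by omega⟩, ?_, Or.inl ⟨rfl, Or.inr (by omega)⟩⟩
        unfold ix gg
        split_ifs <;> omega
      · have hm : (y + 2) / 3 < (b - 1) / 3 := by
          apply key
          unfold ix gg len at hl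
          split_ifs at hl <;> omega
        refine ⟨x, y + 1, ⟨h1, by omega, by omega⟩, ?_, Or.inr ⟨rfl, Or.inl rfl⟩⟩
        unfold ix gg
        rw [show (y + 1 + 2) / 3 = (y + 2) / 3 + 1 by omega, Nat.add_mul, Nat.one_mul]
        split_ifs <;> omega

/-- the two possible neighbours on the snake of a point off the snake -/
lemma out {a b x y x' y' : ℕ} (ha : 20 ≤ a) (hx : x < a) (hy : y < b) (h : ¬ SS a b x y)
    (h' : SS a b x' y') (hn : Nb x y x' y') :
    (x' = (if ((y + 2) / 3) % 2 = 1 then a - 1 else 4) ∧ y' = y) ∨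
    (x' = (if y % 3 = 0 then x + 1 else x) ∧ y' = (if y % 3 = 0 then y else if y % 3 = 1 then y - 1
      else y + 1)) := by
  obtain ⟨h1', h2', h3'⟩ := h'
  unfold SS at h
  rcases hn with ⟨rfl, rfl | rfl⟩ | ⟨rfl, rfl | rfl⟩ <;> split_ifs <;> omega

end T2

open T2

theorem tTThin2 : TThin2 := by
  intro a b ha hb
  have hS : ∀ i : Fin (len a b), ∃ x y, SS a b x y ∧ ix a x y = i := fun i => ix_surj ha i.2
  choose X Y hXY hI using hS
  have hXa : ∀ i, X i < a := fun i => (hXY i).1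
  have hYb : ∀ i, Y i < b := fun i => by
    have := (hXY i).2.1
    omega
  have hadj : ∀ (u v : Fin a × Fin b), (pathGraph a □ pathGraph b).Adj u v ↔
      Nb u.1 u.2 v.1 v.2 := by
    intro u v
    rw [boxProd_adj, pathGraph_adj, pathGraph_adj]
    unfold Nb
    simp only [Fin.ext_iff]
    tauto
  refine ⟨len a b, fun i => (⟨X i, hXa i⟩, ⟨Y i, hYb i⟩), ?_, ⟨?_, ?_, ?_⟩, ?_, ?_⟩
  · have h1 : b ≤ 3 * ((b - 1) / 3 + 1) := by omega
    have h2 : a ≤ 2 * (a - 2) := by omega
    have h3 := Nat.mul_le_mul h2 h1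
    unfold len
    nlinarith
  · intro i j hij
    simp only [Prod.mk.injEq, Fin.mk.injEq] at hij
    apply Fin.ext
    rw [← hI i, ← hI j, hij.1, hij.2]
  · intro i j
    rw [hadj, pathGraph_adj]
    simp only
    constructor
    · intro h
      have := nb_ix ha (hXY i) (hXY j) h
      rw [hI i, hI j] at this
      exact this
    · have key : ∀ i j : Fin (len a b), (i : ℕ) + 1 = j → Nb (X i) (Y i) (X j) (Y j) := by
        intro i j hij
        obtain ⟨x', y', h1, h2, h3⟩ := next ha (hXY i) (by rw [hI i, hij]; exact j.2)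
        have h4 := ix_inj ha h1 (hXY j) (by rw [h2, hI i, hI j, hij])
        rw [← h4.1, ← h4.2]
        exact h3
      rintro (h | h)
      · exact key i j h
      · have := key j i h
        unfold Nb at this ⊢
        omega
  · rintro ⟨x, y⟩ hw
    have hns : ¬ SS a b x y := by
      intro hs
      apply hw
      refine ⟨⟨ix a x y, ix_lt_len ha hs⟩, ?_⟩
      have := ix_inj ha (hXY ⟨ix a x y, ix_lt_len ha hs⟩) hs (hI _)
      ext
      · exact this.1
      · exact this.2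
    set f : Fin a × Fin b → ℕ × ℕ := fun u => ((u.1 : ℕ), (u.2 : ℕ)) with hf
    have hfi : Function.Injective f := by
      rintro ⟨u1, u2⟩ ⟨v1, v2⟩ h
      simp only [hf, Prod.mk.injEq] at h
      exact Prod.ext (Fin.ext h.1) (Fin.ext h.2)
    rw [← Set.ncard_image_of_injective _ hfi]
    refine (Set.ncard_le_ncard (t := {((if (((y : ℕ) + 2) / 3) % 2 = 1 then a - 1 else 4), (y : ℕ)),
      ((if (y : ℕ) % 3 = 0 then (x : ℕ) + 1 else x), (if (y : ℕ) % 3 = 0 then (y : ℕ)
        else if (y : ℕ) % 3 = 1 then (y : ℕ) - 1 else (y : ℕ) + 1))}) ?_ (Set.toFinite _)).trans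
      ((Set.ncard_insert_le _ _).trans (by rw [Set.ncard_singleton]))
    rintro _ ⟨w, ⟨hw1, ⟨j, rfl⟩⟩, rfl⟩
    rw [mem_neighborSet, hadj] at hw1
    have h := out ha x.2 y.2 hns (hXY j) hw1
    simp only [hf, Set.mem_insert_iff, Set.mem_singleton_iff, Prod.mk.injEq]
    exact h
  · intro i hi
    have h0 : SS a b i 0 := ⟨by omega, by omega, Or.inl rfl⟩
    have h1 := ix_inj ha (hXY i) h0 (by rw [hI i]; simp [ix, gg])
    exact h1
  · intro i hi
    show 4 ≤ X i
    by_contra hcon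
    push Not at hcon
    have h1 := hXY i
    have hY0 : Y i = 0 := by
      obtain ⟨h2, h3, h4⟩ := h1
      omega
    have h2 := hI i
    rw [hY0] at h2
    simp [ix, gg] at h2
    omega

end Pool.Agent.H132R3.BP
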