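import Pool.Agent.H132F.MaxTime
import Pool.Agent.H132F.TArith1
import Pool.Agent.H132F.TArith2
import Pool.Agent.H132F.TBottom
import Pool.Agent.H132F.TCount1
import Pool.Agent.H132F.TCount2
import Pool.Agent.H132F.TCount3
import Pool.Agent.H132F.TDense
import Pool.Agent.H132F.TFold
import Pool.Agent.H132F.TGraded
import Pool.Agent.H132F.TGrow
import Pool.Agent.H132F.TIso
import Pool.Agent.H132F.TIso2
import Pool.Agent.H132F.TIso3
import Pool.Agent.H132F.TLead
import Pool.Agent.H132F.TPathC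
import Pool.Agent.H132F.TStrip
import Pool.Agent.H132F.TThin2

set_option autoImplicit false

namespace Pool.Agent.H132R3.BP

theorem pr_odd (d r : ℕ) (hr : 3 ≤ r) (hrd : r ≤ 2 * d + 1) (hor : Odd r ∨ r = 2 * d) : Pr r d :=
  main_pr tTFold tTDense (tTLead tTThin2) tTGraded (tTCount1 tTArith1) tTCount2 tTCount3
    (tTPathC tTArith2) tTBottom tTGrow tTStrip tTIso tTIso2 tTIso3 d r hr hrd hor

/-- the order of magnitude for all odd `r` and for `r = 2 d - 2` -/
theorem theta_odd (d r : ℕ) (hd : 2 ≤ d) (hr : 3 ≤ r) (hrd : r ≤ 2 * d - 1)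
    (hor : Odd r ∨ r = 2 * d - 2) :
    (fun n : ℕ => (maxTime r d n : ℝ)) =Θ[Filter.atTop] fun n : ℕ => (n : ℝ) ^ d := by
  obtain ⟨m, rfl⟩ : ∃ m, d = m + 1 := ⟨d - 1, by omega⟩
  exact theta_of_pr tTIso tTIso3 (pr_odd m r hr (by omega) (by
    rcases hor with h | h
    · exact Or.inl h
    · right; omega))

end Pool.Agent.H132R3.BP
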