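import Pool.Agent.H132F.Stmts4
import Pool.Agent.H132F.Assemble

set_option autoImplicit false

namespace Pool.Agent.H132R3.BP

open SimpleGraph

open Classical in
theorem exists_tau4 {V : Type} [Finite V] {Y : SimpleGraph V} {n L J : ℕ}
    {lam kap tht : V → ℕ} {φ : Fin L → V} {Wc : Set V} (hl : Line4 Y L lam kap tht φ Wc) :
    ∃ τ : V × Fin n → ℕ, TauSpec4 L J lam kap tht φ Wc τ := by
  have hlam : ∀ i : Fin L, 1 ≤ (i : ℕ) → lam (φ i) ≠ 0 := by
    intro i hi
    by_cases h3 : (i : ℕ) ≤ 3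
    · rw [(hl.lead i h3).1]; omega
    · have := hl.far i (by omega); omega
  refine ⟨fun v => if (v.2 : ℕ) = 0 ∨ kap v.1 = 0 ∨ tht v.1 = 0 then 0 else
    if lam v.1 = 0 then (if U0 (kap v.1) v.2 ∧ tht v.1 ≤ 2 then big L J else 0) else
    if v.1 ∈ Wc then (if 3 ≤ (v.2 : ℕ) then 0 else big L J) else
    if h : ∃ i : Fin L, φ i = v.1 then t2 L J ((Classical.choose h : Fin L) : ℕ) v.2
    else big L J, ?_, ?_, ?_, ?_, ?_, ?_⟩
  · intro y z h
    simp only
    rw [if_pos h]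
  · intro y z h1 h2 h3 h4
    simp only
    rw [if_neg (by tauto), if_pos h4]
  · intro i z hz hi
    have h5 := hl.high i
    have h0 := hlam i hi
    have hex : ∃ j : Fin L, φ j = φ i := ⟨i, rfl⟩
    have hch : Classical.choose hex = i := hl.inj (Classical.choose_spec hex)
    simp only
    rw [if_neg (by omega), if_neg h0, if_neg (hl.notMem i), dif_pos hex, hch]
  · intro w z hw hz
    have h1 := hl.whigh w hw
    simp only
    rw [if_neg (by omega), if_neg (by omega), if_pos hw, if_pos hz]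
  · intro w z hw hz1 hz2
    have h1 := hl.whigh w hw
    simp only
    rw [if_neg (by omega), if_neg (by omega), if_pos hw, if_neg (by omega)]
  · intro y z h1 h2 h3 h4 h5 h6
    have hex : ¬ ∃ i : Fin L, φ i = y := fun ⟨i, hi⟩ => h5 ⟨i, hi⟩
    simp only
    rw [if_neg (by tauto), if_neg h4, if_neg h6, dif_neg hex]

theorem slow_of_setup4 (c1 : UCount1) (c2 : UCount2) (c3a : UCount3a) (c3b : UCount3b)
    (c3c : UCount3c) (pc : UPathC) (bt : UBottom) (gr : UGrow) {V : Type} [Finite V]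
    {Y : SimpleGraph V} {n L J : ℕ} {lam kap tht : V → ℕ} {q : ℕ → ℕ → V} {φ : Fin L → V}
    {Wc : Set V} {τ : V × Fin n → ℕ} (S : Setup4 Y n L J lam kap tht q φ Wc τ) :
    Slow (Y □ pathGraph n) 4 (big L J) := by
  have hn := S.hn
  have hL := S.hL
  have hcount : ∀ v : V × Fin n,
      ((Y □ pathGraph n).neighborSet v ∩ {u | τ u + 2 ≤ τ v}).ncard < 4 := by
    rintro ⟨y, z⟩
    by_cases h0 : lam y = 0
    · have := c2 V Y n L J lam kap tht q φ Wc τ S y z h0; omega
    · by_cases hr : y ∈ Set.range φ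
      · obtain ⟨i, rfl⟩ := hr
        have hi : 1 ≤ (i : ℕ) := by
          by_contra hcon
          apply h0
          rw [(S.line.lead i (by omega)).1]; omega
        have := c1 V Y n L J lam kap tht q φ Wc τ S i z hi; omega
      · by_cases hw : y ∈ Wc
        · have := c3c V Y n L J lam kap tht q φ Wc τ S y z hw; omega
        · by_cases h1 : lam y = 1
          · have := c3b V Y n L J lam kap tht q φ Wc τ S y z h1 hr hw; omega
          · have := c3a V Y n L J lam kap tht q φ Wc τ S y z (by omega) hr hw; omega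
  refine ⟨{v | τ v = 0}, ?_, ?_⟩
  · apply perc_of_closed
    intro C hC hA
    have hC' : Closed4 (Y □ pathGraph n) C := hC
    have hA' : ∀ v, τ v = 0 → v ∈ C := fun v hv => hA hv
    have h1 := pc V Y n L J lam kap tht q φ Wc τ S C hC' hA'
    have h2 := bt V Y n L J lam kap tht q φ Wc τ S C hC' hA' (by
      intro i z hi hz
      apply h1 i z (by omega)
      have hbig : big L J = J * (L - 4) + L - 1 := rfl
      have ht : t2 L J i z = J * (L - 4) + L - 1 - i := by
        unfold t2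
        rw [if_neg (by omega), if_neg (by omega), if_pos (by omega)]
      rw [ht, hbig]
      omega)
    exact gr V Y n L J lam kap tht q φ Wc τ S C hC' hA' h2
  · intro t ht huniv
    have h1 := inf_subset_tau (Y □ pathGraph n) 4 {v | τ v = 0} τ (fun v hv => hv) hcount t
    have hi0 : 0 < L := by omega
    have hz4 : 4 < n := by omega
    have hl := S.line.lead ⟨0, hi0⟩ (by simp)
    have h2 : τ (φ ⟨0, hi0⟩, ⟨4, hz4⟩) = big L J := by
      rw [S.tau.bottom _ _ (by simp) (by rw [hl.2.1]; norm_num) (by rw [hl.2.2]; norm_num)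
        (by rw [hl.1])]
      rw [if_pos]
      refine ⟨?_, by rw [hl.2.2]⟩
      left
      refine ⟨rfl, ?_⟩
      rw [hl.2.1]; norm_num
    have h3 : (φ ⟨0, hi0⟩, (⟨4, hz4⟩ : Fin n)) ∈ inf (Y □ pathGraph n) 4 {v | τ v = 0} t := by
      rw [huniv]; trivial
    have h4 := h1 h3
    have h5 : τ (φ ⟨0, hi0⟩, ⟨4, hz4⟩) ≤ t := h4
    omega

theorem lead4_all (hc : UComp2) (ht : TThin2) (hb : UBase4) (hst : UStep4) (m : ℕ) :
    ULeadAt m := by
  induction m with
  | zero => exact hb hc ht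
  | succ m ih => exact hst ht m ih

theorem base_four (hLead : ∀ m, ULeadAt m) (hG : UGraded4) (c1 : UCount1) (c2 : UCount2)
    (c3a : UCount3a) (c3b : UCount3b) (c3c : UCount3c) (pc : UPathC) (bt : UBottom) (gr : UGrow)
    (hI : TIso) (hI2 : TIso2) (hI3 : TIso3) (m : ℕ) : Pr 4 (m + 3) := by
  obtain ⟨C, hC, hLm⟩ := hLead m
  refine ⟨8 * C, by omega, fun M n hM hn => ?_⟩
  obtain ⟨L, φ, Wc, hL, hLen, hline, -, -, -⟩ := hLm M n hM hn
  obtain ⟨q, hg⟩ := hG m M n (by omega) (by omega)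
  set J := (n - 6) / 2 with hJ
  obtain ⟨τ, hτ⟩ := exists_tau4 (n := n) (J := J) hline
  have S : Setup4 (((pathGraph M □ pathGraph n) □ pathGraph n) □ Grid m n) n L J
      (fun y => (y.1.1.1 : ℕ) + ∑ j, (y.2 j : ℕ)) (fun y => (y.1.1.2 : ℕ))
      (fun y => (y.1.2 : ℕ)) q φ Wc τ :=
    ⟨hn, hL, by omega, by omega, hg, hline, hτ⟩
  have hs := slow_of_setup4 c1 c2 c3a c3b c3c pc bt gr S
  refine ⟨big L J, ?_, ?_⟩
  · have h1 : n * L ≤ 8 * big L J := by
      have hb : J * (L - 4) ≤ big L J := by unfold big; omega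
      have h2 : n * L ≤ 8 * (J * (L - 4)) := by
        obtain ⟨b, rfl⟩ : ∃ b, L = b + 30 := ⟨L - 30, by omega⟩
        have hL4 : b + 30 - 4 = b + 26 := by omega
        rw [hL4]
        have hJ2 : n ≤ 2 * J + 7 := by omega
        have hJ3 : 12 ≤ J := by omega
        nlinarith
      omega
    calc M * n ^ (m + 3) = (M * n ^ (m + 2)) * n := by ring
      _ ≤ (C * L) * n := Nat.mul_le_mul_right _ hLen
      _ = C * (n * L) := by ring
      _ ≤ C * (8 * big L J) := Nat.mul_le_mul_left _ h1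
      _ = 8 * C * big L J := by ring
  · obtain ⟨e⟩ := hI m n
    obtain ⟨e'⟩ := hI (m + 1) n
    obtain ⟨e''⟩ := hI (m + 2) n
    have s1 := hI3 _ _ _ _ _ _ ⟨boxProdAssoc
      (((pathGraph M).boxProd (pathGraph n)).boxProd (pathGraph n)) (Grid m n) (pathGraph n)⟩ hs
    have s2 := hI3 _ _ _ _ _ _ (hI2 _ _ _ _
      (((pathGraph M).boxProd (pathGraph n)).boxProd (pathGraph n)) _
      ((Grid m n).boxProd (pathGraph n)) ((pathGraph n).boxProd (Grid m n)) ⟨Iso.refl⟩
      ⟨boxProdComm _ _⟩) s1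
    have s3 := hI3 _ _ _ _ _ _ (hI2 _ _ _ _
      (((pathGraph M).boxProd (pathGraph n)).boxProd (pathGraph n)) _
      ((pathGraph n).boxProd (Grid m n)) (Grid (m + 1) n) ⟨Iso.refl⟩ ⟨e.symm⟩) s2
    have s4 := hI3 _ _ _ _ _ _ ⟨boxProdAssoc ((pathGraph M).boxProd (pathGraph n))
      (pathGraph n) (Grid (m + 1) n)⟩ s3
    have s5 := hI3 _ _ _ _ _ _ (hI2 _ _ _ _ ((pathGraph M).boxProd (pathGraph n)) _
      ((pathGraph n).boxProd (Grid (m + 1) n)) (Grid (m + 2) n) ⟨Iso.refl⟩ ⟨e'.symm⟩) s4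
    have s6 := hI3 _ _ _ _ _ _ ⟨boxProdAssoc (pathGraph M) (pathGraph n) (Grid (m + 2) n)⟩ s5
    exact hI3 _ _ _ _ _ _ (hI2 _ _ _ _ (pathGraph M) _ ((pathGraph n).boxProd (Grid (m + 2) n))
      (Grid (m + 3) n) ⟨Iso.refl⟩ ⟨e''.symm⟩) s6

/-- all even `r` with `4 ≤ r ≤ 2 d - 2` (here `d` is the dimension minus one) -/
theorem even_pr (hF : TFold) (hD : TDense) (hLead : ∀ m, ULeadAt m) (hG : UGraded4)
    (c1 : UCount1) (c2 : UCount2) (c3a : UCount3a) (c3b : UCount3b) (c3c : UCount3c)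
    (pc : UPathC) (bt : UBottom) (gr : UGrow) (hS : TStrip) (hI : TIso) (hI2 : TIso2)
    (hI3 : TIso3) (d r : ℕ) (hr : 4 ≤ r) (hrd : r ≤ 2 * d) (hev : Even r) : Pr r d := by
  obtain ⟨s, hs⟩ := hev
  by_cases htop : r = 2 * d
  · have h1 := fold_steps hF hD hI hI2 hI3 (base_two hS hI2 hI3) (d - 1)
    have e1 : 2 + 2 * (d - 1) = r := by omega
    have e2 : 1 + (d - 1) = d := by omega
    rw [e1, e2] at h1
    exact h1
  · obtain ⟨k, hk⟩ : ∃ k, d = k + 3 + (s - 2) := ⟨d - 3 - (s - 2), by omega⟩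
    have h1 := fold_steps hF hD hI hI2 hI3
      (base_four hLead hG c1 c2 c3a c3b c3c pc bt gr hI hI2 hI3 k) (s - 2)
    have e1 : 4 + 2 * (s - 2) = r := by omega
    rw [e1, ← hk] at h1
    exact h1

end Pool.Agent.H132R3.BP
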