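import Pool.Agent.H132F.Assemble

set_option autoImplicit false

namespace Pool.Agent.H132R3.BP

open SimpleGraph

/-- the percolation time of `A` in `r`-neighbour bootstrap percolation on `[n]^d` -/
noncomputable def percTime (r d n : ℕ) (A : Set (Fin d → Fin n)) : ℕ :=
  sInf {t | inf (Grid d n) r A t = Set.univ}

/-- the maximum percolation time `M_r^d(n)` over all percolating sets -/
noncomputable def maxTime (r d n : ℕ) : ℕ :=
  sSup {T | ∃ A : Set (Fin d → Fin n), (∃ t, inf (Grid d n) r A t = Set.univ) ∧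
    percTime r d n A = T}

theorem inf_const {V : Type} (G : SimpleGraph V) (r : ℕ) (A : Set V) {t : ℕ}
    (h : inf G r A (t + 1) = inf G r A t) (s : ℕ) : inf G r A (t + s) = inf G r A t := by
  induction s with
  | zero => rfl
  | succ s ih =>
    have : inf G r A (t + s + 1) = inf G r A (t + s) ∪
      {v | r ≤ (G.neighborSet v ∩ inf G r A (t + s)).ncard} := rfl
    rw [← add_assoc, this, ih]
    exact h

theorem time_le_card {V : Type} [Finite V] (G : SimpleGraph V) (r : ℕ) (A : Set V)
    (h : ∃ t, inf G r A t = Set.univ) : sInf {t | inf G r A t = Set.univ} ≤ Nat.card V := by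
  have hmem : inf G r A (sInf {t | inf G r A t = Set.univ}) = Set.univ :=
    Nat.sInf_mem (s := {t | inf G r A t = Set.univ}) h
  have hne : ∀ t, t < sInf {t | inf G r A t = Set.univ} → inf G r A t ≠ Set.univ :=
    fun t ht => Nat.notMem_of_lt_sInf ht
  set T := sInf {t | inf G r A t = Set.univ} with hT
  have key : ∀ t, t ≤ T → t ≤ (inf G r A t).ncard := by
    intro t
    induction t with
    | zero => intro _; exact Nat.zero_le _
    | succ t ih =>
      intro ht
      have h1 := ih (by omega)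
      have h2 : inf G r A (t + 1) ≠ inf G r A t := by
        intro heq
        apply hne t (by omega)
        have h3 := inf_const G r A heq (T - t)
        rw [show t + (T - t) = T by omega] at h3
        rw [← h3, hmem]
      have h3 : inf G r A t ⊂ inf G r A (t + 1) :=
        (inf_subset_succ G r A t).ssubset_of_ne h2.symm
      have h4 := Set.ncard_lt_ncard h3 (Set.toFinite _)
      omega
  have h5 := key T le_rfl
  rw [hmem, Set.ncard_univ] at h5
  exact h5

theorem percTime_le (r d n : ℕ) (A : Set (Fin d → Fin n))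
    (h : ∃ t, inf (Grid d n) r A t = Set.univ) : percTime r d n A ≤ n ^ d := by
  have h1 := time_le_card (Grid d n) r A h
  have h2 : Nat.card (Fin d → Fin n) = n ^ d := by simp
  rw [h2] at h1
  exact h1

theorem maxTime_le (r d n : ℕ) : maxTime r d n ≤ n ^ d := by
  unfold maxTime
  by_cases hne : {T | ∃ A : Set (Fin d → Fin n), (∃ t, inf (Grid d n) r A t = Set.univ) ∧
    percTime r d n A = T}.Nonempty
  · apply csSup_le hne
    rintro T ⟨A, hA, rfl⟩
    exact percTime_le r d n A hA
  · rw [Set.not_nonempty_iff_eq_empty] at hne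
    rw [hne]
    simp

theorem le_maxTime {r d n T : ℕ} (h : Slow (Grid d n) r T) : T ≤ maxTime r d n := by
  obtain ⟨A, hA, hT⟩ := h
  have h1 : T ≤ percTime r d n A := by
    by_contra hcon
    push Not at hcon
    exact hT _ hcon (Nat.sInf_mem (s := {t | inf (Grid d n) r A t = Set.univ}) hA)
  refine h1.trans (le_csSup ⟨n ^ d, ?_⟩ ⟨A, hA, rfl⟩)
  rintro S ⟨B, hB, rfl⟩
  exact percTime_le r d n B hB

theorem maxTime_of_pr (hI : TIso) (hI3 : TIso3) {r m : ℕ} (h : Pr r m) :
    ∃ C : ℕ, 0 < C ∧ ∀ n : ℕ, 30 ≤ n → n ^ (m + 1) ≤ C * maxTime r (m + 1) n := by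
  obtain ⟨C, hC, h⟩ := h
  refine ⟨C, hC, fun n hn => ?_⟩
  obtain ⟨T, hT, hs⟩ := h n n hn hn
  obtain ⟨e⟩ := hI m n
  have h1 : Slow (Grid (m + 1) n) r T := hI3 _ _ _ _ _ _ ⟨e.symm⟩ hs
  calc n ^ (m + 1) = n * n ^ m := by ring
    _ ≤ C * T := hT
    _ ≤ C * maxTime r (m + 1) n := Nat.mul_le_mul_left _ (le_maxTime h1)

theorem theta_of_pr (hI : TIso) (hI3 : TIso3) {r m : ℕ} (h : Pr r m) :
    (fun n : ℕ => (maxTime r (m + 1) n : ℝ)) =Θ[Filter.atTop] fun n : ℕ => (n : ℝ) ^ (m + 1) := by
  obtain ⟨C, hC, h⟩ := maxTime_of_pr hI hI3 h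
  constructor
  · apply Asymptotics.IsBigO.of_bound 1
    refine Filter.Eventually.of_forall fun n => ?_
    have h1 : (maxTime r (m + 1) n : ℝ) ≤ (n : ℝ) ^ (m + 1) := by
      exact_mod_cast maxTime_le r (m + 1) n
    rw [Real.norm_of_nonneg (by positivity), Real.norm_of_nonneg (by positivity), one_mul]
    exact h1
  · apply Asymptotics.IsBigO.of_bound (C : ℝ)
    filter_upwards [Filter.eventually_ge_atTop 30] with n hn
    have h1 : (n : ℝ) ^ (m + 1) ≤ (C : ℝ) * (maxTime r (m + 1) n : ℝ) := by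
      exact_mod_cast h n hn
    rw [Real.norm_of_nonneg (by positivity), Real.norm_of_nonneg (by positivity)]
    exact h1

end Pool.Agent.H132R3.BP
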