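import Pool.Agent.H132F.Stmts

/-!
# Slow bootstrap percolation on grids, the case r = 4 (project H132-BP4, problem MP_fc3ed9_co)
-/

set_option autoImplicit false

namespace Pool.Agent.H132R3.BP

open SimpleGraph

/-- a graph with a grading `lam` (zero exactly on the plane `q k t`) and two heights
`kap, tht < n` -/
structure Graded4 {V : Type} (Y : SimpleGraph V) (n : ℕ) (lam kap tht : V → ℕ) (q : ℕ → ℕ → V) :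
    Prop where
  kap_lt : ∀ y, kap y < n
  tht_lt : ∀ y, tht y < n
  step : ∀ y y', Y.Adj y y' →
    (kap y = kap y' ∧ tht y = tht y' ∧ (lam y + 1 = lam y' ∨ lam y' + 1 = lam y)) ∨
      (lam y = lam y' ∧ tht y = tht y' ∧ (kap y + 1 = kap y' ∨ kap y' + 1 = kap y)) ∨
      (lam y = lam y' ∧ kap y = kap y' ∧ (tht y + 1 = tht y' ∨ tht y' + 1 = tht y))
  q_lam : ∀ k t, k < n → t < n → lam (q k t) = 0
  q_kap : ∀ k t, k < n → t < n → kap (q k t) = k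
  q_tht : ∀ k t, k < n → t < n → tht (q k t) = t
  q_uniq : ∀ y, lam y = 0 → y = q (kap y) (tht y)
  q_adjk : ∀ k t, k + 1 < n → t < n → Y.Adj (q k t) (q (k + 1) t)
  q_adjt : ∀ k t, k < n → t + 1 < n → Y.Adj (q k t) (q k (t + 1))
  down : ∀ y, 0 < lam y → ∃ y', Y.Adj y y' ∧ kap y' = kap y ∧ tht y' = tht y ∧ lam y' + 1 = lam y
  kdown : ∀ y, 0 < kap y → ∃ y', Y.Adj y y' ∧ lam y' = lam y ∧ tht y' = tht y ∧
    kap y' + 1 = kap y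
  tdown : ∀ y, 0 < tht y → ∃ y', Y.Adj y y' ∧ lam y' = lam y ∧ kap y' = kap y ∧
    tht y' + 1 = tht y
  kdown_uniq : ∀ y y' y'', Y.Adj y y' → Y.Adj y y'' → kap y' + 1 = kap y → kap y'' + 1 = kap y →
    y' = y''
  tdown_uniq : ∀ y y' y'', Y.Adj y y' → Y.Adj y y'' → tht y' + 1 = tht y → tht y'' + 1 = tht y →
    y' = y''
  tup_uniq : ∀ y y' y'', Y.Adj y y' → Y.Adj y y'' → tht y' = tht y + 1 → tht y'' = tht y + 1 →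
    y' = y''

/-- the line `φ` with its companion set `Wc` -/
structure Line4 {V : Type} (Y : SimpleGraph V) (L : ℕ) (lam kap tht : V → ℕ) (φ : Fin L → V)
    (Wc : Set V) : Prop where
  inj : Function.Injective φ
  adj : ∀ i j, Y.Adj (φ i) (φ j) ↔ (pathGraph L).Adj i j
  notMem : ∀ i, φ i ∉ Wc
  comp : ∀ i : Fin L, 1 ≤ (i : ℕ) → (Y.neighborSet (φ i) ∩ Wc).ncard = 1
  out : ∀ y, y ∉ Set.range φ → y ∉ Wc → (Y.neighborSet y ∩ (Set.range φ ∪ Wc)).ncard ≤ 3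
  out1 : ∀ y, y ∉ Set.range φ → y ∉ Wc → lam y = 1 → (kap y ≠ 5 ∨ tht y ≠ 2) →
    (Y.neighborSet y ∩ (Set.range φ ∪ Wc)).ncard ≤ 2
  lead : ∀ i : Fin L, (i : ℕ) ≤ 3 → lam (φ i) = i ∧ kap (φ i) = 5 ∧ tht (φ i) = 2
  far : ∀ i : Fin L, 3 ≤ (i : ℕ) → 3 ≤ lam (φ i)
  high : ∀ i : Fin L, 5 ≤ kap (φ i) ∧ 2 ≤ tht (φ i)
  whigh : ∀ w ∈ Wc, 4 ≤ kap w ∧ 2 ≤ tht w ∧ 1 ≤ lam w
  wlow : ∀ w ∈ Wc, lam w = 1 → kap w = 5 ∧ tht w = 3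

open Classical in
/-- the time function on `Y □ pathGraph n`, case `r = 4` -/
structure TauSpec4 {V : Type} {n : ℕ} (L J : ℕ) (lam kap tht : V → ℕ) (φ : Fin L → V) (Wc : Set V)
    (τ : V × Fin n → ℕ) : Prop where
  zero : ∀ (y : V) (z : Fin n), ((z : ℕ) = 0 ∨ kap y = 0 ∨ tht y = 0) → τ (y, z) = 0
  bottom : ∀ (y : V) (z : Fin n), (z : ℕ) ≠ 0 → kap y ≠ 0 → tht y ≠ 0 → lam y = 0 →
    τ (y, z) = if U0 (kap y) z ∧ tht y ≤ 2 then big L J else 0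
  line : ∀ (i : Fin L) (z : Fin n), (z : ℕ) ≠ 0 → 1 ≤ (i : ℕ) → τ (φ i, z) = t2 L J i z
  wzero : ∀ (w : V) (z : Fin n), w ∈ Wc → 3 ≤ (z : ℕ) → τ (w, z) = 0
  wbig : ∀ (w : V) (z : Fin n), w ∈ Wc → 1 ≤ (z : ℕ) → (z : ℕ) ≤ 2 → τ (w, z) = big L J
  outer : ∀ (y : V) (z : Fin n), (z : ℕ) ≠ 0 → kap y ≠ 0 → tht y ≠ 0 → lam y ≠ 0 →
    y ∉ Set.range φ → y ∉ Wc → τ (y, z) = big L J

/-- the standing assumptions of the construction for `r = 4` -/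
structure Setup4 {V : Type} (Y : SimpleGraph V) (n L J : ℕ) (lam kap tht : V → ℕ)
    (q : ℕ → ℕ → V) (φ : Fin L → V) (Wc : Set V) (τ : V × Fin n → ℕ) : Prop where
  hn : 30 ≤ n
  hL : 30 ≤ L
  hJ : 2 * J + 6 ≤ n
  hJ1 : 1 ≤ J
  graded : Graded4 Y n lam kap tht q
  line : Line4 Y L lam kap tht φ Wc
  tau : TauSpec4 L J lam kap tht φ Wc τ

/-- COMP2: a path in the plane with a companion set -/
def UComp2 : Prop := ∀ a b : ℕ, 30 ≤ a → 30 ≤ b → ∃ (L : ℕ) (p : Fin L → Fin a × Fin b)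
  (W : Set (Fin a × Fin b)), 30 ≤ L ∧ a * b ≤ 32 * L ∧ Function.Injective p ∧
  (∀ i j, (pathGraph a □ pathGraph b).Adj (p i) (p j) ↔ (pathGraph L).Adj i j) ∧
  (∀ i, p i ∉ W) ∧
  (∀ i : Fin L, 2 ≤ (i : ℕ) → ((pathGraph a □ pathGraph b).neighborSet (p i) ∩ W).ncard = 1) ∧
  (∀ i : Fin L, (i : ℕ) ≤ 1 → (pathGraph a □ pathGraph b).neighborSet (p i) ∩ W = ∅) ∧
  (∀ y, y ∉ Set.range p → y ∉ W →
    ((pathGraph a □ pathGraph b).neighborSet y ∩ (Set.range p ∪ W)).ncard ≤ 3) ∧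
  (∀ i : Fin L, (i : ℕ) ≤ 4 → ((p i).1 : ℕ) = i ∧ ((p i).2 : ℕ) = 5) ∧
  (∀ i : Fin L, 4 ≤ (i : ℕ) → 4 ≤ ((p i).1 : ℕ)) ∧
  (∀ i : Fin L, 5 ≤ ((p i).2 : ℕ)) ∧
  (∀ w ∈ W, 4 ≤ (w.2 : ℕ) ∧ 2 ≤ (w.1 : ℕ) ∧ ((w.1 : ℕ) = 2 → (w.2 : ℕ) = 4))

/-- the concrete line statement in `((P_M □ P_n) □ P_n) □ Grid m n` -/
def ULeadAt (m : ℕ) : Prop := ∃ C : ℕ, 0 < C ∧ ∀ M n : ℕ, 30 ≤ M → 30 ≤ n →
  ∃ (L : ℕ) (φ : Fin L → ((Fin M × Fin n) × Fin n) × (Fin m → Fin n))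
    (Wc : Set (((Fin M × Fin n) × Fin n) × (Fin m → Fin n))), 30 ≤ L ∧
    M * n ^ (m + 2) ≤ C * L ∧
    Line4 (((pathGraph M □ pathGraph n) □ pathGraph n) □ Grid m n) L
      (fun y => (y.1.1.1 : ℕ) + ∑ j, (y.2 j : ℕ)) (fun y => (y.1.1.2 : ℕ))
      (fun y => (y.1.2 : ℕ)) φ Wc ∧
    (∀ i : Fin L, (i : ℕ) ≤ 4 → ((φ i).1.1.1 : ℕ) = i ∧ ((φ i).1.1.2 : ℕ) = 5 ∧
      ((φ i).1.2 : ℕ) = 2 ∧ ∀ j, ((φ i).2 j : ℕ) = 0) ∧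
    (∀ i : Fin L, 4 ≤ (i : ℕ) → 4 ≤ ((φ i).1.1.1 : ℕ)) ∧
    (∀ w ∈ Wc, 1 ≤ (w.1.1.1 : ℕ) ∧ ((w.1.1.1 : ℕ) = 1 → (w.1.1.2 : ℕ) = 5 ∧ (w.1.2 : ℕ) = 3) ∧
      ((w.1.1.1 : ℕ) = 2 → (w.1.1.2 : ℕ) = 4))

/-- BASE4 -/
def UBase4 : Prop := UComp2 → TThin2 → ULeadAt 0

/-- STEP4 -/
def UStep4 : Prop := TThin2 → ∀ m, ULeadAt m → ULeadAt (m + 1)

/-- GRADED4 -/
def UGraded4 : Prop := ∀ m M n : ℕ, 1 ≤ M → 1 ≤ n →
  ∃ q : ℕ → ℕ → ((Fin M × Fin n) × Fin n) × (Fin m → Fin n),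
    Graded4 (((pathGraph M □ pathGraph n) □ pathGraph n) □ Grid m n) n
      (fun y => (y.1.1.1 : ℕ) + ∑ j, (y.2 j : ℕ)) (fun y => (y.1.1.2 : ℕ))
      (fun y => (y.1.2 : ℕ)) q

/-- COUNT1 for r = 4 (to be proved from ARITH1) -/
def UCount1 : Prop := ∀ (V : Type) [Finite V] (Y : SimpleGraph V) (n L J : ℕ)
  (lam kap tht : V → ℕ) (q : ℕ → ℕ → V) (φ : Fin L → V) (Wc : Set V) (τ : V × Fin n → ℕ),
  Setup4 Y n L J lam kap tht q φ Wc τ → ∀ (i : Fin L) (z : Fin n), 1 ≤ (i : ℕ) →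
    ((Y □ pathGraph n).neighborSet (φ i, z) ∩ {u | τ u + 2 ≤ τ (φ i, z)}).ncard ≤ 3

/-- COUNT2 for r = 4 -/
def UCount2 : Prop := ∀ (V : Type) [Finite V] (Y : SimpleGraph V) (n L J : ℕ)
  (lam kap tht : V → ℕ) (q : ℕ → ℕ → V) (φ : Fin L → V) (Wc : Set V) (τ : V × Fin n → ℕ),
  Setup4 Y n L J lam kap tht q φ Wc τ → ∀ (y : V) (z : Fin n), lam y = 0 →
    ((Y □ pathGraph n).neighborSet (y, z) ∩ {u | τ u + 2 ≤ τ (y, z)}).ncard ≤ 3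

/-- COUNT3a for r = 4 -/
def UCount3a : Prop := ∀ (V : Type) [Finite V] (Y : SimpleGraph V) (n L J : ℕ)
  (lam kap tht : V → ℕ) (q : ℕ → ℕ → V) (φ : Fin L → V) (Wc : Set V) (τ : V × Fin n → ℕ),
  Setup4 Y n L J lam kap tht q φ Wc τ → ∀ (y : V) (z : Fin n), 2 ≤ lam y →
    y ∉ Set.range φ → y ∉ Wc →
    ((Y □ pathGraph n).neighborSet (y, z) ∩ {u | τ u + 2 ≤ τ (y, z)}).ncard ≤ 3

/-- COUNT3b for r = 4 -/
def UCount3b : Prop := ∀ (V : Type) [Finite V] (Y : SimpleGraph V) (n L J : ℕ)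
  (lam kap tht : V → ℕ) (q : ℕ → ℕ → V) (φ : Fin L → V) (Wc : Set V) (τ : V × Fin n → ℕ),
  Setup4 Y n L J lam kap tht q φ Wc τ → ∀ (y : V) (z : Fin n), lam y = 1 →
    y ∉ Set.range φ → y ∉ Wc →
    ((Y □ pathGraph n).neighborSet (y, z) ∩ {u | τ u + 2 ≤ τ (y, z)}).ncard ≤ 3

/-- COUNT3c for r = 4 -/
def UCount3c : Prop := ∀ (V : Type) [Finite V] (Y : SimpleGraph V) (n L J : ℕ)
  (lam kap tht : V → ℕ) (q : ℕ → ℕ → V) (φ : Fin L → V) (Wc : Set V) (τ : V × Fin n → ℕ),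
  Setup4 Y n L J lam kap tht q φ Wc τ → ∀ (y : V) (z : Fin n), y ∈ Wc →
    ((Y □ pathGraph n).neighborSet (y, z) ∩ {u | τ u + 2 ≤ τ (y, z)}).ncard ≤ 3

/-- a set closed under the 4-neighbour rule -/
def Closed4 {W : Type} (G : SimpleGraph W) (C : Set W) : Prop :=
  ∀ v, 4 ≤ (G.neighborSet v ∩ C).ncard → v ∈ C

/-- PATHC for r = 4 (to be proved from ARITH2) -/
def UPathC : Prop := ∀ (V : Type) [Finite V] (Y : SimpleGraph V) (n L J : ℕ)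
  (lam kap tht : V → ℕ) (q : ℕ → ℕ → V) (φ : Fin L → V) (Wc : Set V) (τ : V × Fin n → ℕ),
  Setup4 Y n L J lam kap tht q φ Wc τ →
  ∀ C : Set (V × Fin n), Closed4 (Y □ pathGraph n) C → (∀ v, τ v = 0 → v ∈ C) →
    ∀ (i : Fin L) (z : Fin n), 1 ≤ (i : ℕ) → t2 L J i z < big L J → (φ i, z) ∈ C

/-- BOTTOM for r = 4 -/
def UBottom : Prop := ∀ (V : Type) [Finite V] (Y : SimpleGraph V) (n L J : ℕ)
  (lam kap tht : V → ℕ) (q : ℕ → ℕ → V) (φ : Fin L → V) (Wc : Set V) (τ : V × Fin n → ℕ),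
  Setup4 Y n L J lam kap tht q φ Wc τ →
  ∀ C : Set (V × Fin n), Closed4 (Y □ pathGraph n) C → (∀ v, τ v = 0 → v ∈ C) →
    (∀ (i : Fin L) (z : Fin n), (i : ℕ) = 1 → (z : ℕ) = 4 → (φ i, z) ∈ C) →
    ∀ (y : V) (z : Fin n), lam y = 0 → (y, z) ∈ C

/-- GROW for r = 4 -/
def UGrow : Prop := ∀ (V : Type) [Finite V] (Y : SimpleGraph V) (n L J : ℕ)
  (lam kap tht : V → ℕ) (q : ℕ → ℕ → V) (φ : Fin L → V) (Wc : Set V) (τ : V × Fin n → ℕ),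
  Setup4 Y n L J lam kap tht q φ Wc τ →
  ∀ C : Set (V × Fin n), Closed4 (Y □ pathGraph n) C → (∀ v, τ v = 0 → v ∈ C) →
    (∀ (y : V) (z : Fin n), lam y = 0 → (y, z) ∈ C) → C = Set.univ

end Pool.Agent.H132R3.BP
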