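import Pool.Agent.H132F.Stmts4

/-!
# BOTTOM for r = 4: once `(φ 1, 4)` is infected, the bottom slice `lam = 0` gets infected
-/

set_option autoImplicit false

namespace Pool.Agent.H132R3.BP

open SimpleGraph

theorem closed4_step {W : Type} [Finite W] (G : SimpleGraph W) (C : Set W) (hC : Closed4 G C)
    (v a b c d : W) (hab : a ≠ b) (hac : a ≠ c) (had : a ≠ d) (hbc : b ≠ c) (hbd : b ≠ d)
    (hcd : c ≠ d) (h1 : G.Adj v a) (h2 : G.Adj v b) (h3 : G.Adj v c) (h4 : G.Adj v d)
    (ha : a ∈ C) (hb : b ∈ C) (hc : c ∈ C) (hd : d ∈ C) : v ∈ C := by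
  classical
  apply hC
  have hsub : ({a, b, c, d} : Set W) ⊆ G.neighborSet v ∩ C := by
    intro x hx
    simp only [Set.mem_insert_iff, Set.mem_singleton_iff] at hx
    rcases hx with rfl | rfl | rfl | rfl
    · exact ⟨h1, ha⟩
    · exact ⟨h2, hb⟩
    · exact ⟨h3, hc⟩
    · exact ⟨h4, hd⟩
  have hcard : ({a, b, c, d} : Set W).ncard = 4 := by
    rw [Set.ncard_insert_of_notMem (by simp [hab, hac, had]) (Set.toFinite _),
      Set.ncard_eq_three.mpr ⟨b, c, d, hbc, hbd, hcd, rfl⟩]
  calc 4 = ({a, b, c, d} : Set W).ncard := hcard.symm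
    _ ≤ _ := Set.ncard_le_ncard hsub (Set.toFinite _)

/-- neighbouring triples -/
def Nb4 (k t z k' t' z' : ℕ) : Prop :=
  (k = k' ∧ t = t' ∧ (z + 1 = z' ∨ z' + 1 = z)) ∨ (k = k' ∧ z = z' ∧ (t + 1 = t' ∨ t' + 1 = t)) ∨
    (t = t' ∧ z = z' ∧ (k + 1 = k' ∨ k' + 1 = k))

theorem tUBottom : UBottom := by
  intro V _ Y n L J lam kap tht q φ Wc τ S C hC h0 h14
  have hn := S.hn
  have hL := S.hL
  have G := S.graded
  -- the free points
  have hfree : ∀ (k t z : ℕ) (hk : k < n) (ht : t < n) (hz : z < n),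
      (¬ U0 k z ∨ t = 0 ∨ 3 ≤ t) → (q k t, (⟨z, hz⟩ : Fin n)) ∈ C := by
    intro k t z hk ht hz h
    apply h0
    have hkap := G.q_kap k t hk ht
    have htht := G.q_tht k t hk ht
    have hlam := G.q_lam k t hk ht
    by_cases hz0 : z = 0
    · exact S.tau.zero _ _ (Or.inl hz0)
    · by_cases hk0 : k = 0
      · exact S.tau.zero _ _ (Or.inr (Or.inl (by rw [hkap]; exact hk0)))
      · by_cases ht0 : t = 0
        · exact S.tau.zero _ _ (Or.inr (Or.inr (by rw [htht]; exact ht0)))
        · have := S.tau.bottom (q k t) ⟨z, hz⟩ hz0 (by rw [hkap]; exact hk0)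
            (by rw [htht]; exact ht0) hlam
          rw [this, if_neg]
          rw [hkap, htht]
          rintro ⟨h1, h2⟩
          rcases h with h | h | h
          · exact h h1
          · exact ht0 h
          · omega
  -- adjacency
  have adjv : ∀ (y : V) (z z' : ℕ) (hz : z < n) (hz' : z' < n), (z + 1 = z' ∨ z' + 1 = z) →
      (Y □ pathGraph n).Adj (y, (⟨z, hz⟩ : Fin n)) (y, (⟨z', hz'⟩ : Fin n)) := by
    intro y z z' hz hz' h
    rw [boxProd_adj]
    right
    refine ⟨?_, rfl⟩
    rw [pathGraph_adj]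
    exact h
  have adjh : ∀ (y y' : V) (z : Fin n), Y.Adj y y' →
      (Y □ pathGraph n).Adj (y, z) (y', z) := by
    intro y y' z h
    rw [boxProd_adj]
    exact Or.inl ⟨h, rfl⟩
  have adj3 : ∀ (k t z k' t' z' : ℕ) (_ : k < n) (_ : t < n) (hz : z < n) (_ : k' < n)
      (_ : t' < n) (hz' : z' < n), Nb4 k t z k' t' z' →
      (Y □ pathGraph n).Adj (q k t, (⟨z, hz⟩ : Fin n)) (q k' t', (⟨z', hz'⟩ : Fin n)) := by
    intro k t z k' t' z' hk ht hz hk' ht' hz' h
    rcases h with ⟨rfl, rfl, h⟩ | ⟨rfl, rfl, h⟩ | ⟨rfl, rfl, h⟩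
    · exact adjv _ _ _ _ _ h
    · apply adjh
      rcases h with rfl | rfl
      · exact G.q_adjt _ _ hk ht'
      · exact (G.q_adjt _ _ hk ht).symm
    · apply adjh
      rcases h with rfl | rfl
      · exact G.q_adjk _ _ hk' ht
      · exact (G.q_adjk _ _ hk ht).symm
  have ne3 : ∀ (k t z k' t' z' : ℕ) (_ : k < n) (_ : t < n) (hz : z < n) (_ : k' < n)
      (_ : t' < n) (hz' : z' < n), (k ≠ k' ∨ t ≠ t' ∨ z ≠ z') →
      ((q k t, (⟨z, hz⟩ : Fin n)) : V × Fin n) ≠ (q k' t', (⟨z', hz'⟩ : Fin n)) := by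
    intro k t z k' t' z' hk ht hz hk' ht' hz' h he
    have h1 := congrArg (fun p : V × Fin n => kap p.1) he
    have h2 := congrArg (fun p : V × Fin n => tht p.1) he
    have h3 := congrArg (fun p : V × Fin n => (p.2 : ℕ)) he
    simp only [G.q_kap k t hk ht, G.q_kap k' t' hk' ht'] at h1
    simp only [G.q_tht k t hk ht, G.q_tht k' t' hk' ht'] at h2
    simp only at h3
    omega
  let P : ℕ → ℕ → ℕ → Prop := fun k t z => ∀ hz : z < n, (q k t, (⟨z, hz⟩ : Fin n)) ∈ C
  have hP0 : ∀ k t z : ℕ, k < n → t < n → (¬ U0 k z ∨ t = 0 ∨ 3 ≤ t) → P k t z :=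
    fun k t z hk ht h hz => hfree k t z hk ht hz h
  have key : ∀ k t z k1 t1 z1 k2 t2 z2 k3 t3 z3 k4 t4 z4 : ℕ,
      k < n → t < n → z < n → k1 < n → t1 < n → z1 < n → k2 < n → t2 < n → z2 < n →
      k3 < n → t3 < n → z3 < n → k4 < n → t4 < n → z4 < n →
      Nb4 k t z k1 t1 z1 → Nb4 k t z k2 t2 z2 → Nb4 k t z k3 t3 z3 → Nb4 k t z k4 t4 z4 →
      (k1 ≠ k2 ∨ t1 ≠ t2 ∨ z1 ≠ z2) → (k1 ≠ k3 ∨ t1 ≠ t3 ∨ z1 ≠ z3) →
      (k1 ≠ k4 ∨ t1 ≠ t4 ∨ z1 ≠ z4) → (k2 ≠ k3 ∨ t2 ≠ t3 ∨ z2 ≠ z3) →
      (k2 ≠ k4 ∨ t2 ≠ t4 ∨ z2 ≠ z4) → (k3 ≠ k4 ∨ t3 ≠ t4 ∨ z3 ≠ z4) →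
      P k1 t1 z1 → P k2 t2 z2 → P k3 t3 z3 → P k4 t4 z4 → P k t z := by
    intro k t z k1 t1 z1 k2 t2 z2 k3 t3 z3 k4 t4 z4 hk ht hz hk1 ht1 hz1 hk2 ht2 hz2 hk3 ht3 hz3
      hk4 ht4 hz4 n1 n2 n3 n4 d12 d13 d14 d23 d24 d34 p1 p2 p3 p4 hz'
    exact closed4_step _ C hC _ (q k1 t1, ⟨z1, hz1⟩) (q k2 t2, ⟨z2, hz2⟩) (q k3 t3, ⟨z3, hz3⟩)
      (q k4 t4, ⟨z4, hz4⟩) (ne3 _ _ _ _ _ _ hk1 ht1 hz1 hk2 ht2 hz2 d12)
      (ne3 _ _ _ _ _ _ hk1 ht1 hz1 hk3 ht3 hz3 d13) (ne3 _ _ _ _ _ _ hk1 ht1 hz1 hk4 ht4 hz4 d14)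
      (ne3 _ _ _ _ _ _ hk2 ht2 hz2 hk3 ht3 hz3 d23) (ne3 _ _ _ _ _ _ hk2 ht2 hz2 hk4 ht4 hz4 d24)
      (ne3 _ _ _ _ _ _ hk3 ht3 hz3 hk4 ht4 hz4 d34) (adj3 _ _ _ _ _ _ hk ht hz hk1 ht1 hz1 n1)
      (adj3 _ _ _ _ _ _ hk ht hz hk2 ht2 hz2 n2) (adj3 _ _ _ _ _ _ hk ht hz hk3 ht3 hz3 n3)
      (adj3 _ _ _ _ _ _ hk ht hz hk4 ht4 hz4 n4) (p1 hz1) (p2 hz2) (p3 hz3) (p4 hz4)
  -- the point `(φ 0, 4) = (q 5 2, 4)`
  have l0 : 0 < L := by omega
  have l1 : 1 < L := by omega
  have z4 : 4 < n := by omega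
  have z3 : 3 < n := by omega
  have z5 : 5 < n := by omega
  have hφ0 : φ ⟨0, l0⟩ = q 5 2 := by
    have h := S.line.lead ⟨0, l0⟩ (by simp)
    have h2 := G.q_uniq (φ ⟨0, l0⟩) h.1
    rw [h2, h.2.1, h.2.2]
  have h5 : P 5 2 4 := by
    intro hz'
    have had : Y.Adj (φ ⟨0, l0⟩) (φ ⟨1, l1⟩) := by
      rw [S.line.adj, pathGraph_adj]
      left
      rfl
    rw [hφ0] at had
    have hl1 := (S.line.lead ⟨1, l1⟩ (by simp)).1
    have hlq : lam (q 5 3) = 0 := G.q_lam 5 3 (by omega) (by omega)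
    refine closed4_step _ C hC _ (q 5 2, (⟨3, z3⟩ : Fin n)) (q 5 2, (⟨5, z5⟩ : Fin n))
      (q 5 3, (⟨4, z4⟩ : Fin n))
      (φ ⟨1, l1⟩, (⟨4, z4⟩ : Fin n)) (ne3 _ _ _ _ _ _ z5 (by omega) z3 z5 (by omega) z5 (by omega))
      (ne3 _ _ _ _ _ _ z5 (by omega) z3 z5 (by omega) z4 (by omega)) ?_
      (ne3 _ _ _ _ _ _ z5 (by omega) z5 z5 (by omega) z4 (by omega)) ?_ ?_
      (adjv _ _ _ _ _ (by omega)) (adjv _ _ _ _ _ (by omega))
      (adjh _ _ _ (G.q_adjt 5 2 (by omega) (by omega)))
      (adjh _ _ _ had) (hfree _ _ _ z5 (by omega) _ ?_) (hfree _ _ _ z5 (by omega) _ ?_)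
      (hfree _ _ _ z5 (by omega) _ (by omega)) (h14 _ _ rfl rfl)
    · intro he
      have := congrArg (fun p : V × Fin n => (p.2 : ℕ)) he
      simp at this
    · intro he
      have := congrArg (fun p : V × Fin n => (p.2 : ℕ)) he
      simp at this
    · intro he
      have := congrArg (fun p : V × Fin n => lam p.1) he
      simp only [hlq, hl1] at this
      omega
    · left; unfold U0; omega
    · left; unfold U0; omega
  have hNU : ∀ k z : ℕ, ¬ ((z = 4 ∧ 1 ≤ k) ∨ (k = 1 ∧ 1 ≤ z ∧ z ≤ 4) ∨ (z = 1 ∧ 1 ≤ k)) →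
      ¬ U0 k z := fun k z h => h
  -- level 2, row 4, up
  have hup : ∀ j : ℕ, 5 + j < n → P (5 + j) 2 4 := by
    intro j
    induction j with
    | zero => intro _; exact h5
    | succ j ih =>
      intro hj
      have ih' := ih (by omega)
      exact key (5 + (j + 1)) 2 4 (5 + (j + 1)) 2 3 (5 + (j + 1)) 2 5 (5 + (j + 1)) 3 4 (5 + j) 2 4
        (by omega) (by omega) (by omega) (by omega) (by omega) (by omega) (by omega) (by omega)
        (by omega) (by omega) (by omega) (by omega) (by omega) (by omega) (by omega)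
        (by unfold Nb4; omega) (by unfold Nb4; omega) (by unfold Nb4; omega) (by unfold Nb4; omega)
        (by omega) (by omega) (by omega) (by omega) (by omega) (by omega)
        (hP0 _ _ _ (by omega) (by omega) (Or.inl (hNU _ _ (by omega))))
        (hP0 _ _ _ (by omega) (by omega) (Or.inl (hNU _ _ (by omega))))
        (hP0 _ _ _ (by omega) (by omega) (by omega)) ih'
  -- level 2, row 4, down
  have hdown : ∀ j : ℕ, j ≤ 3 → P (5 - j) 2 4 := by
    intro j
    induction j with
    | zero => intro _; exact h5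
    | succ j ih =>
      intro hj
      have ih' := ih (by omega)
      exact key (5 - (j + 1)) 2 4 (5 - (j + 1)) 2 3 (5 - (j + 1)) 2 5 (5 - (j + 1)) 3 4 (5 - j) 2 4
        (by omega) (by omega) (by omega) (by omega) (by omega) (by omega) (by omega) (by omega)
        (by omega) (by omega) (by omega) (by omega) (by omega) (by omega) (by omega)
        (by unfold Nb4; omega) (by unfold Nb4; omega) (by unfold Nb4; omega) (by unfold Nb4; omega)
        (by omega) (by omega) (by omega) (by omega) (by omega) (by omega)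
        (hP0 _ _ _ (by omega) (by omega) (Or.inl (hNU _ _ (by omega))))
        (hP0 _ _ _ (by omega) (by omega) (Or.inl (hNU _ _ (by omega))))
        (hP0 _ _ _ (by omega) (by omega) (by omega)) ih'
  have h24 : P 2 2 4 := hdown 3 le_rfl
  have h1q4 : P 1 2 4 :=
    key 1 2 4 0 2 4 2 2 4 1 3 4 1 2 5
      (by omega) (by omega) (by omega) (by omega) (by omega) (by omega) (by omega) (by omega)
      (by omega) (by omega) (by omega) (by omega) (by omega) (by omega) (by omega)
      (by unfold Nb4; omega) (by unfold Nb4; omega) (by unfold Nb4; omega) (by unfold Nb4; omega)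
      (by omega) (by omega) (by omega) (by omega) (by omega) (by omega)
      (hP0 _ _ _ (by omega) (by omega) (Or.inl (hNU _ _ (by omega)))) h24
      (hP0 _ _ _ (by omega) (by omega) (by omega))
      (hP0 _ _ _ (by omega) (by omega) (Or.inl (hNU _ _ (by omega))))
  have hcol : ∀ z : ℕ, (z = 3 ∨ z = 2) → P 1 2 (z + 1) → P 1 2 z := by
    intro z h hprev
    exact key 1 2 z 0 2 z 2 2 z 1 3 z 1 2 (z + 1)
      (by omega) (by omega) (by omega) (by omega) (by omega) (by omega) (by omega) (by omega)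
      (by omega) (by omega) (by omega) (by omega) (by omega) (by omega) (by omega)
      (by unfold Nb4; omega) (by unfold Nb4; omega) (by unfold Nb4; omega) (by unfold Nb4; omega)
      (by omega) (by omega) (by omega) (by omega) (by omega) (by omega)
      (hP0 _ _ _ (by omega) (by omega) (Or.inl (hNU _ _ (by omega))))
      (hP0 _ _ _ (by omega) (by omega) (Or.inl (hNU _ _ (by omega))))
      (hP0 _ _ _ (by omega) (by omega) (by omega)) hprev
  have h13 : P 1 2 3 := hcol 3 (Or.inl rfl) h1q4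
  have h12 : P 1 2 2 := hcol 2 (Or.inr rfl) h13
  have h11 : P 1 2 1 :=
    key 1 2 1 0 2 1 1 2 0 1 3 1 1 2 2
      (by omega) (by omega) (by omega) (by omega) (by omega) (by omega) (by omega) (by omega)
      (by omega) (by omega) (by omega) (by omega) (by omega) (by omega) (by omega)
      (by unfold Nb4; omega) (by unfold Nb4; omega) (by unfold Nb4; omega) (by unfold Nb4; omega)
      (by omega) (by omega) (by omega) (by omega) (by omega) (by omega)
      (hP0 _ _ _ (by omega) (by omega) (Or.inl (hNU _ _ (by omega))))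
      (hP0 _ _ _ (by omega) (by omega) (Or.inl (hNU _ _ (by omega))))
      (hP0 _ _ _ (by omega) (by omega) (by omega)) h12
  have hrow : ∀ j : ℕ, 1 + j < n → P (1 + j) 2 1 := by
    intro j
    induction j with
    | zero => intro _; exact h11
    | succ j ih =>
      intro hj
      have ih' := ih (by omega)
      exact key (1 + (j + 1)) 2 1 (1 + (j + 1)) 2 0 (1 + (j + 1)) 2 2 (1 + (j + 1)) 3 1 (1 + j) 2 1
        (by omega) (by omega) (by omega) (by omega) (by omega) (by omega) (by omega) (by omega)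
        (by omega) (by omega) (by omega) (by omega) (by omega) (by omega) (by omega)
        (by unfold Nb4; omega) (by unfold Nb4; omega) (by unfold Nb4; omega) (by unfold Nb4; omega)
        (by omega) (by omega) (by omega) (by omega) (by omega) (by omega)
        (hP0 _ _ _ (by omega) (by omega) (Or.inl (hNU _ _ (by omega))))
        (hP0 _ _ _ (by omega) (by omega) (Or.inl (hNU _ _ (by omega))))
        (hP0 _ _ _ (by omega) (by omega) (by omega)) ih'
  -- all of level 2
  have hlev2 : ∀ k z : ℕ, k < n → P k 2 z := by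
    intro k z hk
    by_cases hU : (z = 4 ∧ 1 ≤ k) ∨ (k = 1 ∧ 1 ≤ z ∧ z ≤ 4) ∨ (z = 1 ∧ 1 ≤ k)
    · rcases hU with ⟨hz4, hk1⟩ | ⟨hk1, hz1, hz4⟩ | ⟨hz1, hk1⟩
      · subst hz4
        by_cases hk5 : 5 ≤ k
        · have h := hup (k - 5) (by omega)
          have he : 5 + (k - 5) = k := by omega
          rw [he] at h
          exact h
        · by_cases hk2 : 2 ≤ k
          · have h := hdown (5 - k) (by omega)
            have he : 5 - (5 - k) = k := by omega
            rw [he] at h
            exact h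
          · have he : k = 1 := by omega
            subst he
            exact h1q4
      · subst hk1
        have : z = 1 ∨ z = 2 ∨ z = 3 ∨ z = 4 := by omega
        rcases this with rfl | rfl | rfl | rfl
        · exact h11
        · exact h12
        · exact h13
        · exact h1q4
      · subst hz1
        have h := hrow (k - 1) (by omega)
        have he : 1 + (k - 1) = k := by omega
        rw [he] at h
        exact h
    · exact hP0 k 2 z hk (by omega) (Or.inl (hNU _ _ hU))
  -- level 1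
  have hlev1 : ∀ k z : ℕ, k < n → z < n → P k 1 z := by
    intro k z hk hz
    have hz0 : P k 0 z := hP0 k 0 z hk (by omega) (by omega)
    have hz2 : P k 2 z := hlev2 k z hk
    by_cases hU : (z = 4 ∧ 1 ≤ k) ∨ (k = 1 ∧ 1 ≤ z ∧ z ≤ 4) ∨ (z = 1 ∧ 1 ≤ k)
    · by_cases hcase : k = 1 ∧ (z = 2 ∨ z = 3)
      · obtain ⟨rfl, hz23⟩ := hcase
        exact key 1 1 z 1 0 z 1 2 z 0 1 z 2 1 z
          (by omega) (by omega) (by omega) (by omega) (by omega) (by omega) (by omega) (by omega)
          (by omega) (by omega) (by omega) (by omega) (by omega) (by omega) (by omega)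
          (by unfold Nb4; omega) (by unfold Nb4; omega) (by unfold Nb4; omega)
          (by unfold Nb4; omega)
          (by omega) (by omega) (by omega) (by omega) (by omega) (by omega) hz0 hz2
          (hP0 _ _ _ (by omega) (by omega) (Or.inl (hNU _ _ (by omega))))
          (hP0 _ _ _ (by omega) (by omega) (Or.inl (hNU _ _ (by omega))))
      · by_cases hcase2 : 2 ≤ k
        · exact key k 1 z k 0 z k 2 z k 1 (z - 1) k 1 (z + 1)
            (by omega) (by omega) (by omega) (by omega) (by omega) (by omega) (by omega) (by omega)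
            (by omega) (by omega) (by omega) (by omega) (by omega) (by omega) (by omega)
            (by unfold Nb4; omega) (by unfold Nb4; omega) (by unfold Nb4; omega)
            (by unfold Nb4; omega)
            (by omega) (by omega) (by omega) (by omega) (by omega) (by omega) hz0 hz2
            (hP0 _ _ _ (by omega) (by omega) (Or.inl (hNU _ _ (by omega))))
            (hP0 _ _ _ (by omega) (by omega) (Or.inl (hNU _ _ (by omega))))
        · have hk1 : k = 1 := by omega
          have hz14 : z = 1 ∨ z = 4 := by omega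
          subst hk1
          rcases hz14 with rfl | rfl
          · exact key 1 1 1 1 0 1 1 2 1 0 1 1 1 1 0
              (by omega) (by omega) (by omega) (by omega) (by omega) (by omega) (by omega)
              (by omega) (by omega) (by omega) (by omega) (by omega) (by omega) (by omega)
              (by omega) (by unfold Nb4; omega) (by unfold Nb4; omega) (by unfold Nb4; omega)
              (by unfold Nb4; omega)
              (by omega) (by omega) (by omega) (by omega) (by omega) (by omega) hz0 hz2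
              (hP0 _ _ _ (by omega) (by omega) (Or.inl (hNU _ _ (by omega))))
              (hP0 _ _ _ (by omega) (by omega) (Or.inl (hNU _ _ (by omega))))
          · exact key 1 1 4 1 0 4 1 2 4 0 1 4 1 1 5
              (by omega) (by omega) (by omega) (by omega) (by omega) (by omega) (by omega)
              (by omega) (by omega) (by omega) (by omega) (by omega) (by omega) (by omega)
              (by omega) (by unfold Nb4; omega) (by unfold Nb4; omega) (by unfold Nb4; omega)
              (by unfold Nb4; omega)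
              (by omega) (by omega) (by omega) (by omega) (by omega) (by omega) hz0 hz2
              (hP0 _ _ _ (by omega) (by omega) (Or.inl (hNU _ _ (by omega))))
              (hP0 _ _ _ (by omega) (by omega) (Or.inl (hNU _ _ (by omega))))
    · exact hP0 k 1 z hk (by omega) (Or.inl (hNU _ _ hU))
  -- conclusion
  intro y z hy
  have hyq := G.q_uniq y hy
  have hk := G.kap_lt y
  have ht := G.tht_lt y
  obtain ⟨z, hz⟩ := z
  rw [hyq]
  generalize kap y = k at hk
  generalize tht y = t at ht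
  have hcases : t = 1 ∨ t = 2 ∨ (t = 0 ∨ 3 ≤ t) := by omega
  rcases hcases with rfl | rfl | h
  · exact hlev1 k z hk hz hz
  · exact hlev2 k z hk hz
  · exact hfree k t z hk ht hz (Or.inr h)

end Pool.Agent.H132R3.BP
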