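import Pool.Agent.H132F.Stmts4

set_option autoImplicit false

namespace Pool.Agent.H132R3.BP

open SimpleGraph

theorem u3b_triple {α : Type} (S : Set α) (a b c : α) (h : ∀ u ∈ S, u = a ∨ u = b ∨ u = c) :
    S.ncard ≤ 3 := by
  have hsub : S ⊆ ({a, b, c} : Set α) := by
    intro u hu
    rcases h u hu with h | h | h
    · exact Or.inl h
    · exact Or.inr (Or.inl h)
    · exact Or.inr (Or.inr h)
  calc S.ncard ≤ ({a, b, c} : Set α).ncard := Set.ncard_le_ncard hsub (Set.toFinite _)
    _ ≤ ({b, c} : Set α).ncard + 1 := Set.ncard_insert_le a {b, c}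
    _ ≤ (({c} : Set α).ncard + 1) + 1 := by
      have := Set.ncard_insert_le b ({c} : Set α)
      omega
    _ = 3 := by rw [Set.ncard_singleton]

theorem u3b_range {V : Type} {n : ℕ} [Finite V] (S : Set (V × Fin n)) (T : Set V) (z : Fin n)
    (m : ℕ) (hT : T.ncard ≤ m) (h : ∀ u ∈ S, u.1 ∈ T ∧ u.2 = z) : S.ncard ≤ m := by
  have hsub : S ⊆ (fun y => (y, z)) '' T := by
    rintro ⟨a, b⟩ hu
    obtain ⟨h1, h2⟩ := h _ hu
    exact ⟨a, h1, by simp only at h2; rw [h2]⟩
  calc S.ncard ≤ ((fun y => (y, z)) '' T).ncard := Set.ncard_le_ncard hsub (Set.toFinite _)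
    _ ≤ T.ncard := Set.ncard_image_le (Set.toFinite _)
    _ ≤ m := hT

theorem u3b_insert {V : Type} {n : ℕ} [Finite V] (S : Set (V × Fin n)) (T : Set V) (z : Fin n)
    (w : V × Fin n) (hT : T.ncard ≤ 2) (h : ∀ u ∈ S, u = w ∨ (u.1 ∈ T ∧ u.2 = z)) :
    S.ncard ≤ 3 := by
  have hsub : S ⊆ insert w ((fun y => (y, z)) '' T) := by
    rintro ⟨a, b⟩ hu
    rcases h _ hu with h1 | ⟨h1, h2⟩
    · exact Or.inl h1
    · exact Or.inr ⟨a, h1, by simp only at h2; rw [h2]⟩
  calc S.ncard ≤ (insert w ((fun y => (y, z)) '' T)).ncard :=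
        Set.ncard_le_ncard hsub (Set.toFinite _)
    _ ≤ ((fun y => (y, z)) '' T).ncard + 1 := Set.ncard_insert_le _ _
    _ ≤ T.ncard + 1 := by
      have : ((fun y => (y, z)) '' T).ncard ≤ T.ncard := Set.ncard_image_le (Set.toFinite _)
      omega
    _ ≤ 3 := by omega

theorem u3b_t2_low (L J i z : ℕ) (hi : 1 ≤ i) (hz : 1 ≤ z) (hz' : z ≤ 2) :
    t2 L J i z = big L J := by
  unfold t2
  rw [if_neg (by omega), if_neg (by omega), if_neg (by omega), if_neg (by omega),
    if_neg (by omega)]

theorem tUCount3b : UCount3b := by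
  intro V _ Y n L J lam kap tht q φ Wc τ hS y z hl hy hyW
  have hstep := hS.graded.step
  by_cases hz : (z : ℕ) = 0
  · have h0 : τ (y, z) = 0 := hS.tau.zero y z (Or.inl hz)
    refine u3b_triple _ (y, z) (y, z) (y, z) fun u hu => ?_
    have := hu.2
    simp only [Set.mem_setOf_eq] at this
    omega
  by_cases hk : kap y = 0
  · have h0 : τ (y, z) = 0 := hS.tau.zero y z (Or.inr (Or.inl hk))
    refine u3b_triple _ (y, z) (y, z) (y, z) fun u hu => ?_
    have := hu.2
    simp only [Set.mem_setOf_eq] at this
    omega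
  by_cases ht : tht y = 0
  · have h0 : τ (y, z) = 0 := hS.tau.zero y z (Or.inr (Or.inr ht))
    refine u3b_triple _ (y, z) (y, z) (y, z) fun u hu => ?_
    have := hu.2
    simp only [Set.mem_setOf_eq] at this
    omega
  have hB : τ (y, z) = big L J := hS.tau.outer y z hz hk ht (by omega) hy hyW
  have hq : ∀ y', Y.Adj y y' → lam y' = 0 →
      y' = q (kap y) (tht y) ∧ kap y' = kap y ∧ tht y' = tht y := by
    intro y' ha h0
    have h1 := hS.graded.q_uniq y' h0
    have h2 : kap y' = kap y ∧ tht y' = tht y := by
      rcases hstep _ _ ha with h | h | h <;> omega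
    rw [h2.1, h2.2] at h1
    exact ⟨h1, h2⟩
  -- description of the counted neighbours
  have key : ∀ u ∈ ((Y □ pathGraph n).neighborSet (y, z) ∩ {u | τ u + 2 ≤ τ (y, z)}),
      (u.1 = y ∧ (u.2 : ℕ) = 0 ∧ (z : ℕ) = 1) ∨
      (Y.Adj y u.1 ∧ u.2 = z ∧ ((u.1 ∈ Set.range φ ∪ Wc ∧ 3 ≤ (z : ℕ)) ∨ kap u.1 = 0 ∨
        tht u.1 = 0 ∨ (u.1 = q (kap y) (tht y) ∧ ¬ (U0 (kap y) z ∧ tht y ≤ 2)))) := by
    rintro ⟨y', z'⟩ ⟨hadj, hτ⟩
    simp only [Set.mem_setOf_eq] at hτ
    rw [hB] at hτ
    rw [mem_neighborSet, boxProd_adj] at hadj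
    simp only at hadj
    rcases hadj with ⟨ha, hzz⟩ | ⟨ha, hyy⟩
    · subst hzz
      right
      refine ⟨ha, rfl, ?_⟩
      by_cases hk' : kap y' = 0
      · exact Or.inr (Or.inl hk')
      by_cases ht' : tht y' = 0
      · exact Or.inr (Or.inr (Or.inl ht'))
      by_cases hl' : lam y' = 0
      · right; right; right
        obtain ⟨e1, e2, e3⟩ := hq y' ha hl'
        refine ⟨e1, fun hU => ?_⟩
        have hb := hS.tau.bottom y' z hz hk' ht' hl'
        rw [e2, e3, if_pos hU] at hb
        omega
      left
      by_cases hr : y' ∈ Set.range φ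
      · refine ⟨Or.inl hr, ?_⟩
        obtain ⟨i, rfl⟩ := hr
        have hi : 1 ≤ (i : ℕ) := by
          by_contra hi
          have h3 := (hS.line.lead i (by omega)).1
          omega
        have hb := hS.tau.line i z hz hi
        by_contra hz3
        rw [u3b_t2_low L J i z hi (by omega) (by omega)] at hb
        omega
      · by_cases hw : y' ∈ Wc
        · refine ⟨Or.inr hw, ?_⟩
          by_contra hz3
          have hb := hS.tau.wbig y' z hw (by omega) (by omega)
          omega
        · have hb := hS.tau.outer y' z hz hk' ht' hl' hr hw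
          omega
    · subst hyy
      left
      refine ⟨rfl, ?_⟩
      rw [pathGraph_adj] at ha
      by_cases hz' : (z' : ℕ) = 0
      · refine ⟨hz', ?_⟩
        omega
      · exfalso
        have hb := hS.tau.outer y z' hz' hk ht (by omega) hy hyW
        omega
  obtain ⟨d, hd1, -, -, hd4⟩ := hS.graded.kdown y (by omega)
  obtain ⟨e, he1, -, -, he4⟩ := hS.graded.tdown y (by omega)
  have hdown : ∀ y', Y.Adj y y' → kap y' = 0 → y' = d := by
    intro y' ha h0
    have h1 : kap y' + 1 = kap y := by
      rcases hstep _ _ ha with h | h | h <;> omega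
    exact hS.graded.kdown_uniq y y' d ha hd1 h1 hd4
  have htdown : ∀ y', Y.Adj y y' → tht y' = 0 → y' = e ∧ tht y = 1 := by
    intro y' ha h0
    have h1 : tht y' + 1 = tht y := by
      rcases hstep _ _ ha with h | h | h <;> omega
    exact ⟨hS.graded.tdown_uniq y y' e ha he1 h1 he4, by omega⟩
  by_cases hz3 : 3 ≤ (z : ℕ)
  · by_cases hk1 : kap y = 1
    · -- no neighbour in the line or in the companion set
      have hno : ∀ y', Y.Adj y y' → y' ∉ Set.range φ ∪ Wc := by
        rintro y' ha (⟨i, rfl⟩ | hw)
        · have h5 := (hS.line.high i).1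
          rcases hstep _ _ ha with h | h | h <;> omega
        · have h5 := (hS.line.whigh y' hw).1
          rcases hstep _ _ ha with h | h | h <;> omega
      refine u3b_triple _ (d, z) (e, z) (q (kap y) (tht y), z) fun u hu => ?_
      obtain ⟨u1, u2⟩ := u
      rcases key _ hu with ⟨h1, h2, h3⟩ | ⟨h1, h2, h3⟩
      · omega
      · simp only at h1 h2 h3
        rcases h3 with h3 | h3 | h3 | h3
        · exact absurd h3.1 (hno _ h1)
        · left
          rw [hdown _ h1 h3, h2]
        · right; left
          rw [(htdown _ h1 h3).1, h2]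
        · right; right
          rw [h3.1, h2]
    · have hkap : ∀ y', Y.Adj y y' → kap y' ≠ 0 := by
        intro y' ha h0
        rcases hstep _ _ ha with h | h | h <;> omega
      by_cases ht1 : tht y = 1
      · -- the line and the companion set are met in the neighbour above only
        have hup : ∀ y', Y.Adj y y' → y' ∈ Set.range φ ∪ Wc → tht y' = tht y + 1 := by
          rintro y' ha (⟨i, rfl⟩ | hw)
          · have h5 := (hS.line.high i).2
            rcases hstep _ _ ha with h | h | h <;> omega
          · have h5 := (hS.line.whigh y' hw).2.1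
            rcases hstep _ _ ha with h | h | h <;> omega
        by_cases hex : ∃ f, Y.Adj y f ∧ tht f = tht y + 1
        · obtain ⟨f, hf1, hf2⟩ := hex
          refine u3b_triple _ (e, z) (f, z) (q (kap y) (tht y), z) fun u hu => ?_
          obtain ⟨u1, u2⟩ := u
          rcases key _ hu with ⟨h1, h2, h3⟩ | ⟨h1, h2, h3⟩
          · omega
          · simp only at h1 h2 h3
            rcases h3 with h3 | h3 | h3 | h3
            · right; left
              rw [hS.graded.tup_uniq y u1 f h1 hf1 (hup _ h1 h3.1) hf2, h2]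
            · exact absurd h3 (hkap _ h1)
            · left
              rw [(htdown _ h1 h3).1, h2]
            · right; right
              rw [h3.1, h2]
        · refine u3b_triple _ (e, z) (e, z) (q (kap y) (tht y), z) fun u hu => ?_
          obtain ⟨u1, u2⟩ := u
          rcases key _ hu with ⟨h1, h2, h3⟩ | ⟨h1, h2, h3⟩
          · omega
          · simp only at h1 h2 h3
            rcases h3 with h3 | h3 | h3 | h3
            · exact absurd ⟨u1, h1, hup _ h1 h3.1⟩ hex
            · exact absurd h3 (hkap _ h1)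
            · left
              rw [(htdown _ h1 h3).1, h2]
            · right; right
              rw [h3.1, h2]
      · have htht : ∀ y', Y.Adj y y' → tht y' ≠ 0 := by
          intro y' ha h0
          rcases hstep _ _ ha with h | h | h <;> omega
        by_cases h52 : kap y = 5 ∧ tht y = 2
        · refine u3b_range _ _ z 3 (hS.line.out y hy hyW) fun u hu => ?_
          obtain ⟨u1, u2⟩ := u
          rcases key _ hu with ⟨h1, h2, h3⟩ | ⟨h1, h2, h3⟩
          · omega
          · simp only at h1 h2 h3
            rcases h3 with h3 | h3 | h3 | h3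
            · exact ⟨⟨h1, h3.1⟩, h2⟩
            · exact absurd h3 (hkap _ h1)
            · exact absurd h3 (htht _ h1)
            · have hL : 0 < L := by have := hS.hL; omega
              obtain ⟨l0, l1, l2⟩ := hS.line.lead ⟨0, hL⟩ (by simp)
              have h6 := hS.graded.q_uniq (φ ⟨0, hL⟩) l0
              rw [l1, l2] at h6
              refine ⟨⟨h1, Or.inl ⟨⟨0, hL⟩, ?_⟩⟩, h2⟩
              rw [h6, h3.1, h52.1, h52.2]
        · refine u3b_insert _ _ z (q (kap y) (tht y), z)
            (hS.line.out1 y hy hyW hl (by omega)) fun u hu => ?_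
          obtain ⟨u1, u2⟩ := u
          rcases key _ hu with ⟨h1, h2, h3⟩ | ⟨h1, h2, h3⟩
          · omega
          · simp only at h1 h2 h3
            rcases h3 with h3 | h3 | h3 | h3
            · exact Or.inr ⟨⟨h1, h3.1⟩, h2⟩
            · exact absurd h3 (hkap _ h1)
            · exact absurd h3 (htht _ h1)
            · left
              rw [h3.1, h2]
  · by_cases hz1 : (z : ℕ) = 1
    · have h0n : 0 < n := by have := hS.hn; omega
      by_cases ht2 : tht y ≤ 2
      · refine u3b_triple _ (y, ⟨0, h0n⟩) (d, z) (e, z) fun u hu => ?_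
        obtain ⟨u1, u2⟩ := u
        rcases key _ hu with ⟨h1, h2, h3⟩ | ⟨h1, h2, h3⟩
        · left
          simp only at h1 h2
          rw [h1]
          congr 1
          exact Fin.ext h2
        · simp only at h1 h2 h3
          rcases h3 with h3 | h3 | h3 | h3
          · exact absurd h3.2 hz3
          · right; left
            rw [hdown _ h1 h3, h2]
          · right; right
            rw [(htdown _ h1 h3).1, h2]
          · exfalso
            exact h3.2 ⟨Or.inr (Or.inr ⟨hz1, by omega⟩), ht2⟩
      · refine u3b_triple _ (y, ⟨0, h0n⟩) (d, z) (q (kap y) (tht y), z) fun u hu => ?_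
        obtain ⟨u1, u2⟩ := u
        rcases key _ hu with ⟨h1, h2, h3⟩ | ⟨h1, h2, h3⟩
        · left
          simp only at h1 h2
          rw [h1]
          congr 1
          exact Fin.ext h2
        · simp only at h1 h2 h3
          rcases h3 with h3 | h3 | h3 | h3
          · exact absurd h3.2 hz3
          · right; left
            rw [hdown _ h1 h3, h2]
          · exfalso
            have := (htdown _ h1 h3).2
            omega
          · right; right
            rw [h3.1, h2]
    · refine u3b_triple _ (d, z) (e, z) (q (kap y) (tht y), z) fun u hu => ?_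
      obtain ⟨u1, u2⟩ := u
      rcases key _ hu with ⟨h1, h2, h3⟩ | ⟨h1, h2, h3⟩
      · exact absurd h3 hz1
      · simp only at h1 h2 h3
        rcases h3 with h3 | h3 | h3 | h3
        · exact absurd h3.2 hz3
        · left
          rw [hdown _ h1 h3, h2]
        · right; left
          rw [(htdown _ h1 h3).1, h2]
        · right; right
          rw [h3.1, h2]

end Pool.Agent.H132R3.BP
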