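import Pool.Agent.H132F.Stmts4
import Pool.Agent.H132F.TLead

/-!
# STEP4 (project H132-BP4)
-/

set_option autoImplicit false

namespace Pool.Agent.H132R3.BP

open SimpleGraph

namespace UStep4Aux

/-- how the gradings change along an edge -/
def StepP {V : Type} (Y : SimpleGraph V) (lam kap tht : V → ℕ) : Prop :=
  ∀ y y', Y.Adj y y' →
    (kap y = kap y' ∧ tht y = tht y' ∧ (lam y + 1 = lam y' ∨ lam y' + 1 = lam y)) ∨
      (lam y = lam y' ∧ tht y = tht y' ∧ (kap y + 1 = kap y' ∨ kap y' + 1 = kap y)) ∨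
      (lam y = lam y' ∧ kap y = kap y' ∧ (tht y + 1 = tht y' ∨ tht y' + 1 = tht y))

theorem stepP_grid (m M n : ℕ) :
    StepP (((pathGraph M □ pathGraph n) □ pathGraph n) □ Grid m n)
      (fun y : ((Fin M × Fin n) × Fin n) × (Fin m → Fin n) => (y.1.1.1 : ℕ) + ∑ j, (y.2 j : ℕ))
      (fun y => (y.1.1.2 : ℕ)) (fun y => (y.1.2 : ℕ)) := by
  have hgrid : ∀ w w' : Fin m → Fin n, (Grid m n).Adj w w' →
      (∑ j, (w j : ℕ)) + 1 = ∑ j, (w' j : ℕ) ∨ (∑ j, (w' j : ℕ)) + 1 = ∑ j, (w j : ℕ) := by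
    intro w w' h
    obtain ⟨i, h, hj⟩ := h
    have e1 : ∑ j, (w j : ℕ) = (w i : ℕ) + ∑ j ∈ Finset.univ.erase i, (w j : ℕ) :=
      (Finset.add_sum_erase _ _ (Finset.mem_univ i)).symm
    have e2 : ∑ j, (w' j : ℕ) = (w' i : ℕ) + ∑ j ∈ Finset.univ.erase i, (w' j : ℕ) :=
      (Finset.add_sum_erase _ _ (Finset.mem_univ i)).symm
    have e3 : ∑ j ∈ Finset.univ.erase i, (w j : ℕ) = ∑ j ∈ Finset.univ.erase i, (w' j : ℕ) := by
      apply Finset.sum_congr rfl
      intro j hj'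
      rw [hj j (Finset.ne_of_mem_erase hj')]
    rw [e1, e2, e3]
    omega
  rintro ⟨⟨⟨x, k⟩, t⟩, w⟩ ⟨⟨⟨x', k'⟩, t'⟩, w'⟩ h
  simp only [boxProd_adj, pathGraph_adj] at h
  simp only
  rcases h with ⟨⟨⟨h, h3⟩ | ⟨h, h3⟩, h2⟩ | ⟨h, h2⟩, h1⟩ | ⟨h, h1⟩
  · subst h1 h2 h3
    left
    refine ⟨rfl, rfl, by omega⟩
  · subst h1 h2 h3
    right
    left
    exact ⟨rfl, rfl, h⟩
  · subst h1
    obtain ⟨rfl, rfl⟩ := Prod.mk.inj h2
    right
    right
    exact ⟨rfl, rfl, h⟩
  · obtain ⟨h2, rfl⟩ := Prod.mk.inj h1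
    obtain ⟨rfl, rfl⟩ := Prod.mk.inj h2
    left
    refine ⟨rfl, rfl, ?_⟩
    have := hgrid _ _ h
    omega

/-- the line times a path, along a thin path -/
theorem line4_prod {V : Type} [Finite V] {Y : SimpleGraph V} {L L' n : ℕ} {lam kap tht : V → ℕ}
    {φ : Fin L → V} {Wc : Set V} (h : Line4 Y L lam kap tht φ Wc)
    (hstep : StepP Y lam kap tht)
    (hU : ∀ w ∈ Wc, ∀ w' ∈ Wc, lam w = 1 → lam w' = 1 → w = w')
    {p : Fin L' → Fin L × Fin n} (hp : Thin (pathGraph L') (pathGraph L □ pathGraph n) p)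
    (hlead : ∀ i : Fin L', (i : ℕ) ≤ 4 → ((p i).1 : ℕ) = i ∧ ((p i).2 : ℕ) = 0)
    (hfar : ∀ i : Fin L', 4 ≤ (i : ℕ) → 4 ≤ ((p i).1 : ℕ)) :
    Line4 (Y □ pathGraph n) L' (fun y => lam y.1 + (y.2 : ℕ)) (fun y => kap y.1)
      (fun y => tht y.1) (fun i => (φ (p i).1, (p i).2)) {y | y.1 ∈ Wc} := by
  -- neighbours at the same level
  have hsame : ∀ (v : V) (k : Fin n), v ∉ Wc → v ∉ Set.range φ →
      (Y □ pathGraph n).neighborSet (v, k) ∩
        (Set.range (fun i => (φ (p i).1, (p i).2)) ∪ {y | y.1 ∈ Wc}) ⊆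
      (fun w => (w, k)) '' (Y.neighborSet v ∩ (Set.range φ ∪ Wc)) := by
    rintro v k hvW hvφ ⟨v', k'⟩ ⟨hadj, hmem⟩
    simp only [mem_neighborSet, boxProd_adj] at hadj
    rcases hadj with ⟨h1, h2⟩ | ⟨h1, h2⟩
    · subst h2
      refine ⟨v', ⟨h1, ?_⟩, rfl⟩
      rcases hmem with ⟨i, hi⟩ | hmem
      · exact Or.inl ⟨_, (Prod.mk.inj hi).1⟩
      · exact Or.inr hmem
    · exfalso
      rcases hmem with ⟨i, hi⟩ | hmem
      · exact hvφ ⟨(p i).1, ((Prod.mk.inj hi).1).trans h2.symm⟩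
      · apply hvW
        rw [h2]
        exact hmem
  have hcard : ∀ (v : V) (k : Fin n) (N : ℕ), v ∉ Wc → v ∉ Set.range φ →
      (Y.neighborSet v ∩ (Set.range φ ∪ Wc)).ncard ≤ N →
      ((Y □ pathGraph n).neighborSet (v, k) ∩
        (Set.range (fun i => (φ (p i).1, (p i).2)) ∪ {y | y.1 ∈ Wc})).ncard ≤ N := by
    intro v k N hvW hvφ hN
    refine (Set.ncard_le_ncard (hsame v k hvW hvφ) (Set.toFinite _)).trans ?_
    rw [Set.ncard_image_of_injective _ (fun a b e => (Prod.mk.inj e).1)]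
    exact hN
  -- neighbours of `(φ a, b)` in the companion set
  have hcompSet : ∀ (a : Fin L) (b : Fin n),
      (Y □ pathGraph n).neighborSet (φ a, b) ∩ {y | y.1 ∈ Wc} =
        (fun w => (w, b)) '' (Y.neighborSet (φ a) ∩ Wc) := by
    intro a b
    ext ⟨v', k'⟩
    constructor
    · rintro ⟨hadj, hmem⟩
      simp only [mem_neighborSet, boxProd_adj] at hadj
      rcases hadj with ⟨h1, h2⟩ | ⟨h1, h2⟩
      · subst h2
        exact ⟨v', ⟨h1, hmem⟩, rfl⟩
      · exfalso
        apply h.notMem a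
        rw [h2]
        exact hmem
    · rintro ⟨w, ⟨hw1, hw2⟩, e⟩
      obtain ⟨rfl, rfl⟩ := Prod.mk.inj e
      refine ⟨?_, hw2⟩
      simp only [mem_neighborSet, boxProd_adj]
      exact Or.inl ⟨hw1, trivial⟩
  have hcompCard : ∀ (a : Fin L) (b : Fin n),
      ((Y □ pathGraph n).neighborSet (φ a, b) ∩ {y | y.1 ∈ Wc}).ncard =
        (Y.neighborSet (φ a) ∩ Wc).ncard := by
    intro a b
    rw [hcompSet, Set.ncard_image_of_injective _ (fun a b e => (Prod.mk.inj e).1)]
  have hp1 : ∀ i : Fin L', 1 ≤ (i : ℕ) → 1 ≤ ((p i).1 : ℕ) := by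
    intro i hi
    by_cases h4 : (i : ℕ) ≤ 4
    · rw [(hlead i h4).1]
      exact hi
    · have := hfar i (by omega)
      omega
  -- no companion next to the first vertex
  have hzero : ∀ a : Fin L, (a : ℕ) = 0 → Y.neighborSet (φ a) ∩ Wc = ∅ := by
    intro a ha
    obtain ⟨l1, l2, l3⟩ := h.lead a (by omega)
    apply Set.eq_empty_of_forall_notMem
    rintro w ⟨hw1, hw2⟩
    obtain ⟨w1, w2, w3⟩ := h.whigh w hw2
    rcases hstep _ _ hw1 with hs | hs | hs
    · have := h.wlow w hw2 (by omega)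
      omega
    · omega
    · omega
  have hle1 : ∀ a : Fin L, (Y.neighborSet (φ a) ∩ Wc).ncard ≤ 1 := by
    intro a
    by_cases ha : 1 ≤ (a : ℕ)
    · exact (h.comp a ha).le
    · rw [hzero a (by omega)]
      simp
  refine
    { inj := ?_
      adj := ?_
      notMem := fun i => h.notMem _
      comp := ?_
      out := ?_
      out1 := ?_
      lead := ?_
      far := ?_
      high := fun i => h.high _
      whigh := ?_
      wlow := ?_ }
  · intro i j e
    obtain ⟨e1, e2⟩ := Prod.mk.inj e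
    exact hp.inj (Prod.ext (h.inj e1) e2)
  · intro i j
    rw [← hp.adj]
    simp only [boxProd_adj, h.adj, h.inj.eq_iff]
  · intro i hi
    rw [hcompCard]
    exact h.comp _ (hp1 i hi)
  · rintro ⟨v, k⟩ hy1 hy2
    have hvW : v ∉ Wc := hy2
    by_cases hv : v ∈ Set.range φ
    · obtain ⟨a, rfl⟩ := hv
      have hak : (a, k) ∉ Set.range p := by
        rintro ⟨i, hi⟩
        apply hy1
        refine ⟨i, ?_⟩
        simp only [hi]
      have hsub : (Y □ pathGraph n).neighborSet (φ a, k) ∩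
          Set.range (fun i => (φ (p i).1, (p i).2)) ⊆
          (fun x : Fin L × Fin n => (φ x.1, x.2)) ''
            ((pathGraph L □ pathGraph n).neighborSet (a, k) ∩ Set.range p) := by
        rintro _ ⟨hadj, i, rfl⟩
        refine ⟨p i, ⟨?_, i, rfl⟩, rfl⟩
        simp only [mem_neighborSet, boxProd_adj, h.adj, h.inj.eq_iff] at hadj ⊢
        exact hadj
      have h2 : ((Y □ pathGraph n).neighborSet (φ a, k) ∩
          Set.range (fun i => (φ (p i).1, (p i).2))).ncard ≤ 2 := by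
        refine (Set.ncard_le_ncard hsub (Set.toFinite _)).trans ?_
        exact (Set.ncard_image_le (Set.toFinite _)).trans (hp.out _ hak)
      rw [Set.inter_union_distrib_left]
      refine (Set.ncard_union_le _ _).trans ?_
      have h3 := hle1 a
      rw [← hcompCard a k] at h3
      omega
    · exact hcard v k 3 hvW hv (h.out v hv hvW)
  · rintro ⟨v, k⟩ hy1 hy2 hlam hkt
    have hvW : v ∉ Wc := hy2
    simp only at hlam hkt
    by_cases hv : v ∈ Set.range φ
    · exfalso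
      obtain ⟨a, rfl⟩ := hv
      have ha : (a : ℕ) ≤ 3 := by
        by_contra hc
        have := h.far a (by omega)
        omega
      obtain ⟨l1, l2, l3⟩ := h.lead a ha
      omega
    · apply hcard v k 2 hvW hv
      by_cases hk : (k : ℕ) = 0
      · exact h.out1 v hv hvW (by omega) hkt
      · have hl0 : lam v = 0 := by omega
        -- the two possible neighbours
        have hsub : Y.neighborSet v ∩ (Set.range φ ∪ Wc) ⊆
            (φ '' {a | (a : ℕ) = 0}) ∪ (Y.neighborSet v ∩ Wc) := by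
          rintro x ⟨hx1, ⟨a, rfl⟩ | hx2⟩
          · left
            refine ⟨a, ?_, rfl⟩
            have ha : (a : ℕ) ≤ 3 := by
              by_contra hc
              have h5 := h.far a (by omega)
              rcases hstep _ _ hx1 with hs | hs | hs <;> omega
            obtain ⟨l1, l2, l3⟩ := h.lead a ha
            change (a : ℕ) = 0
            rcases hstep _ _ hx1 with hs | hs | hs <;> omega
          · exact Or.inr ⟨hx1, hx2⟩
        have h6 : (φ '' {a | (a : ℕ) = 0}).ncard ≤ 1 := by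
          refine (Set.ncard_image_le (Set.toFinite _)).trans ?_
          rw [Set.ncard_le_one_iff]
          intro a b ha hb
          have ha' : (a : ℕ) = 0 := ha
          have hb' : (b : ℕ) = 0 := hb
          exact Fin.ext (by omega)
        have h7 : (Y.neighborSet v ∩ Wc).ncard ≤ 1 := by
          rw [Set.ncard_le_one_iff (Set.toFinite _)]
          rintro w w' ⟨hw1, hw2⟩ ⟨hw1', hw2'⟩
          have e1 : lam w = 1 := by
            have := (h.whigh w hw2).2.2
            rcases hstep _ _ hw1 with hs | hs | hs <;> omega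
          have e2 : lam w' = 1 := by
            have := (h.whigh w' hw2').2.2
            rcases hstep _ _ hw1' with hs | hs | hs <;> omega
          exact hU w hw2 w' hw2' e1 e2
        refine (Set.ncard_le_ncard hsub (Set.toFinite _)).trans ?_
        refine (Set.ncard_union_le _ _).trans ?_
        omega
  · intro i hi
    obtain ⟨g1, g2⟩ := hlead i (by omega)
    obtain ⟨l1, l2, l3⟩ := h.lead (p i).1 (by omega)
    refine ⟨by simp only; omega, l2, l3⟩
  · intro i hi
    have h3 : 3 ≤ ((p i).1 : ℕ) := by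
      by_cases h4 : (i : ℕ) ≤ 4
      · rw [(hlead i h4).1]
        exact hi
      · have := hfar i (by omega)
        omega
    have := h.far (p i).1 h3
    simp only
    omega
  · rintro ⟨w, k⟩ hw
    obtain ⟨w1, w2, w3⟩ := h.whigh w hw
    refine ⟨w1, w2, ?_⟩
    simp only
    omega
  · rintro ⟨w, k⟩ hw hlam
    obtain ⟨w1, w2, w3⟩ := h.whigh w hw
    simp only at hlam
    exact h.wlow w hw (by omega)

/-- transport along an isomorphism -/
theorem line4_iso {V V' : Type} {Y : SimpleGraph V} {Y' : SimpleGraph V'} {L : ℕ}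
    {lam kap tht : V → ℕ} {lam' kap' tht' : V' → ℕ} {φ : Fin L → V} {Wc : Set V}
    (ψ : V → V') (hinj : Function.Injective ψ) (hsurj : Function.Surjective ψ)
    (hadj : ∀ u v, Y'.Adj (ψ u) (ψ v) ↔ Y.Adj u v) (hl : ∀ v, lam' (ψ v) = lam v)
    (hk : ∀ v, kap' (ψ v) = kap v) (ht : ∀ v, tht' (ψ v) = tht v)
    (h : Line4 Y L lam kap tht φ Wc) :
    Line4 Y' L lam' kap' tht' (fun i => ψ (φ i)) (ψ '' Wc) := by
  have hW : ∀ v, ψ v ∈ ψ '' Wc ↔ v ∈ Wc := fun v => hinj.mem_set_image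
  have hR : ∀ v, ψ v ∈ Set.range (fun i => ψ (φ i)) ↔ v ∈ Set.range φ := by
    intro v
    constructor
    · rintro ⟨i, hi⟩
      exact ⟨i, hinj hi⟩
    · rintro ⟨i, rfl⟩
      exact ⟨i, rfl⟩
  have hcard : ∀ (v : V) (A : Set V) (A' : Set V'), (∀ v, ψ v ∈ A' ↔ v ∈ A) →
      (Y'.neighborSet (ψ v) ∩ A').ncard = (Y.neighborSet v ∩ A).ncard := by
    intro v A A' hA
    have : Y'.neighborSet (ψ v) ∩ A' = ψ '' (Y.neighborSet v ∩ A) := by
      ext x
      obtain ⟨u, rfl⟩ := hsurj x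
      rw [hinj.mem_set_image]
      simp only [Set.mem_inter_iff, mem_neighborSet, hadj, hA]
    rw [this, Set.ncard_image_of_injective _ hinj]
  have hRW : ∀ v, ψ v ∈ Set.range (fun i => ψ (φ i)) ∪ ψ '' Wc ↔ v ∈ Set.range φ ∪ Wc := by
    intro v
    rw [Set.mem_union, Set.mem_union, hW, hR]
  refine
    { inj := hinj.comp h.inj
      adj := fun i j => (hadj _ _).trans (h.adj i j)
      notMem := fun i hi => h.notMem i ((hW _).1 hi)
      comp := ?_
      out := ?_
      out1 := ?_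
      lead := ?_
      far := ?_
      high := ?_
      whigh := ?_
      wlow := ?_ }
  · intro i hi
    rw [hcard (φ i) Wc _ hW]
    exact h.comp i hi
  · intro y
    obtain ⟨v, rfl⟩ := hsurj y
    intro h1 h2
    rw [hcard v _ _ hRW]
    exact h.out v (fun hc => h1 ((hR v).2 hc)) (fun hc => h2 ((hW v).2 hc))
  · intro y
    obtain ⟨v, rfl⟩ := hsurj y
    intro h1 h2 h3 h4
    rw [hcard v _ _ hRW]
    rw [hl] at h3
    rw [hk, ht] at h4
    exact h.out1 v (fun hc => h1 ((hR v).2 hc)) (fun hc => h2 ((hW v).2 hc)) h3 h4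
  · intro i hi
    simp only [hl, hk, ht]
    exact h.lead i hi
  · intro i hi
    simp only [hl]
    exact h.far i hi
  · intro i
    simp only [hk, ht]
    exact h.high i
  · rintro _ ⟨w, hw, rfl⟩
    simp only [hl, hk, ht]
    exact h.whigh w hw
  · rintro _ ⟨w, hw, rfl⟩ hlam
    rw [hl] at hlam
    simp only [hk, ht]
    exact h.wlow w hw hlam

end UStep4Aux

open UStep4Aux TLeadAux in
theorem tUStep4 : UStep4 := by
  intro hT m ih
  obtain ⟨C, hC, ih⟩ := ih
  refine ⟨16 * C, by omega, ?_⟩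
  intro M n hM hn
  obtain ⟨L, φ, Wc, hL, hsize, hline, hlead, hfar, hWc⟩ := ih M n hM hn
  obtain ⟨L', p, hL', hp, hlead', hfar'⟩ := hT L n (by omega) (by omega)
  have hLn : 30 * 30 ≤ L * n := Nat.mul_le_mul hL hn
  have hU : ∀ w ∈ Wc, ∀ w' ∈ Wc, (w.1.1.1 : ℕ) + ∑ j, (w.2 j : ℕ) = 1 →
      (w'.1.1.1 : ℕ) + ∑ j, (w'.2 j : ℕ) = 1 → w = w' := by
    intro w hw w' hw' e e'
    obtain ⟨a1, a2, -⟩ := hWc w hw
    obtain ⟨b1, b2, -⟩ := hWc w' hw'
    have hx : (w.1.1.1 : ℕ) = 1 := by omega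
    have hx' : (w'.1.1.1 : ℕ) = 1 := by omega
    obtain ⟨a3, a4⟩ := a2 hx
    obtain ⟨b3, b4⟩ := b2 hx'
    have hs : ∑ j, (w.2 j : ℕ) = 0 := by omega
    have hs' : ∑ j, (w'.2 j : ℕ) = 0 := by omega
    refine Prod.ext (Prod.ext (Prod.ext (Fin.ext ?_) (Fin.ext ?_)) (Fin.ext ?_))
      (funext fun j => Fin.ext ?_)
    · omega
    · omega
    · omega
    · have c1 := Finset.sum_eq_zero_iff.1 hs j (Finset.mem_univ j)
      have c2 := Finset.sum_eq_zero_iff.1 hs' j (Finset.mem_univ j)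
      omega
  have h1 := line4_prod hline (stepP_grid m M n) hU hp hlead' hfar'
  have hψ := thin_cons ((pathGraph M □ pathGraph n) □ pathGraph n) m n
  have h2 := line4_iso (Y' := ((pathGraph M □ pathGraph n) □ pathGraph n) □ Grid (m + 1) n)
    (lam' := fun y => (y.1.1.1 : ℕ) + ∑ j, (y.2 j : ℕ)) (kap' := fun y => (y.1.1.2 : ℕ))
    (tht' := fun y => (y.1.2 : ℕ)) _ hψ.inj
    (fun y => ⟨((y.1, Fin.tail y.2), y.2 0), by simp⟩) hψ.adj
    (by
      rintro ⟨⟨q, g⟩, k⟩
      simp only [Fin.sum_univ_succ, Fin.cons_zero, Fin.cons_succ]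
      omega)
    (fun _ => rfl) (fun _ => rfl) h1
  refine ⟨L', _, _, by omega, ?_, h2, ?_, ?_, ?_⟩
  · calc M * n ^ (m + 1 + 2) = (M * n ^ (m + 2)) * n := by ring
      _ ≤ (C * L) * n := Nat.mul_le_mul_right _ hsize
      _ = C * (L * n) := by ring
      _ ≤ C * (16 * L') := Nat.mul_le_mul_left _ hL'
      _ = 16 * C * L' := by ring
  · intro i hi
    obtain ⟨g1, g2⟩ := hlead' i hi
    obtain ⟨l1, l2, l3, l4⟩ := hlead (p i).1 (by omega)
    refine ⟨by simp only; omega, l2, l3, ?_⟩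
    intro j
    induction j using Fin.cases with
    | zero => simpa using g2
    | succ j => simpa using l4 j
  · intro i hi
    exact hfar _ (hfar' i hi)
  · rintro _ ⟨⟨w, k⟩, hw, rfl⟩
    exact hWc w hw

end Pool.Agent.H132R3.BP
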